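import Pool.Agent.H98.FL.Defs

/-!
# Module Vol: the volume is constant (logarithmic form)

Let `x, y` solve `Sys` over a field `L` of characteristic 0 with coefficients `n i` in a subfield
`F`, and let `D` be a derivation of `L` over `F`.  Put `l i j = D (x i j) / x i j`.

PROOF. Let `S = (1/2) N ∑_{i ≠ j} n_i n_j / x_ij - (1/4) ∑_{i, j, l distinct} n_i n_j n_l x_ij / (x_il x_jl)`.
(1) For every symmetric family `m i j` one has (relabel the indices in the triple sum)
`(1/2) N ∑_{i ≠ j} n_i n_j m_ij / x_ij + (1/4) ∑ n_i n_j n_l (m_ij - m_il - m_jl) x_ij / (x_il x_jl)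
 = (1/2) ∑_{i ≠ j} (n_i n_j m_ij / x_ij) (N - (1/2) ∑_l n_l (x_il^2 + x_jl^2 - x_ij^2) / (x_il x_jl))
 = (1/2) N ∑_{i ≠ j} n_i n_j m_ij`, by `Sys`.
(2) With `m = 1` the left side is `S`, so `S = (1/2) N ∑_{i ≠ j} n_i n_j` is in `F` and `D S = 0`.
(3) With `m = l` the left side is `- D S = 0`.  So `N ∑_{i ≠ j} n_i n_j l_ij = 0`, and `N ≠ 0`.
-/

namespace Pool.Agent.H98.FL

section

variable {k : ℕ} {L : Type*} [Field L]

/-- 0 on the diagonal, 1 off the diagonal. -/
def ee (i j : Fin k) : L := if i = j then 0 else 1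

theorem ee_symm (i j : Fin k) : (ee i j : L) = ee j i := by
  unfold ee
  by_cases h : i = j
  · simp [h]
  · rw [if_neg h, if_neg (fun h' => h h'.symm)]

/-- the triple sum -/
theorem triple (n : Fin k → L) (x y : Fin k → Fin k → L) (h : Sys n x y)
    (m : Fin k → Fin k → L) (hm : ∀ i j, m i j = m j i) :
    2 * (∑ l, n l) * (∑ i, ∑ j, ee i j * (n i * n j * m i j * y i j))
      + ∑ i, ∑ j, ∑ l, ee i j * ee i l * ee j l * (n i * n j * n l) *
        ((m i j - m i l - m j l) * (x i j * (y i l * y j l)))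
      = 2 * (∑ l, n l) * ∑ i, ∑ j, ee i j * (n i * n j * m i j) := by
  obtain ⟨hx, hxy, hd, hE⟩ := h
  have hy : ∀ i j, y i j = y j i := by
    intro i j
    have h1 := hxy i j
    have h2 := hxy j i
    rw [hx j i] at h2
    have h3 : x i j ≠ 0 := left_ne_zero_of_mul_eq_one h1
    exact mul_left_cancel₀ h3 (h1.trans h2.symm)
  -- relabelling
  have r1 : ∑ i, ∑ j, ∑ l, ee i j * ee i l * ee j l * (n i * n j * n l) *
        (m i l * (x i j * (y i l * y j l)))
      = ∑ i, ∑ j, ∑ l, ee i j * ee i l * ee j l * (n i * n j * n l) *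
        (m i j * (x i l * (y i j * y j l))) := by
    refine Finset.sum_congr rfl fun i _ => ?_
    rw [Finset.sum_comm]
    refine Finset.sum_congr rfl fun j _ => Finset.sum_congr rfl fun l _ => ?_
    rw [hy l j, ee_symm l j]; ring
  have r2 : ∑ i, ∑ j, ∑ l, ee i j * ee i l * ee j l * (n i * n j * n l) *
        (m j l * (x i j * (y i l * y j l)))
      = ∑ i, ∑ j, ∑ l, ee i j * ee i l * ee j l * (n i * n j * n l) *
        (m i j * (x j l * (y i j * y i l))) := by
    have hsw : ∀ f : Fin k → Fin k → Fin k → L,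
        ∑ i, ∑ j, ∑ l, f i j l = ∑ i, ∑ j, ∑ l, f l j i := by
      intro f
      rw [Finset.sum_comm]
      have : ∀ j, ∑ i, ∑ l, f i j l = ∑ i, ∑ l, f l j i := fun j => Finset.sum_comm
      rw [Finset.sum_congr rfl fun j _ => this j, Finset.sum_comm]
    rw [hsw]
    refine Finset.sum_congr rfl fun i _ => Finset.sum_congr rfl fun j _ =>
      Finset.sum_congr rfl fun l _ => ?_
    rw [hx l j, hy l i, hy j i, hm j i, ee_symm l j, ee_symm l i, ee_symm j i]; ring
  -- the equation, multiplied by y i j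
  have r3 : ∀ i j, i ≠ j → ∑ l, ee i l * ee j l * n l *
      (x i j * (y i l * y j l) - x i l * (y i j * y j l) - x j l * (y i j * y i l))
      = - (y i j * (2 * (∑ l, n l) * (1 - x i j))) := by
    intro i j hij
    rw [hE i j hij, Finset.mul_sum, ← Finset.sum_neg_distrib]
    refine Finset.sum_congr rfl fun l _ => ?_
    by_cases hl : l = i ∨ l = j
    · rw [if_pos hl]
      rcases hl with rfl | rfl <;> simp [ee]
    · rw [if_neg hl]
      push Not at hl
      have e1 : (ee i l : L) = 1 := by simp [ee, Ne.symm hl.1]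
      have e2 : (ee j l : L) = 1 := by simp [ee, Ne.symm hl.2]
      rw [e1, e2]
      have h1 := hxy i j
      have h2 := hxy i l
      have h3 := hxy j l
      linear_combination (-(n l * y i l * y j l * x i j)) * h1 + (n l * y i j * y j l * x i l) * h2
        + (n l * y i j * y i l * x j l) * h3
  have r4 : ∑ i, ∑ j, ∑ l, ee i j * ee i l * ee j l * (n i * n j * n l) *
        ((m i j - m i l - m j l) * (x i j * (y i l * y j l)))
      = ∑ i, ∑ j, ee i j * (n i * n j * m i j) * ∑ l, ee i l * ee j l * n l *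
      (x i j * (y i l * y j l) - x i l * (y i j * y j l) - x j l * (y i j * y i l)) := by
    have : ∀ i j l, ee i j * ee i l * ee j l * (n i * n j * n l) *
        ((m i j - m i l - m j l) * (x i j * (y i l * y j l)))
        = ee i j * ee i l * ee j l * (n i * n j * n l) * (m i j * (x i j * (y i l * y j l)))
        - ee i j * ee i l * ee j l * (n i * n j * n l) * (m i l * (x i j * (y i l * y j l)))
        - ee i j * ee i l * ee j l * (n i * n j * n l) * (m j l * (x i j * (y i l * y j l))) := by
      intro i j l; ring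
    simp only [this, Finset.sum_sub_distrib]
    rw [r1, r2]
    simp only [← Finset.sum_sub_distrib]
    refine Finset.sum_congr rfl fun i _ => Finset.sum_congr rfl fun j _ => ?_
    rw [Finset.mul_sum]
    refine Finset.sum_congr rfl fun l _ => ?_
    ring
  rw [r4]
  have r5 : ∀ i j, 2 * (∑ l, n l) * (ee i j * (n i * n j * m i j * y i j))
      + ee i j * (n i * n j * m i j) * ∑ l, ee i l * ee j l * n l *
      (x i j * (y i l * y j l) - x i l * (y i j * y j l) - x j l * (y i j * y i l))
      = 2 * (∑ l, n l) * (ee i j * (n i * n j * m i j)) := by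
    intro i j
    by_cases hij : i = j
    · simp [ee, hij]
    · rw [r3 i j hij]
      have h1 := hxy i j
      linear_combination (2 * (∑ l, n l)) * (ee i j * (n i * n j * m i j)) * h1
  generalize 2 * (∑ l, n l) = N at r5 ⊢
  rw [Finset.mul_sum, Finset.mul_sum, ← Finset.sum_add_distrib]
  refine Finset.sum_congr rfl fun i _ => ?_
  rw [Finset.mul_sum, Finset.mul_sum, ← Finset.sum_add_distrib]
  exact Finset.sum_congr rfl fun j _ => r5 i j

end

theorem vol {k : ℕ} {F L : Type*} [Field F] [Field L] [CharZero L] [Algebra F L]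
    (n : Fin k → F) (hN : (∑ i, n i) ≠ 0) (x y : Fin k → Fin k → L)
    (h : Sys (fun i => algebraMap F L (n i)) x y) (D : Derivation F L L) :
    ∑ i, ∑ j ∈ Finset.Ioi i, algebraMap F L (n i * n j) * (D (x i j) / x i j) = 0 := by
  classical
  have h' := h
  obtain ⟨hx, hxy, hd, hE⟩ := h
  set ν : Fin k → L := fun i => algebraMap F L (n i) with hν
  have hDn : ∀ i, D (ν i) = 0 := fun i => D.map_algebraMap (n i)
  have hy : ∀ i j, y i j = (x i j)⁻¹ := fun i j => eq_inv_of_mul_eq_one_right (hxy i j)
  have hx0 : ∀ i j, x i j ≠ 0 := fun i j => left_ne_zero_of_mul_eq_one (hxy i j)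
  set m : Fin k → Fin k → L := fun i j => D (x i j) / x i j with hm
  have hms : ∀ i j, m i j = m j i := fun i j => by simp only [hm, hx i j]
  have hDx : ∀ i j, D (x i j) = m i j * x i j := fun i j => by
    simp only [hm]; rw [div_mul_cancel₀ _ (hx0 i j)]
  have hDy : ∀ i j, D (y i j) = - (m i j * y i j) := fun i j => by
    have h1 : D (x i j * y i j) = 0 := by rw [hxy]; exact D.map_one_eq_zero
    rw [D.leibniz, smul_eq_mul, smul_eq_mul, hDx] at h1
    have h2 : x i j * (D (y i j) + m i j * y i j) = 0 := by linear_combination h1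
    have h3 := (mul_eq_zero.1 h2).resolve_left (hx0 i j)
    linear_combination h3
  -- D applied to the identity for m = 1
  have hDee : ∀ i j : Fin k, D (ee i j : L) = 0 := by
    intro i j
    unfold ee
    split_ifs
    · exact map_zero D
    · exact D.map_one_eq_zero
  have t1 := triple ν x y h' (fun _ _ => 1) (fun _ _ => rfl)
  have t2 := triple ν x y h' m hms
  have hDN : D (∑ l, ν l) = 0 := by rw [map_sum]; exact Finset.sum_eq_zero fun i _ => hDn i
  have hD2N : D (2 * ∑ l, ν l) = 0 := by
    rw [D.leibniz, hDN]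
    have : D (2 : L) = 0 := by
      have := D.map_natCast 2
      simpa using this
    rw [this]; simp
  have e1 : ∀ i j, D (ee i j * (ν i * ν j * 1 * y i j))
      = - (ee i j * (ν i * ν j * m i j * y i j)) := by
    intro i j
    simp only [D.leibniz, smul_eq_mul, hDee, hDn, hDy, D.map_one_eq_zero]
    ring
  have e2 : ∀ i j l, D (ee i j * ee i l * ee j l * (ν i * ν j * ν l) *
        ((1 - 1 - 1) * (x i j * (y i l * y j l))))
      = - (ee i j * ee i l * ee j l * (ν i * ν j * ν l) *
        ((m i j - m i l - m j l) * (x i j * (y i l * y j l))) * (-1) * (-1)) := by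
    intro i j l
    have h1 : D ((1 : L) - 1 - 1) = 0 := by
      rw [map_sub, map_sub, D.map_one_eq_zero]; simp
    simp only [D.leibniz, smul_eq_mul, hDee, hDn, hDy, hDx, h1]
    ring
  have e3 : ∀ i j, D (ee i j * (ν i * ν j * 1)) = 0 := by
    intro i j
    simp only [D.leibniz, smul_eq_mul, hDee, hDn, D.map_one_eq_zero]
    ring
  have d1 : D (∑ i, ∑ j, ee i j * (ν i * ν j * 1 * y i j))
      = - ∑ i, ∑ j, ee i j * (ν i * ν j * m i j * y i j) := by
    simp only [map_sum, e1, Finset.sum_neg_distrib]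
  have d2 : D (∑ i, ∑ j, ∑ l, ee i j * ee i l * ee j l * (ν i * ν j * ν l) *
        ((1 - 1 - 1) * (x i j * (y i l * y j l))))
      = ∑ i, ∑ j, ∑ l, ee i j * ee i l * ee j l * (ν i * ν j * ν l) *
        ((m i j - m i l - m j l) * (x i j * (y i l * y j l))) * (-1) := by
    simp only [map_sum, e2]
    refine Finset.sum_congr rfl fun i _ => Finset.sum_congr rfl fun j _ =>
      Finset.sum_congr rfl fun l _ => ?_
    ring
  have d3 : D (∑ i, ∑ j, ee i j * (ν i * ν j * 1)) = 0 := by
    simp only [map_sum, e3, Finset.sum_const_zero]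
  have d4 : ∑ i, ∑ j, ∑ l, ee i j * ee i l * ee j l * (ν i * ν j * ν l) *
        ((m i j - m i l - m j l) * (x i j * (y i l * y j l))) * (-1)
      = - ∑ i, ∑ j, ∑ l, ee i j * ee i l * ee j l * (ν i * ν j * ν l) *
        ((m i j - m i l - m j l) * (x i j * (y i l * y j l))) := by
    simp only [mul_neg, mul_one, Finset.sum_neg_distrib]
  have t3 := congrArg D t1
  rw [map_add, D.leibniz (2 * ∑ l, ν l), D.leibniz (2 * ∑ l, ν l), hD2N, d1, d2, d3, d4,
    smul_zero, smul_zero, smul_zero, add_zero, add_zero, smul_eq_mul] at t3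
  have t4 : 2 * (∑ l, ν l) * ∑ i, ∑ j, ee i j * (ν i * ν j * m i j) = 0 := by
    rw [← t2]; linear_combination -t3
  have hN' : (∑ l, ν l) ≠ 0 := by
    simp only [hν, ← map_sum]
    exact fun h0 => hN ((map_eq_zero _).1 h0)
  have t5 : ∑ i, ∑ j, ee i j * (ν i * ν j * m i j) = 0 :=
    (mul_eq_zero.1 t4).resolve_left (mul_ne_zero two_ne_zero hN')
  -- ordered sum = twice the sum over i < j
  have t6 : ∑ i, ∑ j, ee i j * (ν i * ν j * m i j)
      = ∑ i, ∑ j ∈ Finset.Ioi i, (ν i * ν j * m i j)
        + ∑ i, ∑ j ∈ Finset.Iio i, (ν i * ν j * m i j) := by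
    rw [← Finset.sum_add_distrib]
    refine Finset.sum_congr rfl fun i _ => ?_
    have hu : (Finset.univ : Finset (Fin k)) = (Finset.Ioi i ∪ Finset.Iio i) ∪ {i} := by
      ext j
      simp only [Finset.mem_univ, Finset.mem_union, Finset.mem_Ioi, Finset.mem_Iio,
        Finset.mem_singleton, true_iff]
      rcases lt_trichotomy i j with h | h | h
      · exact Or.inl (Or.inl h)
      · exact Or.inr h.symm
      · exact Or.inl (Or.inr h)
    rw [hu, Finset.sum_union, Finset.sum_union]
    · have h0 : ∑ j ∈ ({i} : Finset (Fin k)), ee i j * (ν i * ν j * m i j) = 0 := by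
        simp [ee]
      rw [h0, add_zero]
      congr 1
      · refine Finset.sum_congr rfl fun j hj => ?_
        rw [Finset.mem_Ioi] at hj
        rw [ee, if_neg (ne_of_lt hj), one_mul]
      · refine Finset.sum_congr rfl fun j hj => ?_
        rw [Finset.mem_Iio] at hj
        rw [ee, if_neg (ne_of_gt hj), one_mul]
    · rw [Finset.disjoint_left]
      intro j h1 h2
      exact absurd (Finset.mem_Ioi.1 h1) (not_lt_of_gt (Finset.mem_Iio.1 h2))
    · rw [Finset.disjoint_left]
      intro j h1 h2
      rw [Finset.mem_singleton] at h2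
      subst h2
      simp at h1
  have t7 : ∑ i, ∑ j ∈ Finset.Iio i, (ν i * ν j * m i j)
      = ∑ i, ∑ j ∈ Finset.Ioi i, (ν i * ν j * m i j) := by
    rw [Finset.sum_comm' (t' := Finset.univ) (s' := fun j => Finset.Ioi j)]
    · refine Finset.sum_congr rfl fun i _ => Finset.sum_congr rfl fun j _ => ?_
      rw [hms j i]; ring
    · intro i j; simp
  rw [t6, t7, ← two_mul] at t5
  have t8 := (mul_eq_zero.1 t5).resolve_left two_ne_zero
  rw [← t8]
  refine Finset.sum_congr rfl fun i _ => Finset.sum_congr rfl fun j _ => ?_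
  rw [map_mul]

end Pool.Agent.H98.FL
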