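import Pool.Agent.H98.FL.Defs

/-!
# Module Density: few block sizes have a relation

PROOF. The set in question is the union over the finitely many `w` (only the entries with `i < j`
matter, `|w i j| ≤ B`, some entry with `i < j` not zero) of the zero sets in the box `[1, X]^k` of the
nonzero polynomial `∑_{i < j} w i j n_i n_j` of degree 2.  By the Schwartz-Zippel lemma
(`MvPolynomial.schwartz_zippel_totalDegree`, or directly) each of them has at most
`2 X^(k-1)` elements.
-/

namespace Pool.Agent.H98.FL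

section

open MvPolynomial

/-- the polynomial `∑_{i < j} w i j X_i X_j` -/
noncomputable def relPoly {k : ℕ} (w : Fin k → Fin k → ℤ) : MvPolynomial (Fin k) ℤ :=
  ∑ i, ∑ j ∈ Finset.Ioi i, C (w i j) * (X i * X j)

theorem eval_relPoly {k : ℕ} (w : Fin k → Fin k → ℤ) (n : Fin k → ℤ) :
    eval n (relPoly w) = ∑ i, ∑ j ∈ Finset.Ioi i, w i j * (n i * n j) := by
  simp [relPoly, map_sum]

theorem relPoly_ne_zero {k : ℕ} (w : Fin k → Fin k → ℤ) {i₀ j₀ : Fin k} (h : i₀ < j₀)
    (hw : w i₀ j₀ ≠ 0) : relPoly w ≠ 0 := by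
  intro h0
  apply hw
  have h1 := eval_relPoly w (fun i => if i = i₀ ∨ i = j₀ then 1 else 0)
  rw [h0, map_zero, Finset.sum_eq_single i₀, Finset.sum_eq_single j₀] at h1
  · simpa using h1.symm
  · intro j hj hne
    have hji : j ≠ i₀ := by
      rintro rfl
      simp at hj
    simp [hji, hne]
  · intro hj
    exact absurd (Finset.mem_Ioi.mpr h) hj
  · intro i _ hi
    refine Finset.sum_eq_zero fun j hj => ?_
    rw [Finset.mem_Ioi] at hj
    by_cases hij : i = j₀
    · subst hij
      have h2 : j ≠ i₀ := (h.trans hj).ne'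
      simp [h2, hj.ne']
    · simp [hi, hij]
  · intro hi
    exact absurd (Finset.mem_univ _) hi

theorem totalDegree_relPoly {k : ℕ} (w : Fin k → Fin k → ℤ) :
    (relPoly w).totalDegree ≤ 2 := by
  refine totalDegree_finsetSum_le fun i _ => totalDegree_finsetSum_le fun j _ => ?_
  refine (totalDegree_mul _ _).trans ?_
  rw [totalDegree_C, zero_add]
  refine (totalDegree_mul _ _).trans ?_
  rw [totalDegree_X, totalDegree_X]

theorem card_zero_le {k : ℕ} (w : Fin k → Fin k → ℤ) {i₀ j₀ : Fin k} (h : i₀ < j₀)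
    (hw : w i₀ j₀ ≠ 0) (X : ℕ) :
    ((Fintype.piFinset fun _ : Fin k => Finset.Icc 1 X).filter fun n : Fin k → ℕ =>
      (∑ i, ∑ j ∈ Finset.Ioi i, w i j * ((n i : ℤ) * n j)) = 0).card ≤ 2 * X ^ (k - 1) := by
  have hk : 0 < k := i₀.pos
  rcases Nat.eq_zero_or_pos X with hX | hX
  · subst hX
    rw [Finset.filter_eq_empty_iff.mpr]
    · simp
    · intro n hn
      rw [Fintype.mem_piFinset] at hn
      have := hn i₀
      simp at this
  have hS : (Finset.Icc (1 : ℤ) X).card = X := by simp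
  have h1 := schwartz_zippel_totalDegree (relPoly_ne_zero w h hw) (Finset.Icc (1 : ℤ) X)
  rw [hS] at h1
  have hXq : (0 : ℚ≥0) < X := by exact_mod_cast hX
  rw [div_le_iff₀ (by positivity)] at h1
  have h2 : ((relPoly w).totalDegree : ℚ≥0) / X * X ^ k ≤ 2 * X ^ (k - 1) := by
    have h3 : ((relPoly w).totalDegree : ℚ≥0) ≤ 2 := by exact_mod_cast totalDegree_relPoly w
    obtain ⟨l, rfl⟩ : ∃ l, k = l + 1 := ⟨k - 1, by omega⟩
    rw [pow_succ, Nat.add_sub_cancel, mul_comm ((X : ℚ≥0) ^ l), ← mul_assoc,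
      div_mul_cancel₀ _ hXq.ne']
    gcongr
  have h4 := h1.trans h2
  have h5 : ((Fintype.piFinset fun _ : Fin k => Finset.Icc (1 : ℤ) X).filter fun f =>
      eval f (relPoly w) = 0).card ≤ 2 * X ^ (k - 1) := by exact_mod_cast h4
  refine le_trans ?_ h5
  refine Finset.card_le_card_of_injOn (fun n i => (n i : ℤ)) ?_ ?_
  · intro n hn
    simp only [Finset.coe_filter, Fintype.mem_piFinset, Finset.mem_Icc, Set.mem_ofPred_eq] at hn ⊢
    refine ⟨fun i => ?_, ?_⟩
    · have := hn.1 i
      constructor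
      · exact_mod_cast this.1
      · exact_mod_cast this.2
    · rw [eval_relPoly]
      exact hn.2
  · intro n _ m _ hnm
    funext i
    have h6 : ((n i : ℕ) : ℤ) = ((m i : ℕ) : ℤ) := congrFun hnm i
    exact_mod_cast h6

end

open Classical in
theorem density (k B : ℕ) : ∃ C : ℕ, ∀ X : ℕ,
    ((Fintype.piFinset fun _ : Fin k => Finset.Icc 1 X).filter fun n => ¬ NoRel B n).card
      ≤ C * X ^ (k - 1) := by
  let W : Finset (Fin k → Fin k → ℤ) :=
    (Fintype.piFinset fun _ : Fin k => Fintype.piFinset fun _ : Fin k =>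
      Finset.Icc (-(B : ℤ)) B).filter fun w => ∃ i j, i < j ∧ w i j ≠ 0
  refine ⟨W.card * 2, fun X => ?_⟩
  have hsub : ((Fintype.piFinset fun _ : Fin k => Finset.Icc 1 X).filter fun n => ¬ NoRel B n) ⊆
      W.biUnion fun w => (Fintype.piFinset fun _ : Fin k => Finset.Icc 1 X).filter
        fun n : Fin k → ℕ => (∑ i, ∑ j ∈ Finset.Ioi i, w i j * ((n i : ℤ) * n j)) = 0 := by
    intro n hn
    rw [Finset.mem_filter] at hn
    obtain ⟨hn1, hn2⟩ := hn
    unfold NoRel at hn2
    push Not at hn2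
    obtain ⟨w, hw1, hw2, i, j, hij, hw3⟩ := hn2
    rw [Finset.mem_biUnion]
    refine ⟨w, ?_, ?_⟩
    · rw [Finset.mem_filter, Fintype.mem_piFinset]
      refine ⟨fun a => ?_, i, j, hij, hw3⟩
      rw [Fintype.mem_piFinset]
      intro b
      rw [Finset.mem_Icc]
      exact abs_le.mp (hw1 a b)
    · rw [Finset.mem_filter]
      exact ⟨hn1, hw2⟩
  refine (Finset.card_le_card hsub).trans (Finset.card_biUnion_le.trans ?_)
  have h1 : ∀ w ∈ W, ((Fintype.piFinset fun _ : Fin k => Finset.Icc 1 X).filter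
      fun n : Fin k → ℕ => (∑ i, ∑ j ∈ Finset.Ioi i, w i j * ((n i : ℤ) * n j)) = 0).card
        ≤ 2 * X ^ (k - 1) := by
    intro w hw
    rw [Finset.mem_filter] at hw
    obtain ⟨_, i, j, hij, hw3⟩ := hw
    exact card_zero_le w hij hw3 X
  refine (Finset.sum_le_sum h1).trans ?_
  rw [Finset.sum_const, smul_eq_mul, mul_assoc]

end Pool.Agent.H98.FL
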