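import Pool.Agent.H98.FL.Gx

/-!
# Module Expand: expansion in the standard vectors

PROOF. Compare entries `(a, b)`: both sides vanish if `a`, `b` are in the same block; if the block of
`a` is lower, only the summand `p = (a, b)` contributes and gives
`Re X_ab + i Im X_ab`; otherwise only `p = (b, a)` contributes and gives
`-Re X_ba + i Im X_ba = -conj X_ba = X_ab`, because `X` is skew-Hermitian.
-/

namespace Pool.Agent.H98.FL

private theorem rv_ent {k : ℕ} {n : Fin k → ℕ} (c d : Idx n) (h : c.1 ≠ d.1) (a b : Idx n) :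
    (rv c d h : Mat n) a b = (if c = a ∧ d = b then 1 else 0) - (if d = a ∧ c = b then 1 else 0) := by
  simp only [rv, Matrix.sub_apply, Matrix.single_apply]

private theorem iv_ent {k : ℕ} {n : Fin k → ℕ} (c d : Idx n) (h : c.1 ≠ d.1) (a b : Idx n) :
    (iv c d h : Mat n) a b = (if c = a ∧ d = b then Complex.I else 0)
      + (if d = a ∧ c = b then Complex.I else 0) := by
  simp only [iv, Matrix.add_apply, Matrix.single_apply]

theorem expand {k : ℕ} {n : Fin k → ℕ} (X : mm n) :
    X = ∑ p : Pr n, ((((X : Mat n) p.1.1 p.1.2).re) • rv p.1.1 p.1.2 (ne_of_lt p.2)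
      + (((X : Mat n) p.1.1 p.1.2).im) • iv p.1.1 p.1.2 (ne_of_lt p.2)) := by
  apply Subtype.ext
  ext a b
  rw [Submodule.coe_sum, Matrix.sum_apply]
  simp only [Submodule.coe_add, Submodule.coe_smul, Matrix.add_apply, Matrix.smul_apply, rv_ent,
    iv_ent]
  rcases lt_trichotomy a.1 b.1 with hab | hab | hab
  · have hne : ¬ (b = a ∧ a = b) := fun h => by
      rw [h.1] at hab; exact lt_irrefl _ hab
    rw [Finset.sum_eq_single (⟨(a, b), hab⟩ : Pr n)]
    · simp only [and_self, if_true, if_neg hne, sub_zero, add_zero, Complex.real_smul, mul_one]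
      exact (Complex.re_add_im _).symm
    · intro p _ hp
      have h1 : ¬ (p.1.1 = a ∧ p.1.2 = b) := fun h => hp (Subtype.ext (Prod.ext h.1 h.2))
      have h2 : ¬ (p.1.2 = a ∧ p.1.1 = b) := fun h => by
        have := p.2
        rw [h.1, h.2] at this
        exact lt_asymm this hab
      simp only [if_neg h1, if_neg h2, sub_zero, add_zero, smul_zero]
    · intro h; exact absurd (Finset.mem_univ _) h
  · rw [X.2.2 a b hab, Finset.sum_eq_zero]
    intro p _
    have h1 : ¬ (p.1.1 = a ∧ p.1.2 = b) := fun h => by
      have := p.2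
      rw [h.1, h.2, hab] at this
      exact lt_irrefl _ this
    have h2 : ¬ (p.1.2 = a ∧ p.1.1 = b) := fun h => by
      have := p.2
      rw [h.1, h.2, hab] at this
      exact lt_irrefl _ this
    simp only [if_neg h1, if_neg h2, sub_zero, add_zero, smul_zero]
  · have hne : ¬ (b = a ∧ a = b) := fun h => by
      rw [h.1] at hab; exact lt_irrefl _ hab
    rw [Finset.sum_eq_single (⟨(b, a), hab⟩ : Pr n)]
    · simp only [and_self, if_true, if_neg hne, zero_sub, zero_add, Complex.real_smul]
      have h := congrFun (congrFun X.2.1 a) b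
      rw [Matrix.conjTranspose_apply, Matrix.neg_apply] at h
      have h' : (X : Mat n) a b = - star ((X : Mat n) b a) := by rw [h, neg_neg]
      rw [h']
      apply Complex.ext <;> simp
    · intro p _ hp
      have h1 : ¬ (p.1.1 = a ∧ p.1.2 = b) := fun h => by
        have := p.2
        rw [h.1, h.2] at this
        exact lt_asymm this hab
      have h2 : ¬ (p.1.2 = a ∧ p.1.1 = b) := fun h => hp (Subtype.ext (Prod.ext h.2 h.1))
      simp only [if_neg h1, if_neg h2, sub_zero, add_zero, smul_zero]
    · intro h; exact absurd (Finset.mem_univ _) h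

end Pool.Agent.H98.FL
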