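import Pool.Agent.H98.FL.Gx
import Pool.Agent.H98.FL.Expand

/-!
# Module FbOnb: `fb n x` is an orthonormal basis for `gx n x`

PROOF. Entries: `(rv a b)_ab = 1`, `(rv a b)_ba = -1`, `(iv a b)_ab = (iv a b)_ba = i`, all others zero.
So `gx (rv a b) (rv a b) = 2 N (x_ab + x_ba) = 4 N x_ab = gx (iv a b) (iv a b)`,
`gx (rv a b) (iv a b) = 2 N x (Re (1 * conj i) + Re (-1 * conj i)) = 0`, and for different elements of `Pr n` the
supports are disjoint.  Spanning: `expand` (the scalars `(sqrt (4 N x))⁻¹` are not zero).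
-/

namespace Pool.Agent.H98.FL

open Matrix

section

variable {k : ℕ} {n : Fin k → ℕ}

private theorem sum_single (x : Fin k → Fin k → ℝ) (Y : Mat n) (a b : Idx n) (c : ℂ) :
    ∑ a' : Idx n, ∑ b' : Idx n,
      x a'.1 b'.1 * ((single a b c : Mat n) a' b' * star (Y a' b')).re =
      x a.1 b.1 * (c * star (Y a b)).re := by
  rw [Finset.sum_eq_single a, Finset.sum_eq_single b]
  · rw [single_apply_same]
  · intro b' _ hb
    rw [single_apply_of_ne, zero_mul, Complex.zero_re, mul_zero]
    rintro ⟨-, h⟩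
    exact hb h.symm
  · intro h
    exact absurd (Finset.mem_univ b) h
  · intro a' _ ha
    refine Finset.sum_eq_zero fun b' _ => ?_
    rw [single_apply_of_ne, zero_mul, Complex.zero_re, mul_zero]
    rintro ⟨h, -⟩
    exact ha h.symm
  · intro h
    exact absurd (Finset.mem_univ a) h

private theorem skew (Y : mm n) (a b : Idx n) : (Y : Mat n) b a = -star ((Y : Mat n) a b) := by
  have h := congrFun (congrFun Y.2.1 b) a
  rw [conjTranspose_apply, Matrix.neg_apply] at h
  rw [h, neg_neg]

private theorem gx_rv_left (x : Fin k → Fin k → ℝ) (hx : ∀ i j, x i j = x j i) (a b : Idx n)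
    (h : a.1 ≠ b.1) (Y : mm n) :
    gx n x (rv a b h) Y = 4 * NN n * x a.1 b.1 * ((Y : Mat n) a b).re := by
  rw [gx_apply]
  have h1 : ∀ a' b' : Idx n, x a'.1 b'.1 * (((rv a b h : mm n) : Mat n) a' b' *
      star ((Y : Mat n) a' b')).re =
      x a'.1 b'.1 * ((single a b 1 : Mat n) a' b' * star ((Y : Mat n) a' b')).re -
      x a'.1 b'.1 * ((single b a 1 : Mat n) a' b' * star ((Y : Mat n) a' b')).re := by
    intro a' b'
    have h2 : ((rv a b h : mm n) : Mat n) a' b' =
      (single a b 1 : Mat n) a' b' - (single b a 1 : Mat n) a' b' := rfl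
    rw [h2, sub_mul, Complex.sub_re]
    ring
  simp only [h1, Finset.sum_sub_distrib]
  rw [sum_single, sum_single, skew Y a b, hx b.1 a.1]
  simp only [Complex.star_def, one_mul, star_neg, star_star, Complex.neg_re, Complex.conj_re,
    Complex.conj_conj, map_neg]
  ring

private theorem gx_iv_left (x : Fin k → Fin k → ℝ) (hx : ∀ i j, x i j = x j i) (a b : Idx n)
    (h : a.1 ≠ b.1) (Y : mm n) :
    gx n x (iv a b h) Y = 4 * NN n * x a.1 b.1 * ((Y : Mat n) a b).im := by
  rw [gx_apply]
  have h1 : ∀ a' b' : Idx n, x a'.1 b'.1 * (((iv a b h : mm n) : Mat n) a' b' *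
      star ((Y : Mat n) a' b')).re =
      x a'.1 b'.1 * ((single a b Complex.I : Mat n) a' b' * star ((Y : Mat n) a' b')).re +
      x a'.1 b'.1 * ((single b a Complex.I : Mat n) a' b' * star ((Y : Mat n) a' b')).re := by
    intro a' b'
    have h2 : ((iv a b h : mm n) : Mat n) a' b' =
      (single a b Complex.I : Mat n) a' b' + (single b a Complex.I : Mat n) a' b' := rfl
    rw [h2, add_mul, Complex.add_re]
    ring
  simp only [h1, Finset.sum_add_distrib]
  rw [sum_single, sum_single, skew Y a b, hx b.1 a.1]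
  simp only [Complex.star_def, map_neg, Complex.conj_conj, Complex.mul_re, Complex.I_re,
    Complex.I_im, zero_mul, one_mul, Complex.conj_im, Complex.neg_im, zero_sub, neg_neg]
  ring

private theorem rv_entry (p q : Pr n) :
    ((rv q.1.1 q.1.2 (ne_of_lt q.2) : mm n) : Mat n) p.1.1 p.1.2 = if p = q then 1 else 0 := by
  have h2 : ((rv q.1.1 q.1.2 (ne_of_lt q.2) : mm n) : Mat n) p.1.1 p.1.2 =
      (single q.1.1 q.1.2 1 : Mat n) p.1.1 p.1.2 - (single q.1.2 q.1.1 1 : Mat n) p.1.1 p.1.2 := rfl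
  have h3 : (single q.1.2 q.1.1 (1 : ℂ) : Mat n) p.1.1 p.1.2 = 0 := by
    rw [single_apply_of_ne]
    rintro ⟨h4, h5⟩
    have h6 := p.2
    rw [← h4, ← h5] at h6
    exact absurd q.2 (lt_asymm h6)
  rw [h2, h3, sub_zero]
  by_cases hpq : p = q
  · subst hpq
    rw [if_pos rfl, single_apply_same]
  · rw [if_neg hpq, single_apply_of_ne]
    rintro ⟨h4, h5⟩
    exact hpq (Subtype.ext (Prod.ext h4.symm h5.symm))

private theorem iv_entry (p q : Pr n) :
    ((iv q.1.1 q.1.2 (ne_of_lt q.2) : mm n) : Mat n) p.1.1 p.1.2 =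
      if p = q then Complex.I else 0 := by
  have h2 : ((iv q.1.1 q.1.2 (ne_of_lt q.2) : mm n) : Mat n) p.1.1 p.1.2 =
      (single q.1.1 q.1.2 Complex.I : Mat n) p.1.1 p.1.2 +
      (single q.1.2 q.1.1 Complex.I : Mat n) p.1.1 p.1.2 := rfl
  have h3 : (single q.1.2 q.1.1 Complex.I : Mat n) p.1.1 p.1.2 = 0 := by
    rw [single_apply_of_ne]
    rintro ⟨h4, h5⟩
    have h6 := p.2
    rw [← h4, ← h5] at h6
    exact absurd q.2 (lt_asymm h6)
  rw [h2, h3, add_zero]
  by_cases hpq : p = q
  · subst hpq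
    rw [if_pos rfl, single_apply_same]
  · rw [if_neg hpq, single_apply_of_ne]
    rintro ⟨h4, h5⟩
    exact hpq (Subtype.ext (Prod.ext h4.symm h5.symm))

/-- the vectors before normalisation -/
private theorem gx_vv (x : Fin k → Fin k → ℝ) (hx : ∀ i j, x i j = x j i) (p q : Pr n)
    (s t : Bool) :
    gx n x (if s then rv p.1.1 p.1.2 (ne_of_lt p.2) else iv p.1.1 p.1.2 (ne_of_lt p.2))
      (if t then rv q.1.1 q.1.2 (ne_of_lt q.2) else iv q.1.1 q.1.2 (ne_of_lt q.2)) =
      if (p, s) = (q, t) then 4 * NN n * x p.1.1.1 p.1.2.1 else 0 := by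
  by_cases hpq : p = q
  · subst hpq
    rcases s with _ | _ <;> rcases t with _ | _
    · simp only [Bool.false_eq_true, if_false, if_true]
      rw [gx_iv_left x hx, iv_entry, if_pos rfl, Complex.I_im, mul_one]
    · simp only [Bool.false_eq_true, if_false, if_true]
      rw [gx_iv_left x hx, rv_entry, if_pos rfl, Complex.one_im, mul_zero]
      simp
    · simp only [Bool.false_eq_true, if_false, if_true]
      rw [gx_rv_left x hx, iv_entry, if_pos rfl, Complex.I_re, mul_zero]
      simp
    · simp only [if_true]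
      rw [gx_rv_left x hx, rv_entry, if_pos rfl, Complex.one_re, mul_one]
  · have hne : (p, s) ≠ (q, t) := fun h => hpq (congrArg Prod.fst h)
    rw [if_neg hne]
    rcases s with _ | _ <;> rcases t with _ | _
    · simp only [Bool.false_eq_true, if_false]
      rw [gx_iv_left x hx, iv_entry, if_neg hpq, Complex.zero_im, mul_zero]
    · simp only [Bool.false_eq_true, if_false, if_true]
      rw [gx_iv_left x hx, rv_entry, if_neg hpq, Complex.zero_im, mul_zero]
    · simp only [Bool.false_eq_true, if_false, if_true]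
      rw [gx_rv_left x hx, iv_entry, if_neg hpq, Complex.zero_re, mul_zero]
    · simp only [if_true]
      rw [gx_rv_left x hx, rv_entry, if_neg hpq, Complex.zero_re, mul_zero]

end

variable {k : ℕ} (n : Fin k → ℕ) (hN : 0 < NN n) (x : Fin k → Fin k → ℝ)
  (hx : ∀ i j, x i j = x j i) (hp : ∀ i j, 0 < x i j)

include hN hx hp

theorem fb_orth (p q : Pr n × Bool) :
    gx n x (fb n x p) (fb n x q) = if p = q then 1 else 0 := by
  obtain ⟨p, s⟩ := p
  obtain ⟨q, t⟩ := q
  have hpos : 0 < 4 * NN n * x p.1.1.1 p.1.2.1 := by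
    have := hp p.1.1.1 p.1.2.1
    positivity
  unfold fb
  rw [map_smul, map_smul, LinearMap.smul_apply]
  have h1 := gx_vv x hx p q s t
  simp only at h1 ⊢
  rw [h1]
  by_cases hpq : (p, s) = (q, t)
  · rw [if_pos hpq, if_pos hpq]
    have h2 : p = q := congrArg Prod.fst hpq
    subst h2
    rw [smul_eq_mul, smul_eq_mul]
    have h3 := Real.mul_self_sqrt hpos.le
    have h4 : Real.sqrt (4 * NN n * x p.1.1.1 p.1.2.1) ≠ 0 := (Real.sqrt_pos.2 hpos).ne'
    field_simp
    rw [sq, h3]
  · rw [if_neg hpq, if_neg hpq, smul_zero, smul_zero]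

omit hx in
theorem fb_span : Submodule.span ℝ (Set.range (fb n x)) = ⊤ := by
  have hs : ∀ p : Pr n, Real.sqrt (4 * NN n * x p.1.1.1 p.1.2.1) ≠ 0 := by
    intro p
    have h1 := hp p.1.1.1 p.1.2.1
    have hpos : 0 < 4 * NN n * x p.1.1.1 p.1.2.1 := by positivity
    exact (Real.sqrt_pos.2 hpos).ne'
  have h1 : ∀ p : Pr n, rv p.1.1 p.1.2 (ne_of_lt p.2) ∈
      Submodule.span ℝ (Set.range (fb n x)) := by
    intro p
    have h2 : rv p.1.1 p.1.2 (ne_of_lt p.2) =
        Real.sqrt (4 * NN n * x p.1.1.1 p.1.2.1) • fb n x (p, true) := by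
      unfold fb
      simp only [if_true]
      rw [smul_smul, mul_inv_cancel₀ (hs p), one_smul]
    rw [h2]
    exact Submodule.smul_mem _ _ (Submodule.subset_span ⟨_, rfl⟩)
  have h2 : ∀ p : Pr n, iv p.1.1 p.1.2 (ne_of_lt p.2) ∈
      Submodule.span ℝ (Set.range (fb n x)) := by
    intro p
    have h2 : iv p.1.1 p.1.2 (ne_of_lt p.2) =
        Real.sqrt (4 * NN n * x p.1.1.1 p.1.2.1) • fb n x (p, false) := by
      unfold fb
      simp only [Bool.false_eq_true, if_false]
      rw [smul_smul, mul_inv_cancel₀ (hs p), one_smul]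
    rw [h2]
    exact Submodule.smul_mem _ _ (Submodule.subset_span ⟨_, rfl⟩)
  rw [eq_top_iff]
  intro X _
  rw [expand X]
  refine Submodule.sum_mem _ fun p _ => Submodule.add_mem _ ?_ ?_
  · exact Submodule.smul_mem _ _ (h1 p)
  · exact Submodule.smul_mem _ _ (h2 p)

theorem gx_rv (a b : Idx n) (h : a.1 ≠ b.1) :
    gx n x (rv a b h) (rv a b h) = 4 * NN n * x a.1 b.1 := by
  rw [gx_rv_left x hx]
  have h2 : ((rv a b h : mm n) : Mat n) a b =
      (single a b 1 : Mat n) a b - (single b a 1 : Mat n) a b := rfl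
  rw [h2, single_apply_same, single_apply_of_ne, sub_zero, Complex.one_re, mul_one]
  rintro ⟨h3, -⟩
  exact h (congrArg Sigma.fst h3).symm

omit hN hx hp in
theorem killing_rv (a b : Idx n) (h : a.1 ≠ b.1) :
    killing (rv a b h) (rv a b h) = - 4 * NN n := by
  have hab : a ≠ b := fun h3 => h (congrArg Sigma.fst h3)
  unfold killing
  have h1 : ((rv a b h : mm n) : Mat n) * ((rv a b h : mm n) : Mat n) =
      -(single a a 1 : Mat n) - (single b b 1 : Mat n) := by
    change ((single a b 1 : Mat n) - single b a 1) * (single a b 1 - single b a 1) = _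
    rw [sub_mul, mul_sub, mul_sub, single_mul_single_of_ne _ _ _ _ hab.symm,
      single_mul_single_of_ne _ _ _ _ hab, single_mul_single_same, single_mul_single_same, mul_one]
    abel
  rw [h1, trace_sub, trace_neg, trace_single_eq_same, trace_single_eq_same]
  unfold NN
  simp
  ring

end Pool.Agent.H98.FL
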