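import Mathlib

/-!
# Module PosC: the Einstein constant is positive

PROOF. Choose `i ≠ j` with `x i j` maximal among all pairs of different indices.  For `l` different from `i`, `j`
put `p = x i l ≤ M`, `q = x j l ≤ M`, `M = x i j`: `p^2 + q^2 - M^2 ≤ min(p, q)^2 ≤ p q`, so every summand is at
most `n l`, the right side is at most `∑ n l - n i - n j < 2 ∑ n l`, and therefore
`1 - 2 c M < 1`, `c > 0`.
-/

namespace Pool.Agent.H98.FL

theorem pos_c {k : ℕ} (n : Fin k → ℕ) (hn : ∀ i, 0 < n i) (x : Fin k → Fin k → ℝ)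
    (hx : ∀ i j, x i j = x j i) (hp : ∀ i j, 0 < x i j) (c : ℝ)
    (h : ∀ i j, i ≠ j → 2 * (∑ l, (n l : ℝ)) * (1 - 2 * c * x i j) =
      ∑ l, if l = i ∨ l = j then 0 else
        (n l : ℝ) * (x i l ^ 2 + x j l ^ 2 - x i j ^ 2) / (x i l * x j l))
    (i₀ j₀ : Fin k) (h₀ : i₀ ≠ j₀) : 0 < c := by
  classical
  obtain ⟨⟨i, j⟩, hij, hmax⟩ := Finset.exists_max_image
    (Finset.univ.filter fun p : Fin k × Fin k => p.1 ≠ p.2) (fun p => x p.1 p.2)
    ⟨(i₀, j₀), Finset.mem_filter.2 ⟨Finset.mem_univ _, h₀⟩⟩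
  have hne : i ≠ j := (Finset.mem_filter.1 hij).2
  have hM : ∀ a b, a ≠ b → x a b ≤ x i j := fun a b hab =>
    hmax (a, b) (Finset.mem_filter.2 ⟨Finset.mem_univ _, hab⟩)
  have hN : ∑ l, (if l = i ∨ l = j then 0 else
        (n l : ℝ) * (x i l ^ 2 + x j l ^ 2 - x i j ^ 2) / (x i l * x j l)) ≤ ∑ l, (n l : ℝ) := by
    apply Finset.sum_le_sum
    intro l _
    by_cases hl : l = i ∨ l = j
    · rw [if_pos hl]
      positivity
    · rw [if_neg hl]
      push Not at hl
      have p1 : x i l ≤ x i j := hM i l (Ne.symm hl.1)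
      have q1 : x j l ≤ x i j := hM j l (Ne.symm hl.2)
      have p0 := hp i l
      have q0 := hp j l
      have m0 := hp i j
      have h1 : x i l ^ 2 + x j l ^ 2 - x i j ^ 2 ≤ x i l * x j l := by
        rcases le_total (x i l) (x j l) with h2 | h2
        · have h3 : x j l ^ 2 ≤ x i j ^ 2 := by nlinarith
          nlinarith
        · have h3 : x i l ^ 2 ≤ x i j ^ 2 := by nlinarith
          nlinarith
      rw [div_le_iff₀ (mul_pos p0 q0)]
      exact mul_le_mul_of_nonneg_left h1 (Nat.cast_nonneg _)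
  have hNpos : 0 < ∑ l, (n l : ℝ) := by
    apply Finset.sum_pos
    · intro l _
      exact_mod_cast hn l
    · exact ⟨i, Finset.mem_univ _⟩
  have h1 := h i j hne
  rw [← h1] at hN
  have m0 := hp i j
  by_contra hc
  push Not at hc
  have h2 : c * x i j ≤ 0 := mul_nonpos_of_nonpos_of_nonneg hc m0.le
  have h3 : 1 ≤ 1 - 2 * c * x i j := by linarith
  have h4 : 2 * (∑ l, (n l : ℝ)) * 1 ≤ 2 * (∑ l, (n l : ℝ)) * (1 - 2 * c * x i j) :=
    mul_le_mul_of_nonneg_left h3 (by linarith)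
  linarith

end Pool.Agent.H98.FL
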