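import Pool.Agent.H98.FL.Defs

/-!
# Module RicIndep: the Ricci curvature does not depend on the orthonormal basis

PROOF. `brk` is bilinear over the reals (prove this first).  (a) If `e`, `f` are finite orthonormal spanning
families for the symmetric form `g` and `β` is a bilinear form, then
`∑ β (e i) (e i) = ∑ β (f j) (f j)`: every vector is `v = ∑_j g v (f j) • f j` (true on the `f j`, which
span), so `∑_i β (e i) (e i) = ∑_{j, l} (∑_i g (e i) (f j) g (e i) (f l)) β (f j) (f l)` and
`∑_i g (e i) (f j) g (e i) (f l) = g (f j) (f l)` by the same expansion in the basis `e`.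
(b) Apply (a) to `β (u, v) = g (brk X u) (brk X v)`, and twice to the last sum of `ric`
(first in `e j` for fixed `e i`, then in `e i` for fixed `f j`).
-/

namespace Pool.Agent.H98.FL

private lemma RicIndep_expand {V : Type*} [AddCommGroup V] [Module ℝ V]
    (g : LinearMap.BilinForm ℝ V) {J : Type*} [Fintype J] [DecidableEq J] (f : J → V)
    (hf : ∀ p q, g (f p) (f q) = if p = q then 1 else 0)
    (hs : Submodule.span ℝ (Set.range f) = ⊤) (v : V) : ∑ j, g v (f j) • f j = v := by
  let A : V →ₗ[ℝ] V := ∑ j, (LinearMap.flip g (f j)).smulRight (f j)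
  have hA : A = LinearMap.id := by
    refine LinearMap.ext_on_range hs fun p => ?_
    simp only [A, LinearMap.sum_apply, LinearMap.smulRight_apply, LinearMap.flip_apply, hf,
      LinearMap.id_apply]
    simp
  have h1 := congrArg (fun B : V →ₗ[ℝ] V => B v) hA
  simpa only [A, LinearMap.sum_apply, LinearMap.smulRight_apply, LinearMap.flip_apply,
    LinearMap.id_apply] using h1

private lemma RicIndep_trace {V : Type*} [AddCommGroup V] [Module ℝ V]
    (g : LinearMap.BilinForm ℝ V) (hg : ∀ X Y, g X Y = g Y X)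
    {I : Type*} [Fintype I] [DecidableEq I] (e : I → V)
    (he : ∀ p q, g (e p) (e q) = if p = q then 1 else 0)
    (hes : Submodule.span ℝ (Set.range e) = ⊤)
    {J : Type*} [Fintype J] [DecidableEq J] (f : J → V)
    (hf : ∀ p q, g (f p) (f q) = if p = q then 1 else 0)
    (hs : Submodule.span ℝ (Set.range f) = ⊤) (β : V →ₗ[ℝ] V →ₗ[ℝ] ℝ) :
    ∑ i, β (e i) (e i) = ∑ j, β (f j) (f j) := by
  have h1 : ∀ i, β (e i) (e i) = ∑ j, ∑ l, g (e i) (f j) * g (e i) (f l) * β (f j) (f l) := by
    intro i
    conv_lhs => rw [← RicIndep_expand g f hf hs (e i)]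
    simp only [map_sum, LinearMap.sum_apply, map_smul, LinearMap.smul_apply, smul_eq_mul,
      Finset.mul_sum]
    rw [Finset.sum_comm]
    refine Finset.sum_congr rfl fun j _ => Finset.sum_congr rfl fun l _ => ?_
    ring
  have h2 : ∀ j l, ∑ i, g (e i) (f j) * g (e i) (f l) = g (f j) (f l) := by
    intro j l
    have h3 := congrArg (fun u => g u (f l)) (RicIndep_expand g e he hes (f j))
    simp only [map_sum, LinearMap.sum_apply, map_smul, LinearMap.smul_apply, smul_eq_mul] at h3
    rw [← h3]
    exact Finset.sum_congr rfl fun i _ => by rw [hg (e i) (f j)]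
  rw [Finset.sum_congr rfl fun i _ => h1 i, Finset.sum_comm]
  refine Finset.sum_congr rfl fun j _ => ?_
  rw [Finset.sum_comm]
  have h4 : ∀ l, ∑ i, g (e i) (f j) * g (e i) (f l) * β (f j) (f l) =
      (if j = l then 1 else 0) * β (f j) (f l) := by
    intro l
    rw [← Finset.sum_mul, h2, hf]
  rw [Finset.sum_congr rfl fun l _ => h4 l]
  simp

private lemma RicIndep_brk {k : ℕ} {n : Fin k → ℕ} (X Y : mm n) (a b : Idx n) :
    ((brk X Y : mm n) : Mat n) a b = if a.1 = b.1 then 0 else
      ((X : Mat n) * (Y : Mat n) - (Y : Mat n) * (X : Mat n)) a b := rfl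

private noncomputable def RicIndepB {k : ℕ} {n : Fin k → ℕ} : mm n →ₗ[ℝ] mm n →ₗ[ℝ] mm n :=
  LinearMap.mk₂ ℝ brk
    (fun X X' Y => by
      apply Subtype.ext
      ext a b
      simp only [Submodule.coe_add, Matrix.add_apply, RicIndep_brk]
      split_ifs
      · simp
      · simp only [Matrix.add_mul, Matrix.mul_add, Matrix.sub_apply, Matrix.add_apply]
        ring)
    (fun c X Y => by
      apply Subtype.ext
      ext a b
      simp only [Submodule.coe_smul, Matrix.smul_apply, RicIndep_brk]
      split_ifs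
      · simp
      · simp only [Matrix.smul_mul, Matrix.mul_smul, Matrix.sub_apply, Matrix.smul_apply,
          smul_sub])
    (fun X Y Y' => by
      apply Subtype.ext
      ext a b
      simp only [Submodule.coe_add, Matrix.add_apply, RicIndep_brk]
      split_ifs
      · simp
      · simp only [Matrix.add_mul, Matrix.mul_add, Matrix.sub_apply, Matrix.add_apply]
        ring)
    (fun c X Y => by
      apply Subtype.ext
      ext a b
      simp only [Submodule.coe_smul, Matrix.smul_apply, RicIndep_brk]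
      split_ifs
      · simp
      · simp only [Matrix.smul_mul, Matrix.mul_smul, Matrix.sub_apply, Matrix.smul_apply,
          smul_sub])

private lemma RicIndepB_apply {k : ℕ} {n : Fin k → ℕ} (X Y : mm n) :
    RicIndepB X Y = brk X Y := rfl

theorem ric_indep {k : ℕ} {n : Fin k → ℕ} {g : LinearMap.BilinForm ℝ (mm n)}
    (hg : ∀ X Y, g X Y = g Y X) {m : ℕ} {e : Fin m → mm n} (he : IsONB g e)
    {J : Type*} [Fintype J] [DecidableEq J] (f : J → mm n)
    (hf : ∀ p q, g (f p) (f q) = if p = q then 1 else 0)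
    (hs : Submodule.span ℝ (Set.range f) = ⊤) (X : mm n) :
    ric g e X = -(1 / 2) * ∑ j, g (brk X (f j)) (brk X (f j)) - (1 / 2) * killing X X
      + (1 / 4) * ∑ i, ∑ j, (g (brk (f i) (f j)) X) ^ 2 := by
  have key := fun β => RicIndep_trace g hg e he.1 he.2 f hf hs β
  have h1 : ∑ j, g (brk X (e j)) (brk X (e j)) = ∑ j, g (brk X (f j)) (brk X (f j)) := by
    have h := key (g.compl₁₂ (RicIndepB X) (RicIndepB X))
    simpa only [LinearMap.compl₁₂_apply, RicIndepB_apply] using h
  have hsq : ∀ φ : mm n →ₗ[ℝ] ℝ, ∑ i, φ (e i) ^ 2 = ∑ j, φ (f j) ^ 2 := by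
    intro φ
    have h := key ((LinearMap.mul ℝ ℝ).compl₁₂ φ φ)
    simpa only [LinearMap.compl₁₂_apply, LinearMap.mul_apply', ← pow_two] using h
  have h2 : ∑ i, ∑ j, (g (brk (e i) (e j)) X) ^ 2 = ∑ i, ∑ j, (g (brk (f i) (f j)) X) ^ 2 := by
    have h3 : ∀ i, ∑ j, (g (brk (e i) (e j)) X) ^ 2 = ∑ j, (g (brk (e i) (f j)) X) ^ 2 := by
      intro i
      have h := hsq ((LinearMap.flip g X).comp (RicIndepB (e i)))
      simpa only [LinearMap.comp_apply, LinearMap.flip_apply, RicIndepB_apply] using h
    have h4 : ∀ j, ∑ i, (g (brk (e i) (f j)) X) ^ 2 = ∑ i, (g (brk (f i) (f j)) X) ^ 2 := by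
      intro j
      have h := hsq ((LinearMap.flip g X).comp (RicIndepB.flip (f j)))
      simpa only [LinearMap.comp_apply, LinearMap.flip_apply, RicIndepB_apply] using h
    rw [Finset.sum_congr rfl fun i _ => h3 i, Finset.sum_comm,
      Finset.sum_congr rfl fun j _ => h4 j, Finset.sum_comm]
  rw [ric, h1, h2]

end Pool.Agent.H98.FL
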