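import Pool.Agent.H98.FL.SumFb

/-!
# Module TTa: the first sum of the Ricci curvature

PROOF. `X = rv a b`, `i = a.1`, `j = b.1`.  For `Z` in `mm n` we have `gx Z Z = 2 N ∑_{p, q} x_pq |Z_pq|^2`.
Apply `sum_fb` for every `(p, q)` to the complex linear functional
`Z ↦ (off (X Z - Z X))_pq` (zero if `p`, `q` are in the same block).  Since
`[X, E_cd]_pq = X_pc δ_dq - δ_pc X_dq` and the diagonal of `X` is zero, at most one of the two
terms is not zero, so `|[X, E_cd]_pq|^2 = |X_pc|^2 δ_dq + δ_pc |X_dq|^2`.  Hence the left side is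
`∑ over c, d in different blocks of (1/x_cd) (∑_{p not in the block of d} x_pd |X_pc|^2
   + ∑_{q not in the block of c} x_cq |X_dq|^2)`, and `|X_pc|^2 = 1` exactly if `(p, c)` is `(a, b)` or
`(b, a)`.  The first half gives `∑_{d: block l not i, j} (x_il / x_jl + x_jl / x_il)` and the second
half the same; a block `l` contains `n l` indices `d`.
-/

namespace Pool.Agent.H98.FL

open Matrix

theorem sum_blkA {k : ℕ} (n : Fin k → ℕ) (f : Fin k → ℝ) :
    ∑ c : Idx n, f c.1 = ∑ l, (n l : ℝ) * f l := by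
  rw [Fintype.sum_sigma]
  refine Finset.sum_congr rfl fun l _ => ?_
  simp

/-- the functional of the module: an entry of the projected commutator -/
noncomputable def cmA {k : ℕ} (n : Fin k → ℕ) (X : Mat n) (p r : Idx n) : Mat n →ₗ[ℂ] ℂ where
  toFun Z := off n (X * Z - Z * X) p r
  map_add' Z W := by
    by_cases h : p.1 = r.1
    · simp [off, h]
    · simp only [off, Matrix.of_apply, if_neg h, mul_add, add_mul, Matrix.sub_apply,
        Matrix.add_apply]
      ring
  map_smul' c Z := by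
    by_cases h : p.1 = r.1
    · simp [off, h]
    · simp only [off, Matrix.of_apply, if_neg h, Matrix.mul_smul, Matrix.smul_mul,
        Matrix.sub_apply, Matrix.smul_apply, smul_eq_mul, RingHom.id_apply]
      ring

theorem cmA_apply {k : ℕ} (n : Fin k → ℕ) (X : Mat n) (p r : Idx n) (Z : Mat n) :
    cmA n X p r Z = off n (X * Z - Z * X) p r := rfl

theorem gx_self {k : ℕ} (n : Fin k → ℕ) (x : Fin k → Fin k → ℝ) (Z : mm n) :
    gx n x Z Z = 2 * NN n * ∑ p : Idx n, ∑ r : Idx n, x p.1 r.1 * ‖(Z : Mat n) p r‖ ^ 2 := by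
  rw [gx_apply]
  congr 1
  refine Finset.sum_congr rfl fun p _ => Finset.sum_congr rfl fun r _ => ?_
  rw [Complex.star_def, Complex.mul_conj, Complex.ofReal_re, Complex.sq_norm]

theorem rv_sq {k : ℕ} (n : Fin k → ℕ) (a b : Idx n) (h : a.1 ≠ b.1) (p c : Idx n) :
    ‖(rv a b h : Mat n) p c‖ ^ 2 = (if p = a ∧ c = b then (1 : ℝ) else 0) +
      (if p = b ∧ c = a then 1 else 0) := by
  have hab : a ≠ b := fun e => h (by rw [e])
  have e : (rv a b h : Mat n) p c = (if p = a ∧ c = b then (1 : ℂ) else 0) -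
      (if p = b ∧ c = a then 1 else 0) := by
    simp only [rv, Matrix.sub_apply, Matrix.single_apply, eq_comm]
  rw [e]
  by_cases g1 : p = a ∧ c = b
  · have g2 : ¬ (p = b ∧ c = a) := fun u => hab (g1.1.symm.trans u.1)
    rw [if_pos g1, if_neg g2, if_pos g1, if_neg g2]; simp
  · by_cases g2 : p = b ∧ c = a
    · rw [if_neg g1, if_pos g2, if_neg g1, if_pos g2]; simp
    · rw [if_neg g1, if_neg g2, if_neg g1, if_neg g2]; simp

theorem cmA_single {k : ℕ} (n : Fin k → ℕ) (X : Mat n) (hX : ∀ a b : Idx n, a.1 = b.1 → X a b = 0)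
    (p r : Idx n) (hpr : p.1 ≠ r.1) (c d : Idx n) :
    ‖cmA n X p r (single c d 1)‖ ^ 2 = (if d = r then ‖X p c‖ ^ 2 else 0) +
      (if p = c then ‖X d r‖ ^ 2 else 0) := by
  have e : cmA n X p r (single c d 1) = (if d = r then X p c else 0) -
      (if p = c then X d r else 0) := by
    rw [cmA_apply]
    simp only [off, Matrix.of_apply, if_neg hpr, Matrix.sub_apply]
    congr 1
    · by_cases g : d = r
      · subst g; simp
      · simp [g, Ne.symm g]
    · by_cases g : p = c
      · subst g; simp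
      · simp [g]
  rw [e]
  by_cases g1 : d = r
  · by_cases g2 : p = c
    · subst g1 g2
      simp [hX _ _ rfl]
    · simp [g1, g2]
  · by_cases g2 : p = c
    · simp [g1, g2]
    · simp [g1, g2]

theorem tta {k : ℕ} (n : Fin k → ℕ) (hN : 0 < NN n) (x : Fin k → Fin k → ℝ)
    (hx : ∀ i j, x i j = x j i) (hp : ∀ i j, 0 < x i j) (a b : Idx n) (h : a.1 ≠ b.1) :
    ∑ q : Pr n × Bool, gx n x (brk (rv a b h) (fb n x q)) (brk (rv a b h) (fb n x q)) =
      2 * ∑ l, if l = a.1 ∨ l = b.1 then 0 else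
        (n l : ℝ) * (x a.1 l / x b.1 l + x b.1 l / x a.1 l) := by
  have hN' : NN n ≠ 0 := hN.ne'
  set X : Mat n := (rv a b h : Mat n) with hX
  have s1 : ∀ q : Pr n × Bool, gx n x (brk (rv a b h) (fb n x q)) (brk (rv a b h) (fb n x q)) =
      ∑ p : Idx n, ∑ r : Idx n, 2 * NN n * (x p.1 r.1 * ‖cmA n X p r (fb n x q : Mat n)‖ ^ 2) := by
    intro q
    rw [gx_self, Finset.mul_sum]
    refine Finset.sum_congr rfl fun p _ => ?_
    rw [Finset.mul_sum]
    rfl
  simp only [s1]
  rw [Finset.sum_comm]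
  have s2 : ∑ p : Idx n, ∑ q : Pr n × Bool, ∑ r : Idx n,
      2 * NN n * (x p.1 r.1 * ‖cmA n X p r (fb n x q : Mat n)‖ ^ 2) =
      ∑ p : Idx n, ∑ r : Idx n, ∑ c : Idx n, ∑ d : Idx n, 2 * NN n * (x p.1 r.1 *
        (if c.1 = d.1 then 0 else ‖cmA n X p r (single c d 1)‖ ^ 2
          / (2 * NN n * x c.1 d.1))) := by
    refine Finset.sum_congr rfl fun p _ => ?_
    rw [Finset.sum_comm]
    refine Finset.sum_congr rfl fun r _ => ?_
    simp only [← Finset.mul_sum]
    rw [sum_fb n hN x hx hp]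
  rw [s2]
  have hab : a ≠ b := fun e => h (by rw [e])
  have hXX := (rv a b h).2.2
  rw [← hX] at hXX
  set f : Idx n → ℝ := fun e => if e.1 = a.1 ∨ e.1 = b.1 then 0 else x a.1 e.1 / x b.1 e.1 with hf
  set g : Idx n → ℝ := fun e => if e.1 = a.1 ∨ e.1 = b.1 then 0 else x b.1 e.1 / x a.1 e.1 with hg
  have fa : ∀ e : Idx n, e.1 = a.1 ∨ e.1 = b.1 → f e = 0 := fun e he => by rw [hf]; simp [he]
  have ga : ∀ e : Idx n, e.1 = a.1 ∨ e.1 = b.1 → g e = 0 := fun e he => by rw [hg]; simp [he]
  have fn : ∀ e : Idx n, e.1 ≠ a.1 → e.1 ≠ b.1 → f e = x a.1 e.1 / x b.1 e.1 :=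
    fun e he he' => by rw [hf]; simp [he, he']
  have gn : ∀ e : Idx n, e.1 ≠ a.1 → e.1 ≠ b.1 → g e = x b.1 e.1 / x a.1 e.1 :=
    fun e he he' => by rw [hg]; simp [he, he']
  have s4 : ∀ p r c d : Idx n, 2 * NN n * (x p.1 r.1 *
        (if c.1 = d.1 then 0 else ‖cmA n X p r (single c d 1)‖ ^ 2
          / (2 * NN n * x c.1 d.1))) =
      (if d = r then (if c = b then (if p = a then f r else 0) else 0) else 0) +
      (if d = r then (if c = a then (if p = b then g r else 0) else 0) else 0) +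
      (if d = a then (if c = p then (if r = b then g p else 0) else 0) else 0) +
      (if d = b then (if c = p then (if r = a then f p else 0) else 0) else 0) := by
    intro p r c d
    simp only [← ite_and]
    by_cases e1 : p.1 = r.1
    · have e3 : cmA n X p r (single c d 1) = 0 := by
        rw [cmA_apply]; simp [off, e1]
      have t1 : ∀ (P : Prop) [Decidable P] (w : ℝ), (P → w = 0) → (if P then w else 0) = 0 := by
        intro P _ w hP
        split_ifs with u
        · exact hP u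
        · rfl
      rw [t1 _ (f r) (fun u => fa _ (Or.inl (by rw [← e1, u.2.2]))),
        t1 _ (g r) (fun u => ga _ (Or.inr (by rw [← e1, u.2.2]))),
        t1 _ (g p) (fun u => ga _ (Or.inr (by rw [e1, u.2.2]))),
        t1 _ (f p) (fun u => fa _ (Or.inl (by rw [e1, u.2.2]))), e3]
      simp
    · by_cases e2 : c.1 = d.1
      · have t1 : ∀ (P : Prop) [Decidable P] (w : ℝ), (P → w = 0) → (if P then w else 0) = 0 := by
          intro P _ w hP
          split_ifs with u
          · exact hP u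
          · rfl
        rw [t1 _ (f r) (fun u => fa _ (Or.inr (by rw [← u.1, ← e2, u.2.1]))),
          t1 _ (g r) (fun u => ga _ (Or.inl (by rw [← u.1, ← e2, u.2.1]))),
          t1 _ (g p) (fun u => ga _ (Or.inl (by rw [← u.2.1, e2, u.1]))),
          t1 _ (f p) (fun u => fa _ (Or.inr (by rw [← u.2.1, e2, u.1])))]
        simp [e2]
      · rw [if_neg e2, cmA_single n X hXX p r e1, hX, rv_sq, rv_sq]
        have key : ∀ (A B C D v w A' B' C' D' : ℝ), v * (w * (A / (v * (x c.1 d.1)))) = A' →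
            v * (w * (B / (v * (x c.1 d.1)))) = B' →
            v * (w * (C / (v * (x c.1 d.1)))) = C' → v * (w * (D / (v * (x c.1 d.1)))) = D' →
            v * (w * ((A + B + (C + D)) / (v * (x c.1 d.1)))) = A' + B' + C' + D' := by
          intro A B C D v w A' B' C' D' h1 h2 h3 h4
          rw [← h1, ← h2, ← h3, ← h4]; ring
        have r1 : (if d = r then ((if p = a ∧ c = b then (1 : ℝ) else 0) +
          (if p = b ∧ c = a then 1 else 0)) else 0) =
          (if d = r ∧ p = a ∧ c = b then (1 : ℝ) else 0) +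
          (if d = r ∧ p = b ∧ c = a then 1 else 0) := by
          by_cases e : d = r
          · simp [e]
          · simp [e]
        have r2 : (if p = c then ((if d = a ∧ r = b then (1 : ℝ) else 0) +
          (if d = b ∧ r = a then 1 else 0)) else 0) =
          (if p = c ∧ d = a ∧ r = b then (1 : ℝ) else 0) +
          (if p = c ∧ d = b ∧ r = a then 1 else 0) := by
          by_cases e : p = c
          · simp [e]
          · simp [e]
        rw [r1, r2]
        have hcd := (hp c.1 d.1).ne'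
        refine key _ _ _ _ _ _ _ _ _ _ ?_ ?_ ?_ ?_
        · by_cases u : d = r ∧ p = a ∧ c = b
          · obtain ⟨rfl, rfl, rfl⟩ := u
            rw [if_pos ⟨rfl, rfl, rfl⟩, if_pos ⟨rfl, rfl, rfl⟩, fn _ (Ne.symm e1) (Ne.symm e2)]
            field_simp
          · rw [if_neg u, if_neg (fun w => u ⟨w.1, w.2.2, w.2.1⟩)]; simp
        · by_cases u : d = r ∧ p = b ∧ c = a
          · obtain ⟨rfl, rfl, rfl⟩ := u
            rw [if_pos ⟨rfl, rfl, rfl⟩, if_pos ⟨rfl, rfl, rfl⟩, gn _ (Ne.symm e2) (Ne.symm e1)]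
            field_simp
          · rw [if_neg u, if_neg (fun w => u ⟨w.1, w.2.2, w.2.1⟩)]; simp
        · by_cases u : p = c ∧ d = a ∧ r = b
          · obtain ⟨rfl, rfl, rfl⟩ := u
            rw [if_pos ⟨rfl, rfl, rfl⟩, if_pos ⟨rfl, rfl, rfl⟩, gn _ e2 e1, hx r.1 p.1, hx d.1 p.1]
            have hcd' := (hp p.1 d.1).ne'
            field_simp
          · rw [if_neg u, if_neg (fun w => u ⟨w.2.1.symm, w.1, w.2.2⟩)]; simp
        · by_cases u : p = c ∧ d = b ∧ r = a
          · obtain ⟨rfl, rfl, rfl⟩ := u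
            rw [if_pos ⟨rfl, rfl, rfl⟩, if_pos ⟨rfl, rfl, rfl⟩, fn _ e1 e2, hx r.1 p.1, hx d.1 p.1]
            have hcd' := (hp p.1 d.1).ne'
            field_simp
          · rw [if_neg u, if_neg (fun w => u ⟨w.2.1.symm, w.1, w.2.2⟩)]; simp
  simp only [s4, Finset.sum_add_distrib, Finset.sum_ite_eq', Finset.mem_univ,
    if_true, Finset.sum_ite_irrel, Finset.sum_const_zero]
  have s5 : ∑ e : Idx n, f e = ∑ l, (n l : ℝ) * (if l = a.1 ∨ l = b.1 then 0 else
    x a.1 l / x b.1 l) := sum_blkA n (fun l => if l = a.1 ∨ l = b.1 then 0 else x a.1 l / x b.1 l)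
  have s6 : ∑ e : Idx n, g e = ∑ l, (n l : ℝ) * (if l = a.1 ∨ l = b.1 then 0 else
    x b.1 l / x a.1 l) := sum_blkA n (fun l => if l = a.1 ∨ l = b.1 then 0 else x b.1 l / x a.1 l)
  rw [s5, s6]
  have s7 : ∀ y z : ℝ, y + z + z + y = 2 * (y + z) := fun y z => by ring
  rw [s7, ← Finset.sum_add_distrib]
  congr 1
  refine Finset.sum_congr rfl fun l _ => ?_
  by_cases e : l = a.1 ∨ l = b.1
  · simp [e]
  · simp only [if_neg e]
    ring

end Pool.Agent.H98.FL
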