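import Pool.Agent.H98.FL.SumFb

/-!
# Module TTb: the second sum of the Ricci curvature

PROOF. `X = rv a b`, `i = a.1`, `j = b.1`.  For `Z` in `mm n` the number
`h(Z) = 2 N ∑_{p, q} x_pq Z_pq conj(X_pq)` is real (the terms `(p, q)` and `(q, p)` are conjugate) and equal
to `gx Z X`; `h` extends to a complex linear functional on all matrices.  So
`(gx (brk f f') X)^2 = |h (off (f f' - f' f))|^2`.  Apply `sum_fb` to the functional
`f' ↦ h (off (f f' - f' f))` for fixed `f`, then to
`f ↦ h (off (f E_c'd' - E_c'd' f))` for fixed `c'`, `d'`.  So the left side is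
`∑ |h (off [E_cd, E_c'd'])|^2 / ((2 N)^2 x_cd x_c'd')`, the sum over `c, d` in different
blocks and `c', d'` in different blocks.  Here `[E_cd, E_c'd'] = δ_dc' E_cd' - δ_d'c E_c'd`, and
`h (off E_pq) = 2 N x_pq conj X_pq` (also if `p`, `q` are in the same block, both are zero).
If both deltas are one then `d' = c` and `c' = d` and both terms vanish (the diagonal of `X` is zero).  So
`|h|^2 = (2 N)^2 (δ_dc' x_cd'^2 |X_cd'|^2 + δ_d'c x_c'd^2 |X_c'd|^2)` and both parts give the same sum
`∑ over c, d, d' of x_cd'^2 |X_cd'|^2 / (x_cd x_dd')` with `(c, d')` equal to `(a, b)` or `(b, a)`: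
`2 ∑_{d: block l not i, j} x_ij^2 / (x_il x_jl)` each.
-/

namespace Pool.Agent.H98.FL

open Matrix

/-- the functional of the module: the difference of the two entries of the commutator -/
noncomputable def cmL {k : ℕ} (n : Fin k → ℕ) (a b : Idx n) (F : Mat n) : Mat n →ₗ[ℂ] ℂ where
  toFun Z := (F * Z - Z * F) a b - (F * Z - Z * F) b a
  map_add' Z W := by
    simp only [mul_add, add_mul, Matrix.sub_apply, Matrix.add_apply]; ring
  map_smul' c Z := by
    simp only [Matrix.mul_smul, Matrix.smul_mul, Matrix.sub_apply, Matrix.smul_apply,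
      smul_eq_mul, RingHom.id_apply]; ring

theorem cmL_apply {k : ℕ} (n : Fin k → ℕ) (a b : Idx n) (F Z : Mat n) :
    cmL n a b F Z = (F * Z - Z * F) a b - (F * Z - Z * F) b a := rfl

theorem cmL_comm {k : ℕ} (n : Fin k → ℕ) (a b : Idx n) (F Z : Mat n) :
    cmL n a b F Z = - cmL n a b Z F := by
  simp only [cmL_apply, Matrix.sub_apply]; ring

theorem sum_blk {k : ℕ} (n : Fin k → ℕ) (f : Fin k → ℝ) :
    ∑ c : Idx n, f c.1 = ∑ l, (n l : ℝ) * f l := by
  rw [Fintype.sum_sigma]
  refine Finset.sum_congr rfl fun l _ => ?_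
  simp

theorem gx_rv_right {k : ℕ} (n : Fin k → ℕ) (x : Fin k → Fin k → ℝ)
    (hx : ∀ i j, x i j = x j i) (a b : Idx n) (h : a.1 ≠ b.1) (Z : mm n) :
    gx n x Z (rv a b h) = 2 * NN n * x a.1 b.1 * ((Z : Mat n) a b - (Z : Mat n) b a).re := by
  rw [gx_apply]
  have h1 : ∀ p q : Idx n, x p.1 q.1 * ((Z : Mat n) p q * star ((rv a b h : Mat n) p q)).re =
      (if p = a then (if q = b then x a.1 b.1 * ((Z : Mat n) a b).re else 0) else 0) -
      (if p = b then (if q = a then x a.1 b.1 * ((Z : Mat n) b a).re else 0) else 0) := by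
    intro p q
    have hab : a ≠ b := fun e => h (by rw [e])
    by_cases hp : p = a
    · subst hp
      by_cases hq : q = b
      · subst hq
        simp [rv, hab, hab.symm]
      · by_cases hq' : q = p
        · subst hq'
          simp [rv, hab, hab.symm]
        · have : b ≠ q := fun e => hq e.symm
          simp [rv, hab, hab.symm, hq, this]
    · by_cases hp' : p = b
      · subst hp'
        by_cases hq : q = a
        · subst hq
          simp [rv, hab, hab.symm, hx p.1 q.1]
        · have : a ≠ q := fun e => hq e.symm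
          simp [rv, hab, hab.symm, hq, this]
      · have e1 : a ≠ p := fun e => hp e.symm
        have e2 : b ≠ p := fun e => hp' e.symm
        simp [rv, hp, hp', e1, e2]
  simp only [h1, Finset.sum_sub_distrib, Finset.sum_ite_eq', Finset.mem_univ, if_true,
    Finset.sum_ite_irrel, Finset.sum_const_zero, Complex.sub_re]
  ring

theorem gx_sq {k : ℕ} (n : Fin k → ℕ) (x : Fin k → Fin k → ℝ)
    (hx : ∀ i j, x i j = x j i) (a b : Idx n) (h : a.1 ≠ b.1) (F G : mm n) :
    (gx n x (brk F G) (rv a b h)) ^ 2 =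
      (2 * NN n * x a.1 b.1) ^ 2 * ‖cmL n a b (F : Mat n) (G : Mat n)‖ ^ 2 := by
  rw [gx_rv_right n x hx, mul_pow]
  congr 1
  have e1 : ((brk F G : mm n) : Mat n) a b - ((brk F G : mm n) : Mat n) b a =
      cmL n a b (F : Mat n) (G : Mat n) := by
    rw [cmL_apply]
    simp [brk, off, h, Ne.symm h]
  have e2 : (((brk F G : mm n) : Mat n) a b - ((brk F G : mm n) : Mat n) b a).im = 0 := by
    have hs := (brk F G).2.1
    have h2 := congrFun (congrFun hs a) b
    rw [conjTranspose_apply, Matrix.neg_apply] at h2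
    have h3 := congrArg Complex.im h2
    simp only [Complex.star_def, Complex.conj_im, Complex.neg_im] at h3
    rw [Complex.sub_im]
    linarith
  rw [← e1, Complex.sq_norm, Complex.normSq_apply, e2]
  ring

theorem cm_single {k : ℕ} (n : Fin k → ℕ) (a b : Idx n) (h : a.1 ≠ b.1) (c d c' d' : Idx n)
    (hcd : c.1 ≠ d.1) (hcd' : c'.1 ≠ d'.1) :
    ‖cmL n a b (single c d 1) (single c' d' 1)‖ ^ 2 =
      (if d = c' then ((if c = a then (if d' = b then (1 : ℝ) else 0) else 0) +
          (if c = b then (if d' = a then 1 else 0) else 0)) else 0) +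
      (if d' = c then ((if c' = a then (if d = b then (1 : ℝ) else 0) else 0) +
          (if c' = b then (if d = a then 1 else 0) else 0)) else 0) := by
  have hab : a ≠ b := fun e => h (by rw [e])
  have hcd1 : c ≠ d := fun e => hcd (by rw [e])
  have hcd2 : c' ≠ d' := fun e => hcd' (by rw [e])
  rw [cmL_apply]
  have m1 : single c d (1 : ℂ) * single c' d' 1 = if d = c' then single c d' 1 else 0 := by
    split_ifs with e
    · subst e; simp
    · rw [Matrix.single_mul_single_of_ne _ _ _ _ e]
  have m2 : single c' d' (1 : ℂ) * single c d 1 = if d' = c then single c' d 1 else 0 := by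
    split_ifs with e
    · subst e; simp
    · rw [Matrix.single_mul_single_of_ne _ _ _ _ e]
  rw [m1, m2]
  by_cases e1 : d = c'
  · subst e1
    by_cases e2 : d' = c
    · subst e2
      simp only [if_true, Matrix.sub_apply, Matrix.single_apply]
      have g1 : ¬ (d' = a ∧ d' = b) := fun ⟨u, v⟩ => hab (u.symm.trans v)
      have g2 : ¬ (d = a ∧ d = b) := fun ⟨u, v⟩ => hab (u.symm.trans v)
      have g3 : ¬ (d' = b ∧ d' = a) := fun ⟨u, v⟩ => hab (v.symm.trans u)
      have g4 : ¬ (d = b ∧ d = a) := fun ⟨u, v⟩ => hab (v.symm.trans u)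
      rw [if_neg g1, if_neg g2, if_neg g3, if_neg g4]
      simp only [← ite_and]
      rw [if_neg g1, if_neg g2, if_neg g3, if_neg g4]
      simp
    · simp only [if_true, if_neg e2, Matrix.sub_apply, Matrix.single_apply, Matrix.zero_apply]
      simp only [← ite_and]
      by_cases g1 : c = a ∧ d' = b
      · have g2 : ¬ (c = b ∧ d' = a) := fun ⟨u, v⟩ => hab (g1.1.symm.trans u)
        rw [if_pos g1, if_neg g2, if_pos g1, if_neg g2]; simp
      · by_cases g2 : c = b ∧ d' = a
        · rw [if_neg g1, if_pos g2, if_neg g1, if_pos g2]; simp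
        · rw [if_neg g1, if_neg g2, if_neg g1, if_neg g2]; simp
  · by_cases e2 : d' = c
    · subst e2
      simp only [if_true, if_neg e1, Matrix.sub_apply, Matrix.single_apply, Matrix.zero_apply]
      simp only [← ite_and]
      by_cases g1 : c' = a ∧ d = b
      · have g2 : ¬ (c' = b ∧ d = a) := fun ⟨u, v⟩ => hab (g1.1.symm.trans u)
        rw [if_pos g1, if_neg g2, if_pos g1, if_neg g2]; simp
      · by_cases g2 : c' = b ∧ d = a
        · rw [if_neg g1, if_pos g2, if_neg g1, if_pos g2]; simp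
        · rw [if_neg g1, if_neg g2, if_neg g1, if_neg g2]; simp
    · simp [if_neg e1, if_neg e2]

theorem ttb {k : ℕ} (n : Fin k → ℕ) (hN : 0 < NN n) (x : Fin k → Fin k → ℝ)
    (hx : ∀ i j, x i j = x j i) (hp : ∀ i j, 0 < x i j) (a b : Idx n) (h : a.1 ≠ b.1) :
    ∑ p : Pr n × Bool, ∑ q : Pr n × Bool,
        (gx n x (brk (fb n x p) (fb n x q)) (rv a b h)) ^ 2 =
      4 * ∑ l, if l = a.1 ∨ l = b.1 then 0 else
        (n l : ℝ) * (x a.1 b.1 ^ 2 / (x a.1 l * x b.1 l)) := by
  have hN' : NN n ≠ 0 := hN.ne'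
  have s1 : ∀ p : Pr n × Bool, ∑ q : Pr n × Bool,
      (gx n x (brk (fb n x p) (fb n x q)) (rv a b h)) ^ 2 =
      (2 * NN n * x a.1 b.1) ^ 2 * ∑ c' : Idx n, ∑ d' : Idx n, if c'.1 = d'.1 then 0 else
        ‖cmL n a b (single c' d' 1) (fb n x p : Mat n)‖ ^ 2 / (2 * NN n * x c'.1 d'.1) := by
    intro p
    simp only [gx_sq n x hx, ← Finset.mul_sum]
    rw [sum_fb n hN x hx hp (cmL n a b (fb n x p : Mat n))]
    congr 1
    refine Finset.sum_congr rfl fun c' _ => Finset.sum_congr rfl fun d' _ => ?_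
    rw [cmL_comm, norm_neg]
  have s2 : ∀ c' d' : Idx n, ∑ p : Pr n × Bool,
      ‖cmL n a b (single c' d' 1) (fb n x p : Mat n)‖ ^ 2 = ∑ c : Idx n, ∑ d : Idx n,
        if c.1 = d.1 then 0 else ‖cmL n a b (single c' d' 1) (single c d 1)‖ ^ 2
          / (2 * NN n * x c.1 d.1) := fun c' d' => sum_fb n hN x hx hp _
  simp only [s1, ← Finset.mul_sum]
  rw [Finset.sum_comm]
  have s3 : ∑ c' : Idx n, ∑ p : Pr n × Bool, ∑ d' : Idx n, (if c'.1 = d'.1 then 0 else
        ‖cmL n a b (single c' d' 1) (fb n x p : Mat n)‖ ^ 2 / (2 * NN n * x c'.1 d'.1)) =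
      ∑ c' : Idx n, ∑ d' : Idx n, ∑ c : Idx n, ∑ d : Idx n,
        (if c'.1 = d'.1 then 0 else if c.1 = d.1 then 0 else
          ‖cmL n a b (single c' d' 1) (single c d 1)‖ ^ 2
          / (2 * NN n * x c.1 d.1) / (2 * NN n * x c'.1 d'.1)) := by
    refine Finset.sum_congr rfl fun c' _ => ?_
    rw [Finset.sum_comm]
    refine Finset.sum_congr rfl fun d' _ => ?_
    by_cases e : c'.1 = d'.1
    · simp [e]
    · simp only [if_neg e, ← Finset.sum_div]
      rw [s2]
      simp only [Finset.sum_div]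
      refine Finset.sum_congr rfl fun c _ => Finset.sum_congr rfl fun d _ => ?_
      by_cases e' : c.1 = d.1
      · simp [e']
      · simp [e']
  rw [s3]
  -- now insert the values
  have hab : a ≠ b := fun e => h (by rw [e])
  set g : Idx n → ℝ := fun e => if e.1 = a.1 ∨ e.1 = b.1 then 0 else
    ((2 * NN n) ^ 2 * (x a.1 e.1 * x b.1 e.1))⁻¹ with hg
  have ga : ∀ e : Idx n, e.1 = a.1 → g e = 0 := fun e he => by rw [hg]; simp [he]
  have gb : ∀ e : Idx n, e.1 = b.1 → g e = 0 := fun e he => by rw [hg]; simp [he]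
  have gn : ∀ e : Idx n, e.1 ≠ a.1 → e.1 ≠ b.1 → g e =
    ((2 * NN n) ^ 2 * (x a.1 e.1 * x b.1 e.1))⁻¹ := fun e he he' => by rw [hg]; simp [he, he']
  have s4 : ∀ c' d' c d : Idx n, (if c'.1 = d'.1 then 0 else if c.1 = d.1 then 0 else
          ‖cmL n a b (single c' d' 1) (single c d 1)‖ ^ 2
          / (2 * NN n * x c.1 d.1) / (2 * NN n * x c'.1 d'.1)) =
      (if c = d' then (if c' = a then (if d = b then g d' else 0) else 0) else 0) +
      (if c = d' then (if c' = b then (if d = a then g d' else 0) else 0) else 0) +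
      (if c = a then (if d = c' then (if d' = b then g c' else 0) else 0) else 0) +
      (if c = b then (if d = c' then (if d' = a then g c' else 0) else 0) else 0) := by
    intro c' d' c d
    simp only [← ite_and]
    by_cases e1 : c'.1 = d'.1
    · rw [if_pos e1]
      have t1 : ∀ (P : Prop) [Decidable P] , (P → c' = a ∨ c' = b) → (if P then g d' else 0) = 0 := by
        intro P _ hP
        split_ifs with u
        · rcases hP u with w | w
          · exact ga _ (by rw [← e1, w])
          · exact gb _ (by rw [← e1, w])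
        · rfl
      have t2 : ∀ (P : Prop) [Decidable P] , (P → d' = a ∨ d' = b) → (if P then g c' else 0) = 0 := by
        intro P _ hP
        split_ifs with u
        · rcases hP u with w | w
          · exact ga _ (by rw [e1, w])
          · exact gb _ (by rw [e1, w])
        · rfl
      rw [t1 _ (fun u => Or.inl u.2.1), t1 _ (fun u => Or.inr u.2.1),
        t2 _ (fun u => Or.inr u.2.2), t2 _ (fun u => Or.inl u.2.2)]
      simp
    · rw [if_neg e1]
      by_cases e2 : c.1 = d.1
      · rw [if_pos e2]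
        have t1 : ∀ (P : Prop) [Decidable P] , (P → c = d' ∧ (d = a ∨ d = b)) →
            (if P then g d' else 0) = 0 := by
          intro P _ hP
          split_ifs with u
          · obtain ⟨hc, w | w⟩ := hP u
            · exact ga _ (by rw [← hc, e2, w])
            · exact gb _ (by rw [← hc, e2, w])
          · rfl
        have t2 : ∀ (P : Prop) [Decidable P] , (P → d = c' ∧ (c = a ∨ c = b)) →
            (if P then g c' else 0) = 0 := by
          intro P _ hP
          split_ifs with u
          · obtain ⟨hc, w | w⟩ := hP u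
            · exact ga _ (by rw [← hc, ← e2, w])
            · exact gb _ (by rw [← hc, ← e2, w])
          · rfl
        rw [t1 _ (fun u => ⟨u.1, Or.inr u.2.2⟩), t1 _ (fun u => ⟨u.1, Or.inl u.2.2⟩),
          t2 _ (fun u => ⟨u.2.1, Or.inl u.1⟩), t2 _ (fun u => ⟨u.2.1, Or.inr u.1⟩)]
        simp
      · rw [if_neg e2, cm_single n a b h c' d' c d e1 e2]
        simp only [← ite_and, ← ite_and]
        have key : ∀ (A B C D v w A' B' C' D' : ℝ), A / v / w = A' → B / v / w = B' →
            C / v / w = C' → D / v / w = D' → (A + B + (C + D)) / v / w = A' + B' + C' + D' := by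
          intro A B C D v w A' B' C' D' h1 h2 h3 h4
          rw [← h1, ← h2, ← h3, ← h4]; ring
        have r1 : (if d' = c then ((if c' = a ∧ d = b then (1 : ℝ) else 0) +
          (if c' = b ∧ d = a then 1 else 0)) else 0) =
          (if d' = c ∧ c' = a ∧ d = b then (1 : ℝ) else 0) +
          (if d' = c ∧ c' = b ∧ d = a then 1 else 0) := by
          by_cases e : d' = c
          · simp [e]
          · simp [e]
        have r2 : (if d = c' then ((if c = a ∧ d' = b then (1 : ℝ) else 0) +
          (if c = b ∧ d' = a then 1 else 0)) else 0) =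
          (if d = c' ∧ c = a ∧ d' = b then (1 : ℝ) else 0) +
          (if d = c' ∧ c = b ∧ d' = a then 1 else 0) := by
          by_cases e : d = c'
          · simp [e]
          · simp [e]
        rw [r1, r2]
        refine key _ _ _ _ _ _ _ _ _ _ ?_ ?_ ?_ ?_
        · by_cases u : d' = c ∧ c' = a ∧ d = b
          · obtain ⟨rfl, rfl, rfl⟩ := u
            rw [if_pos ⟨rfl, rfl, rfl⟩, if_pos ⟨rfl, rfl, rfl⟩, gn _ (Ne.symm e1) e2,
              hx d.1 d'.1]
            field_simp
          · rw [if_neg u, if_neg (fun w => u ⟨w.1.symm, w.2.1, w.2.2⟩)]; simp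
        · by_cases u : d' = c ∧ c' = b ∧ d = a
          · obtain ⟨rfl, rfl, rfl⟩ := u
            rw [if_pos ⟨rfl, rfl, rfl⟩, if_pos ⟨rfl, rfl, rfl⟩, gn _ e2 (Ne.symm e1),
              hx d.1 d'.1]
            field_simp
          · rw [if_neg u, if_neg (fun w => u ⟨w.1.symm, w.2.1, w.2.2⟩)]; simp
        · by_cases u : d = c' ∧ c = a ∧ d' = b
          · obtain ⟨rfl, rfl, rfl⟩ := u
            rw [if_pos ⟨rfl, rfl, rfl⟩, if_pos ⟨rfl, rfl, rfl⟩, gn _ (Ne.symm e2) e1,
              hx d'.1 d.1]
            field_simp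
          · rw [if_neg u, if_neg (fun w => u ⟨w.2.1, w.1, w.2.2⟩)]; simp
        · by_cases u : d = c' ∧ c = b ∧ d' = a
          · obtain ⟨rfl, rfl, rfl⟩ := u
            rw [if_pos ⟨rfl, rfl, rfl⟩, if_pos ⟨rfl, rfl, rfl⟩, gn _ e1 (Ne.symm e2),
              hx d'.1 d.1]
            field_simp
          · rw [if_neg u, if_neg (fun w => u ⟨w.2.1, w.1, w.2.2⟩)]; simp
  simp only [s4, Finset.sum_add_distrib, Finset.sum_ite_eq', Finset.mem_univ,
    if_true, Finset.sum_ite_irrel, Finset.sum_const_zero]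
  have s5 : ∑ e : Idx n, g e = ∑ l, (n l : ℝ) * (if l = a.1 ∨ l = b.1 then 0 else
    ((2 * NN n) ^ 2 * (x a.1 l * x b.1 l))⁻¹) := sum_blk n (fun l => if l = a.1 ∨ l = b.1 then 0 else
    ((2 * NN n) ^ 2 * (x a.1 l * x b.1 l))⁻¹)
  rw [s5, Finset.mul_sum]
  have s6 : ∀ y : ℝ, (2 * NN n * x a.1 b.1) ^ 2 * (y + y + y + y) =
    4 * ((2 * NN n * x a.1 b.1) ^ 2 * y) := fun y => by ring
  rw [s6, Finset.mul_sum, Finset.mul_sum]
  refine Finset.sum_congr rfl fun l _ => ?_
  by_cases e : l = a.1 ∨ l = b.1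
  · simp [e]
  · have p1 := (hp a.1 l).ne'
    have p2 := (hp b.1 l).ne'
    simp only [if_neg e]
    field_simp

end Pool.Agent.H98.FL
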