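import Pool.Agent.H98.FL.SchurB
import Pool.Agent.H98.FL.RicIndep
import Pool.Agent.H98.FL.FbOnb
import Pool.Agent.H98.FL.TTa
import Pool.Agent.H98.FL.TTb
import Pool.Agent.H98.FL.PosC

/-!
# Module GeoMain: invariant Einstein metrics and the algebraic system

Assembly of the geometry modules (helper98): `g = gx n x` by `schur`, the Einstein equation on
`X = rv a b`, then rescaling to the Einstein constant 1/2.
-/

namespace Pool.Agent.H98.FL

/-- The Einstein equation for `gx n x` on the vector `rv a b`. -/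
theorem einstein_eq {k : ℕ} (n : Fin k → ℕ) (hN : 0 < NN n) (x : Fin k → Fin k → ℝ)
    (hx : ∀ i j, x i j = x j i) (hp : ∀ i j, 0 < x i j) (hs : ∀ X Y, gx n x X Y = gx n x Y X)
    {m : ℕ} {e : Fin m → mm n} (he : IsONB (gx n x) e) (c : ℝ)
    (hc : ∀ X, ric (gx n x) e X = c * gx n x X X) (a b : Idx n) (h : a.1 ≠ b.1) :
    2 * (∑ l, (n l : ℝ)) * (1 - 2 * c * x a.1 b.1) =
      ∑ l, if l = a.1 ∨ l = b.1 then 0 else
        (n l : ℝ) * (x a.1 l ^ 2 + x b.1 l ^ 2 - x a.1 b.1 ^ 2) / (x a.1 l * x b.1 l) := by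
  classical
  have h1 := hc (rv a b h)
  rw [ric_indep hs he (fb n x) (fb_orth n hN x hx hp) (fb_span n hN x hp) (rv a b h),
    tta n hN x hx hp a b h, ttb n hN x hx hp a b h, killing_rv n a b h,
    gx_rv n hN x hx hp a b h] at h1
  have h2 : ∀ l, (if l = a.1 ∨ l = b.1 then (0 : ℝ) else
        (n l : ℝ) * (x a.1 l ^ 2 + x b.1 l ^ 2 - x a.1 b.1 ^ 2) / (x a.1 l * x b.1 l))
      = (if l = a.1 ∨ l = b.1 then 0 else
        (n l : ℝ) * (x a.1 l / x b.1 l + x b.1 l / x a.1 l))
        - (if l = a.1 ∨ l = b.1 then 0 else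
        (n l : ℝ) * (x a.1 b.1 ^ 2 / (x a.1 l * x b.1 l))) := by
    intro l
    split_ifs
    · simp
    · have := hp a.1 l
      have := hp b.1 l
      field_simp
  simp only [h2, Finset.sum_sub_distrib]
  have h3 : (∑ l, (n l : ℝ)) = NN n := rfl
  rw [h3]
  linarith

theorem geo {k : ℕ} (n : Fin k → ℕ) (hn : ∀ i, 0 < n i) (g : LinearMap.BilinForm ℝ (mm n))
    (hg : IsEinstein n g) :
    ∃ x y : Fin k → Fin k → ℝ, Sys (fun i => (n i : ℝ)) x y ∧ ∃ s : ℝ, 0 < s ∧ g = s • gx n x := by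
  classical
  obtain ⟨hinv, c, m, e, he, hc⟩ := hg
  obtain ⟨x, hx, hd, hp, rfl⟩ := schur n hn g hinv
  by_cases hk : ∃ i₀ j₀ : Fin k, i₀ ≠ j₀
  · obtain ⟨i₀, j₀, h₀⟩ := hk
    have hN : 0 < NN n := by
      refine Finset.sum_pos (fun i _ => Nat.cast_pos.2 (hn i)) ⟨i₀, Finset.mem_univ _⟩
    have hE : ∀ i j, i ≠ j → 2 * (∑ l, (n l : ℝ)) * (1 - 2 * c * x i j) =
        ∑ l, if l = i ∨ l = j then 0 else
        (n l : ℝ) * (x i l ^ 2 + x j l ^ 2 - x i j ^ 2) / (x i l * x j l) := by
      intro i j hij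
      exact einstein_eq n hN x hx hp hinv.symm he c hc ⟨i, ⟨0, hn i⟩⟩ ⟨j, ⟨0, hn j⟩⟩ hij
    have hc0 : 0 < c := pos_c n hn x hx hp c hE i₀ j₀ h₀
    -- rescale
    let x' : Fin k → Fin k → ℝ := fun i j => if i = j then 1 else 2 * c * x i j
    have hx'0 : ∀ i j, x' i j ≠ 0 := by
      intro i j
      by_cases h : i = j
      · simp [x', h]
      · simp only [x', if_neg h]
        have := hp i j
        positivity
    refine ⟨x', fun i j => (x' i j)⁻¹, ⟨fun i j => ?_, fun i j => mul_inv_cancel₀ (hx'0 i j),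
      fun i => by simp [x'], fun i j hij => ?_⟩, 1 / (2 * c), by positivity, ?_⟩
    · by_cases h : i = j
      · simp [x', h]
      · simp only [x', if_neg h, if_neg (fun h' : j = i => h h'.symm), hx i j]
    · have h1 := hE i j hij
      have e1 : x' i j = 2 * c * x i j := by simp only [x', if_neg hij]
      rw [e1, h1]
      refine Finset.sum_congr rfl fun l _ => ?_
      by_cases hl : l = i ∨ l = j
      · rw [if_pos hl, if_pos hl]
      · rw [if_neg hl, if_neg hl]
        push Not at hl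
        have e2 : x' i l = 2 * c * x i l := by simp only [x', if_neg (Ne.symm hl.1)]
        have e3 : x' j l = 2 * c * x j l := by simp only [x', if_neg (Ne.symm hl.2)]
        change _ = (n l : ℝ) * (x' i l ^ 2 + x' j l ^ 2 - (2 * c * x i j) ^ 2) *
          ((x' i l)⁻¹ * (x' j l)⁻¹)
        rw [e2, e3]
        have := hp i l
        have := hp j l
        field_simp
    · refine LinearMap.ext fun X => LinearMap.ext fun Y => ?_
      rw [LinearMap.smul_apply, LinearMap.smul_apply, gx_apply, gx_apply, smul_eq_mul]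
      have : ∀ a b : Idx n, x' a.1 b.1 * ((X : Mat n) a b * star ((Y : Mat n) a b)).re
          = (2 * c) * (x a.1 b.1 * ((X : Mat n) a b * star ((Y : Mat n) a b)).re) := by
        intro a b
        by_cases h : a.1 = b.1
        · rw [X.2.2 a b h]; simp
        · simp only [x', if_neg h]; ring
      simp only [this, ← Finset.mul_sum]
      field_simp
  · -- at most one block
    push Not at hk
    refine ⟨fun _ _ => 1, fun _ _ => 1, ⟨fun _ _ => rfl, fun _ _ => by norm_num, fun _ => rfl,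
      fun i j hij => absurd (hk i j) hij⟩, 1, one_pos, ?_⟩
    rw [one_smul]
    congr 1
    funext i j
    rw [hk i j, hd j]

end Pool.Agent.H98.FL
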