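import Pool.Agent.H98.FL.AlgMain
import Pool.Agent.H98.FL.GeoMain
import Pool.Agent.H98.FL.Density

/-!
# Finiteness of invariant Einstein metrics for almost all flag manifolds of type A
-/

namespace Pool.Agent.H98.FL

theorem finitelyMany_of_finite {k : ℕ} (n : Fin k → ℕ) (hn : ∀ i, 0 < n i)
    (h : {p : (Fin k → Fin k → ℝ) × (Fin k → Fin k → ℝ) |
      Sys (fun i => (n i : ℝ)) p.1 p.2}.Finite) : FinitelyMany n := by
  refine ⟨(fun p => gx n p.1) '' _, h.image _, fun g hg => ?_⟩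
  obtain ⟨x, y, hs, s, hs0, rfl⟩ := geo n hn g hg
  exact ⟨gx n x, ⟨(x, y), hs, rfl⟩, s, hs0, rfl⟩

open Classical in
theorem main (k : ℕ) :
    ∃ B C : ℕ, (∀ n : Fin k → ℕ, (∀ i, 0 < n i) → NoRel B n → FinitelyMany n) ∧
      ∀ X : ℕ, ((Fintype.piFinset fun _ : Fin k => Finset.Icc 1 X).filter
        fun n => ¬ NoRel B n).card ≤ C * X ^ (k - 1) := by
  obtain ⟨B, hB⟩ := finite_sys k
  obtain ⟨C, hC⟩ := density k B
  exact ⟨B, C, fun n hn hr => finitelyMany_of_finite n hn (hB n hn hr), hC⟩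

end Pool.Agent.H98.FL
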