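import Pool.Agent.H98.FL.Stmt
import Pool.Agent.H98.FL.Main

/-!
# From the definitions of `Defs` to those of `Stmt`
-/

namespace Pool.Agent.H98.FL

open Matrix Stmt

/-- the bilinear form on `mm n` given by a function on matrices -/
noncomputable def toForm {k : ℕ} {n : Fin k → ℕ} (g : CMat n → CMat n → ℝ)
    (h : InnerProd n g) : LinearMap.BilinForm ℝ (mm n) :=
  LinearMap.mk₂ ℝ (fun X Y => g (X : Mat n) (Y : Mat n))
    (fun X X' Y => h.1 _ _ _ X.2 X'.2 Y.2)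
    (fun c X Y => h.2.1 c _ _ X.2 Y.2)
    (fun X Y Y' => by
      have h1 := h.2.2.1 (X : Mat n) ((Y + Y' : mm n) : Mat n) X.2 (Y + Y').2
      rw [h1]
      have h2 := h.1 (Y : Mat n) (Y' : Mat n) (X : Mat n) Y.2 Y'.2 X.2
      have h3 := h.2.2.1 (X : Mat n) (Y : Mat n) X.2 Y.2
      have h4 := h.2.2.1 (X : Mat n) (Y' : Mat n) X.2 Y'.2
      rw [h3, h4]
      exact h2)
    (fun c X Y => by
      have h1 := h.2.2.1 (X : Mat n) ((c • Y : mm n) : Mat n) X.2 (c • Y).2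
      rw [h1]
      have h2 := h.2.1 c (Y : Mat n) (X : Mat n) Y.2 X.2
      have h3 := h.2.2.1 (X : Mat n) (Y : Mat n) X.2 Y.2
      rw [h3]
      exact h2)

theorem toForm_apply {k : ℕ} {n : Fin k → ℕ} (g : CMat n → CMat n → ℝ)
    (h : InnerProd n g) (X Y : mm n) : toForm g h X Y = g (X : Mat n) (Y : Mat n) := rfl

theorem bracket_eq {k : ℕ} {n : Fin k → ℕ} (X Y : mm n) :
    bracket n (X : Mat n) (Y : Mat n) = (brk X Y : Mat n) := rfl

theorem einstein_of {k : ℕ} {n : Fin k → ℕ} (g : CMat n → CMat n → ℝ)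
    (h : EinsteinMetric n g) : IsEinstein n (toForm g h.1.1) := by
  obtain ⟨⟨hin, hinv⟩, c, m, e, ⟨he1, he2, he3⟩, hc⟩ := h
  refine ⟨⟨fun X Y => hin.2.2.1 _ _ X.2 Y.2, fun X hX => ?_, fun U hU hb X Y X' Y' hX hY => ?_⟩,
    c, m, fun i => ⟨e i, he1 i⟩, ⟨fun i j => he2 i j, ?_⟩, fun X => ?_⟩
  · refine hin.2.2.2 _ X.2 fun h0 => hX ?_
    exact Subtype.ext h0
  · have h1 := hinv U ⟨hU, hb⟩ (X : Mat n) (Y : Mat n) X.2 Y.2
    rw [toForm_apply, toForm_apply, hX, hY]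
    exact h1
  · rw [eq_top_iff]
    intro X _
    obtain ⟨a, ha⟩ := he3 (X : Mat n) X.2
    have h1 : X = ∑ i, a i • (⟨e i, he1 i⟩ : mm n) := by
      refine Subtype.ext ?_
      rw [ha]
      simp
    rw [h1]
    exact Submodule.sum_mem _ fun i _ =>
      Submodule.smul_mem _ _ (Submodule.subset_span ⟨i, rfl⟩)
  · exact hc (X : Mat n) X.2

open Classical in
theorem finitelyManyEinstein_of {k : ℕ} {n : Fin k → ℕ} (h : FinitelyMany n) :
    FinitelyManyEinstein n := by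
  obtain ⟨S, hS, h⟩ := h
  refine ⟨(fun G : LinearMap.BilinForm ℝ (mm n) => fun X Y : CMat n =>
    if h : Tangent n X ∧ Tangent n Y then G ⟨X, h.1⟩ ⟨Y, h.2⟩ else 0) '' S, hS.image _,
    fun g hg => ?_⟩
  obtain ⟨G, hG, c, hc, hgG⟩ := h _ (einstein_of g hg)
  refine ⟨_, ⟨G, hG, rfl⟩, c, hc, fun X Y hX hY => ?_⟩
  have h1 := LinearMap.congr_fun (LinearMap.congr_fun hgG ⟨X, hX⟩) ⟨Y, hY⟩
  simp only [dif_pos (And.intro hX hY)]
  exact h1

open Classical in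
theorem main' (k : ℕ) :
    ∃ B C : ℕ,
      (∀ n : Fin k → ℕ, (∀ i, 0 < n i) → NoRelation B n → FinitelyManyEinstein n) ∧
      ∀ X : ℕ, ((Fintype.piFinset fun _ : Fin k => Finset.Icc 1 X).filter
        fun n => ¬ NoRelation B n).card ≤ C * X ^ (k - 1) := by
  obtain ⟨B, C, h1, h2⟩ := main k
  exact ⟨B, C, fun n hn hr => finitelyManyEinstein_of (h1 n hn hr), h2⟩

end Pool.Agent.H98.FL
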