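import Pool.Agent.H98.FL.Ord

/-!
# Module LogRes: residues of logarithmic differentials

PROOF. Let `O` be the set of `u` with `u = 0` or `ord u ≥ 0` (a subring), `t` a uniformizer.
Since `D ≠ 0` and every element of `L` is a quotient of elements of `O` (`u = t^(-j) (t^j u)`),
there is `u` in `O` with `D u ≠ 0`.  By `bdd` there is a largest integer `s` such that
`D u = 0 ∨ s ≤ ord (D u)` for all `u` in `O`.
(1) `D t ≠ 0` and `ord (D t) = s`: we have `≥`.  If `D t = 0 ∨ ord (D t) ≥ s + 1`, then for every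
`u` in `O` write `u = c + t u'` with `c` in `M` and `u'` in `O` (field `res`), so
`D u = u' D t + t D u'` has order at least `s + 1` (or is zero), contradiction to the choice of `s`.
(2) Let `u ≠ 0`, `m = ord u`, `u = t^m u₀` with `ord u₀ = 0`.  Then
`D u / u = m (D t / t) + D u₀ / u₀` and `D u₀ / u₀` is zero or has order at least `s`.
(3) So `0 = ∑ a_i D x_i / x_i = (∑ a_i m_i) (D t / t) + r` with `r = 0` or `ord r ≥ s`, while
`ord (D t / t) = s - 1`.  If `A = ∑ a_i m_i` (an element of `M`) were nonzero, then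
`ord (A D t / t) = s - 1 < s`, contradiction.
-/

namespace Pool.Agent.H98.FL

namespace LogResAux

variable {M L : Type*} [Field M] [Field L] [Algebra M L]

/-- zero or of order at least `s` -/
def Ge (O : Ord M L) (s : ℤ) (u : L) : Prop := u = 0 ∨ s ≤ O.ord u

theorem Ge.add {O : Ord M L} {s : ℤ} {u v : L} (hu : Ge O s u) (hv : Ge O s v) :
    Ge O s (u + v) := by
  rcases eq_or_ne u 0 with h1 | h1
  · rw [h1, zero_add]; exact hv
  rcases eq_or_ne v 0 with h2 | h2
  · rw [h2, add_zero]; exact hu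
  rcases eq_or_ne (u + v) 0 with h3 | h3
  · exact Or.inl h3
  · exact Or.inr ((le_min (hu.resolve_left h1) (hv.resolve_left h2)).trans
      (O.ord_add u v h1 h2 h3))

theorem Ge.mul {O : Ord M L} {s r : ℤ} {u v : L} (hu : Ge O s u) (hv : Ge O r v) :
    Ge O (s + r) (u * v) := by
  rcases eq_or_ne u 0 with h1 | h1
  · rw [h1, zero_mul]; exact Or.inl rfl
  rcases eq_or_ne v 0 with h2 | h2
  · rw [h2, mul_zero]; exact Or.inl rfl
  · right
    rw [O.ord_mul u v h1 h2]
    exact add_le_add (hu.resolve_left h1) (hv.resolve_left h2)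

theorem ge_const (O : Ord M L) (c : M) : Ge O 0 (algebraMap M L c) := by
  rcases eq_or_ne c 0 with h | h
  · left; rw [h, map_zero]
  · right; rw [O.ord_const c h]

theorem ord_one (O : Ord M L) : O.ord 1 = 0 := by
  have := O.ord_const 1 one_ne_zero
  rwa [map_one] at this

theorem ord_inv (O : Ord M L) {u : L} (hu : u ≠ 0) : O.ord u⁻¹ = - O.ord u := by
  have h := O.ord_mul u u⁻¹ hu (inv_ne_zero hu)
  rw [mul_inv_cancel₀ hu, ord_one] at h
  linarith

theorem ord_zpow (O : Ord M L) {u : L} (hu : u ≠ 0) (n : ℤ) : O.ord (u ^ n) = n * O.ord u := by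
  induction n with
  | zero => simp [ord_one]
  | succ n ih =>
    rw [zpow_add_one₀ hu, O.ord_mul _ _ (zpow_ne_zero _ hu) hu, ih]; ring
  | pred n ih =>
    rw [zpow_sub_one₀ hu, O.ord_mul _ _ (zpow_ne_zero _ hu) (inv_ne_zero hu), ih,
      ord_inv O hu]; ring

theorem ge_neg {O : Ord M L} {s : ℤ} {u : L} (hu : Ge O s u) : Ge O s (-u) := by
  have h := (ge_const O (-1)).mul hu
  rw [zero_add, map_neg, map_one, neg_one_mul] at h
  exact h

/-- the order of `D t` is the smallest order of a derivative of an integral element -/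
theorem exists_s (O : Ord M L) (D : Derivation M L L) (hD : D ≠ 0) {t : L} (ht : t ≠ 0)
    (ht1 : O.ord t = 1) : ∃ s : ℤ, D t ≠ 0 ∧ O.ord (D t) = s ∧ ∀ u, Ge O 0 u → Ge O s (D u) := by
  obtain ⟨u0, hu0, hDu0⟩ : ∃ u, Ge O 0 u ∧ D u ≠ 0 := by
    by_contra hcon
    push Not at hcon
    apply hD
    ext v
    have hDt : D t = 0 := hcon t (Or.inr (by rw [ht1]; norm_num))
    rcases eq_or_ne v 0 with h | h
    · rw [h]; simp
    have hw : Ge O 0 (t ^ (-O.ord v) * v) := by
      right
      rw [O.ord_mul _ _ (zpow_ne_zero _ ht) h, ord_zpow O ht, ht1]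
      linarith
    have h1 := hcon _ hw
    rw [Derivation.leibniz, Derivation.leibniz_zpow, hDt, smul_zero, smul_zero, smul_zero,
      add_zero, smul_eq_mul] at h1
    rw [Derivation.zero_apply]
    exact (mul_eq_zero.mp h1).resolve_left (zpow_ne_zero _ ht)
  obtain ⟨s, hs, hmax⟩ := Int.exists_greatest_of_bdd
    (P := fun s => ∀ u, Ge O 0 u → Ge O s (D u))
    ⟨O.ord (D u0), fun z hz => (hz u0 hu0).resolve_left hDu0⟩ (by
      obtain ⟨s, hs⟩ := O.bdd D
      refine ⟨s, fun u hu => ?_⟩
      rcases eq_or_ne (D u) 0 with h | h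
      · exact Or.inl h
      · right
        have hu0 : u ≠ 0 := by rintro rfl; exact h (map_zero D)
        exact hs u hu0 (hu.resolve_left hu0) h)
  have hnot : ¬ Ge O (s + 1) (D t) := by
    intro hge
    have := hmax (s + 1) (fun u hu => by
      rcases eq_or_ne u 0 with h | h
      · left; rw [h, map_zero]
      obtain ⟨c, hc⟩ := O.res u h (hu.resolve_left h)
      have hDc : D u = D (u - algebraMap M L c) := by
        rw [map_sub, Derivation.map_algebraMap, sub_zero]
      rcases eq_or_ne (u - algebraMap M L c) 0 with h2 | h2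
      · left; rw [hDc, h2, map_zero]
      have h3 := hc h2
      set w := u - algebraMap M L c with hw
      have h4 : Ge O 0 (t⁻¹ * w) := by
        right
        rw [O.ord_mul _ _ (inv_ne_zero ht) h2, ord_inv O ht, ht1]
        linarith
      have h5 : D w = t * D (t⁻¹ * w) + (t⁻¹ * w) * D t := by
        have h6 : w = t * (t⁻¹ * w) := by rw [mul_inv_cancel_left₀ ht]
        conv_lhs => rw [h6]
        rw [Derivation.leibniz, smul_eq_mul, smul_eq_mul]
      rw [hDc, h5]
      refine Ge.add ?_ ?_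
      · have h7 : Ge O 1 t := Or.inr (by rw [ht1])
        have h8 := h7.mul (hs _ h4)
        rwa [add_comm] at h8
      · have h8 := h4.mul hge
        rwa [zero_add] at h8)
    linarith
  unfold Ge at hnot
  push Not at hnot
  have h1 := (hs t (Or.inr (by rw [ht1]; norm_num))).resolve_left hnot.1
  exact ⟨s, hnot.1, by linarith [hnot.2], hs⟩

end LogResAux

open LogResAux in
theorem log_res {M L : Type*} [Field M] [Field L] [Algebra M L] [CharZero M] (O : Ord M L)
    (D : Derivation M L L) (hD : D ≠ 0) {ι : Type*} [Fintype ι] (a : ι → M) (x : ι → L)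
    (hx : ∀ i, x i ≠ 0) (h : ∑ i, algebraMap M L (a i) * (D (x i) / x i) = 0) :
    ∑ i, O.ord (x i) • a i = 0 := by
  obtain ⟨t, ht, ht1⟩ := O.unif
  obtain ⟨s, hDt, hDts, hs⟩ := exists_s O D hD ht ht1
  -- logarithmic derivatives
  have hlog : ∀ u : L, u ≠ 0 → ∃ r, Ge O s r ∧ D u / u = (O.ord u : L) * (D t / t) + r := by
    intro u hu
    have hu0 : t ^ (-O.ord u) * u ≠ 0 := mul_ne_zero (zpow_ne_zero _ ht) hu
    have hord : O.ord (t ^ (-O.ord u) * u) = 0 := by
      rw [O.ord_mul _ _ (zpow_ne_zero _ ht) hu, ord_zpow O ht, ht1]; ring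
    refine ⟨(t ^ (-O.ord u) * u)⁻¹ * D (t ^ (-O.ord u) * u), ?_, ?_⟩
    · have h1 : Ge O 0 (t ^ (-O.ord u) * u)⁻¹ := Or.inr (by rw [ord_inv O hu0, hord]; norm_num)
      have h2 := h1.mul (hs _ (Or.inr hord.ge))
      rwa [zero_add] at h2
    · rw [Derivation.leibniz, Derivation.leibniz_zpow]
      simp only [smul_eq_mul, zsmul_eq_mul, mul_inv]
      have h3 : t ^ (-O.ord u - 1) = t ^ (-O.ord u) * t⁻¹ := zpow_sub_one₀ ht _
      have h4 : t ^ (-O.ord u) ≠ 0 := zpow_ne_zero _ ht
      rw [h3]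
      push_cast
      field_simp
      ring
  choose r hr1 hr2 using fun i => hlog (x i) (hx i)
  set A : M := ∑ i, O.ord (x i) • a i with hA
  by_contra hA0
  have hsum : algebraMap M L A * (D t / t) = -(∑ i, algebraMap M L (a i) * r i) := by
    rw [eq_neg_iff_add_eq_zero, ← h, hA, map_sum, Finset.sum_mul, ← Finset.sum_add_distrib]
    refine Finset.sum_congr rfl fun i _ => ?_
    rw [hr2 i, zsmul_eq_mul, map_mul, map_intCast]
    ring
  have hge : Ge O s (-(∑ i, algebraMap M L (a i) * r i)) := by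
    refine ge_neg ?_
    refine Finset.sum_induction _ (Ge O s) (fun _ _ h1 h2 => h1.add h2) (Or.inl rfl) ?_
    intro i _
    have h2 := (ge_const O (a i)).mul (hr1 i)
    rwa [zero_add] at h2
  rw [← hsum] at hge
  have hA1 : algebraMap M L A ≠ 0 := by
    rw [Ne, map_eq_zero_iff _ (algebraMap M L).injective]; exact hA0
  have hq : D t / t ≠ 0 := div_ne_zero hDt ht
  have h5 := hge.resolve_left (mul_ne_zero hA1 hq)
  rw [O.ord_mul _ _ hA1 hq, O.ord_const A hA0, div_eq_mul_inv,
    O.ord_mul _ _ hDt (inv_ne_zero ht), ord_inv O ht, ht1, hDts] at h5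
  linarith

end Pool.Agent.H98.FL
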