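import Mathlib

/-!
# Module Pts: an infinite set of points has a transcendental generic point

PROOF. Let `I` be the ideal of all polynomials vanishing on `Z`.  `MvPolynomial ι F` is Noetherian, so
`I` has finitely many minimal primes, and every point of `Z` is a zero of one of them (the kernel of
the evaluation at `z` is a prime ideal containing `I`, so it contains a minimal prime of `I`).
By the pigeon hole principle there is a minimal prime `𝔭` of `I` which vanishes at infinitely many points
of `Z`.  Let `R = MvPolynomial ι F / 𝔭`, `L` its fraction field, `x_i` the image of `X_i`.  If all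
`x_i` were algebraic over `F`, then `R` would be a field (a domain which is generated by algebraic
elements).  Each of these points `z` gives an `F`-algebra homomorphism `R → F`, which is injective
because `R` is a field, and `F → R → F` is the identity, so `x_i = z_i` in `R` for
every such `z`: there is at most one such point, contradiction.
-/

namespace Pool.Agent.H98.FL

universe u

theorem exists_transcendental {F : Type u} [Field F] {ι : Type} [Fintype ι] (Z : Set (ι → F))
    (hZ : Z.Infinite) :
    ∃ (L : Type u) (_ : Field L) (_ : Algebra F L) (x : ι → L), (∃ i, Transcendental F (x i)) ∧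
      ∀ p : MvPolynomial ι F, (∀ z ∈ Z, MvPolynomial.eval z p = 0) →
        MvPolynomial.aeval x p = 0 := by
  classical
  set I : Ideal (MvPolynomial ι F) :=
    ⨅ z : Z, RingHom.ker (MvPolynomial.eval (z : ι → F)) with hI
  have hfin : I.minimalPrimes.Finite := Ideal.finite_minimalPrimes_of_isNoetherianRing _ I
  have hz : ∀ z : Z, ∃ P : I.minimalPrimes,
      (P : Ideal (MvPolynomial ι F)) ≤ RingHom.ker (MvPolynomial.eval (z : ι → F)) := by
    intro z
    have h1 : I ≤ RingHom.ker (MvPolynomial.eval (z : ι → F)) := iInf_le _ z
    have : (RingHom.ker (MvPolynomial.eval (z : ι → F))).IsPrime := RingHom.ker_isPrime _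
    obtain ⟨P, hP, hP'⟩ := Ideal.exists_minimalPrimes_le h1
    exact ⟨⟨P, hP⟩, hP'⟩
  choose f hf using hz
  have : Infinite Z := hZ.to_subtype
  have : Finite I.minimalPrimes := hfin.to_subtype
  obtain ⟨P, hP⟩ := Finite.exists_infinite_fiber f
  have hprime : (P : Ideal (MvPolynomial ι F)).IsPrime := P.2.1.1
  have hIP : I ≤ (P : Ideal (MvPolynomial ι F)) := P.2.1.2
  let R := MvPolynomial ι F ⧸ (P : Ideal (MvPolynomial ι F))
  let L := FractionRing R
  refine ⟨L, inferInstance, inferInstance,
    fun i => algebraMap R L (Ideal.Quotient.mk _ (MvPolynomial.X i)), ?_, ?_⟩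
  · by_contra hcon
    push Not at hcon
    have hint : ∀ i : ι, IsIntegral F
        (Ideal.Quotient.mk (P : Ideal (MvPolynomial ι F)) (MvPolynomial.X i)) := by
      intro i
      have h1 : IsAlgebraic F (algebraMap R L (Ideal.Quotient.mk _ (MvPolynomial.X i))) := by
        have := hcon i
        rwa [Transcendental, not_not] at this
      have h2 : IsIntegral F (algebraMap R L (Ideal.Quotient.mk _ (MvPolynomial.X i))) :=
        h1.isIntegral
      exact (isIntegral_algebraMap_iff (IsFractionRing.injective R L)).mp h2
    have hall : ∀ r : R, IsIntegral F r := by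
      intro r
      obtain ⟨p, rfl⟩ := Ideal.Quotient.mk_surjective r
      induction p using MvPolynomial.induction_on with
      | C a => exact isIntegral_algebraMap (R := F) (A := R) (x := a)
      | add p q hp hq => rw [map_add]; exact hp.add hq
      | mul_X p i hp => rw [map_mul]; exact hp.mul (hint i)
    have : Algebra.IsIntegral F R := ⟨hall⟩
    have hfield : IsField R := isField_of_isIntegral_of_isField' (Field.toIsField F)
    have key : ∀ z : f ⁻¹' {P}, ∀ i, (Ideal.Quotient.mk (P : Ideal (MvPolynomial ι F))
        (MvPolynomial.X i)) = algebraMap F R (((z : Z) : ι → F) i) := by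
      intro z i
      have hz1 : f (z : Z) = P := z.2
      have hle : (P : Ideal (MvPolynomial ι F)) ≤
          RingHom.ker (MvPolynomial.eval (((z : Z) : ι → F))) := by
        have := hf (z : Z)
        rwa [hz1] at this
      let g : R →+* F := Ideal.Quotient.lift (P : Ideal (MvPolynomial ι F))
        (MvPolynomial.eval (((z : Z) : ι → F))) (fun a ha => RingHom.mem_ker.mp (hle ha))
      have hg : Function.Injective g := by
        rw [injective_iff_map_eq_zero]
        intro r hr
        by_contra hr0
        obtain ⟨s, hs⟩ := hfield.mul_inv_cancel hr0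
        have := congrArg g hs
        rw [map_mul, hr, zero_mul, map_one] at this
        exact zero_ne_one this
      apply hg
      have h1 : g (Ideal.Quotient.mk (P : Ideal (MvPolynomial ι F)) (MvPolynomial.X i)) =
          ((z : Z) : ι → F) i := by
        exact (Ideal.Quotient.lift_mk _ _ _).trans (MvPolynomial.eval_X i)
      have h2 : g (algebraMap F R (((z : Z) : ι → F) i)) = ((z : Z) : ι → F) i := by
        exact (Ideal.Quotient.lift_mk _ _ _).trans (MvPolynomial.eval_C _)
      rw [h1, h2]
    have : Infinite (f ⁻¹' {P}) := hP
    obtain ⟨z, z', hne⟩ := exists_pair_ne (f ⁻¹' {P})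
    apply hne
    apply Subtype.ext
    apply Subtype.ext
    funext i
    have h1 := (key z i).symm.trans (key z' i)
    exact (algebraMap F R).injective h1
  · intro p hp
    have h1 : p ∈ I := by
      rw [hI]
      simp only [Ideal.mem_iInf, RingHom.mem_ker]
      intro z
      exact hp z z.2
    have h2 : Ideal.Quotient.mk (P : Ideal (MvPolynomial ι F)) p = 0 :=
      Ideal.Quotient.eq_zero_iff_mem.mpr (hIP h1)
    have h3 : ∀ p : MvPolynomial ι F, MvPolynomial.aeval
        (fun i => algebraMap R L (Ideal.Quotient.mk _ (MvPolynomial.X i))) p =
        algebraMap R L (Ideal.Quotient.mk _ p) := by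
      intro p
      induction p using MvPolynomial.induction_on with
      | C a => 
        rw [MvPolynomial.aeval_C]
        exact IsScalarTower.algebraMap_apply F R L a
      | add p q hp hq => rw [map_add, map_add, map_add, hp, hq]
      | mul_X p i hp => rw [map_mul, map_mul, map_mul, hp, MvPolynomial.aeval_X]
    rw [h3, h2, map_zero]

end Pool.Agent.H98.FL
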