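import Mathlib

/-!
# Module DerEx: a function field has a nonzero derivation

PROOF. `L` is essentially of finite type over `M` (finite over `RatFunc M`, the fraction field of
`M[X]`) and it is not algebraic over `M`.  So it is not formally unramified over `M`
(`Algebra.FormallyUnramified.isSeparable`), that is the module of Kaehler differentials
`Ω[L⁄M]` is not zero; a nonzero `L`-linear functional on this vector space composed with the
universal derivation is a nonzero derivation.  (Another way: extend the derivation `d/dX`,
see `Mathlib/FieldTheory/Differential`.)
-/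

namespace Pool.Agent.H98.FL

theorem exists_der (M L : Type*) [Field M] [CharZero M] [Field L] [Algebra M L]
    [Algebra (RatFunc M) L] [IsScalarTower M (RatFunc M) L] [FiniteDimensional (RatFunc M) L] :
    ∃ D : Derivation M L L, D ≠ 0 := by
  have e1 : Algebra.EssFiniteType (Polynomial M) (RatFunc M) :=
    Algebra.EssFiniteType.of_isLocalization (RatFunc M) (nonZeroDivisors (Polynomial M))
  have e2 : Algebra.EssFiniteType M (RatFunc M) :=
    Algebra.EssFiniteType.comp M (Polynomial M) (RatFunc M)
  have e3 : Algebra.EssFiniteType M L := Algebra.EssFiniteType.comp M (RatFunc M) L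
  by_contra hcon
  push Not at hcon
  have h1 : Subsingleton (Ω[L⁄M]) := by
    refine ⟨fun v w => ?_⟩
    rw [← sub_eq_zero]
    rw [← Module.forall_dual_apply_eq_zero_iff L]
    intro φ
    have h0 : φ = 0 := by
      apply (KaehlerDifferential.linearMapEquivDerivation M L).injective
      rw [map_zero]
      exact hcon _
    rw [h0, LinearMap.zero_apply]
  have h2 : Algebra.FormallyUnramified M L := ⟨h1⟩
  have h3 : Algebra.IsSeparable M L := Algebra.FormallyUnramified.isSeparable M L
  have h4 : Algebra.IsAlgebraic M L := inferInstance
  have h5 : IsAlgebraic M (algebraMap (RatFunc M) L RatFunc.X) := h4.isAlgebraic _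
  have h6 : IsAlgebraic M (RatFunc.X : RatFunc M) :=
    (isAlgebraic_algebraMap_iff (algebraMap (RatFunc M) L).injective).mp h5
  exact RatFunc.transcendental_X h6

end Pool.Agent.H98.FL
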