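import Pool.Agent.H98.FL.Ord

/-!
# Module PlaceEx: existence of a place above X = 0

PROOF. Let `A = M[X]`, `K = RatFunc M` its fraction field, `B` the integral closure of `A` in `L`.
`L` is a finite separable extension of `K` (characteristic 0), so `B` is a Dedekind domain
(`integralClosure.isDedekindDomain`) with fraction field `L` and a finite `A`-module
(`IsIntegralClosure.finite`).  `X` is not a unit of `B` (otherwise `1/X` is integral over `A`, so
it is in `A` because `A` is integrally closed), so there is a maximal ideal `P` of `B` with `X` in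
`P`.  `ord` is the `P`-adic valuation of `L` (`IsDedekindDomain.HeightOneSpectrum.valuation`, or
the discrete valuation ring `Localization.AtPrime P`).
* `res`: `B/P` is integral over `M`: an element `f(X)` of `A` is congruent to `f(0)` modulo `P`,
so an integral equation over `A` becomes one over `M`.  As `M` is algebraically closed,
`M → B/P` is surjective.  An element `u` with `ord u ≥ 0` is `b/s` with `b` in `B` and `s` in `B`
outside `P`; if `b ≡ β`, `s ≡ σ` modulo `P` (`β, σ` in `M`, `σ ≠ 0`), then `u - β/σ` has positive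
order.
* `bdd`: let `b_1, ..., b_r` generate `B` as an `A`-module.  For `b = ∑ f_j(X) b_j` we have
`D b = ∑ (f_j'(X) D(X) b_j + f_j(X) D(b_j))`, and `f_j(X), f_j'(X), b_j` have order at least 0, so
`ord (D b) ≥ s := min (0, ord D(X), ord D(b_j))` (omit zero elements).  For `u = b/s'`,
`s'` outside `P`: `D u = (s' D b - b D s') / s'^2`.
-/

namespace Pool.Agent.H98.FL

open Polynomial IsDedekindDomain WithZero

section PlaceEx

set_option linter.style.haveILetI false

set_option linter.unusedSectionVars false

/-- residues are constants -/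
private theorem placeEx_res {M B : Type*} [Field M] [IsAlgClosed M] [CommRing B]
    [IsDedekindDomain B] [Algebra M[X] B] [Algebra.IsIntegral M[X] B]
    (v : HeightOneSpectrum B) (hX : algebraMap M[X] B X ∈ v.asIdeal) (b : B) :
    ∃ c : M, b - algebraMap M[X] B (C c) ∈ v.asIdeal := by
  have hprime : v.asIdeal.IsPrime := v.isPrime
  let π : B →+* B ⧸ v.asIdeal := Ideal.Quotient.mk v.asIdeal
  let g : M →+* B ⧸ v.asIdeal := π.comp ((algebraMap M[X] B).comp C)
  have hg : g.comp (Polynomial.evalRingHom (0 : M)) = π.comp (algebraMap M[X] B) := by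
    apply Polynomial.ringHom_ext
    · intro a
      simp [g]
    · have h1 : π (algebraMap M[X] B X) = 0 := Ideal.Quotient.eq_zero_iff_mem.mpr hX
      simp [h1]
  letI : Algebra M (B ⧸ v.asIdeal) := g.toAlgebra
  have hint : Algebra.IsIntegral M (B ⧸ v.asIdeal) := ⟨by
    intro y
    obtain ⟨b, rfl⟩ := Ideal.Quotient.mk_surjective y
    obtain ⟨p, hp, hpb⟩ := Algebra.IsIntegral.isIntegral (R := M[X]) b
    refine ⟨p.map (evalRingHom 0), hp.map _, ?_⟩
    rw [eval₂_map]
    change eval₂ (g.comp (evalRingHom 0)) (π b) p = 0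
    rw [hg, ← hom_eval₂, hpb, map_zero]⟩
  obtain ⟨c, hc⟩ :=
    (IsAlgClosed.algebraMap_bijective_of_isIntegral (k := M) (K := B ⧸ v.asIdeal)).2 (π b)
  refine ⟨c, ?_⟩
  rw [← Ideal.Quotient.eq_zero_iff_mem, map_sub, sub_eq_zero]
  exact hc.symm

variable {M L B : Type*} [Field M] [IsAlgClosed M] [Field L] [CommRing B] [IsDedekindDomain B]
  [Algebra M L] [Algebra M[X] B] [Algebra M[X] L] [Algebra B L] [IsFractionRing B L]
  [IsScalarTower M[X] B L] [IsScalarTower M M[X] L]

/-- the valuations of the derivatives of integral elements are bounded -/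
private theorem placeEx_bdd [Module.Finite M[X] B] (v : HeightOneSpectrum B)
    (D : Derivation M L L) :
    ∃ c : ℤᵐ⁰, c ≠ 0 ∧ ∀ b : B, v.valuation L (D (algebraMap B L b)) ≤ c := by
  classical
  obtain ⟨S, hS⟩ := Module.Finite.fg_top (R := M[X]) (M := B)
  set w := v.valuation L with hw
  obtain ⟨c, hc⟩ := (insert 1 (insert (w (D (algebraMap M[X] L X)))
    (S.image fun b => w (D (algebraMap B L b))))).exists_le
  have hc1 : 1 ≤ c := hc 1 (by simp)
  have hcX : w (D (algebraMap M[X] L X)) ≤ c := hc _ (by simp)
  have hcS : ∀ b ∈ S, w (D (algebraMap B L b)) ≤ c := fun b hb =>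
    hc _ (Finset.mem_insert_of_mem (Finset.mem_insert_of_mem (Finset.mem_image_of_mem _ hb)))
  have hA : ∀ f : M[X], w (algebraMap M[X] L f) ≤ 1 := by
    intro f
    rw [IsScalarTower.algebraMap_apply M[X] B L]
    exact v.valuation_le_one _
  have hDA : ∀ f : M[X], w (D (algebraMap M[X] L f)) ≤ c := by
    intro f
    induction f using Polynomial.induction_on' with
    | add p q hp hq =>
      rw [map_add, map_add]
      exact (w.map_add _ _).trans (max_le hp hq)
    | monomial n a =>
      have h1 : ∀ k : ℕ, w (D (algebraMap M[X] L (X ^ k))) ≤ c := by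
        intro k
        induction k with
        | zero => simp
        | succ k ih =>
          rw [pow_succ, map_mul, Derivation.leibniz, smul_eq_mul, smul_eq_mul]
          refine (w.map_add _ _).trans (max_le ?_ ?_)
          · rw [map_mul]
            exact (mul_le_mul' (hA _) hcX).trans_eq (one_mul _)
          · rw [map_mul]
            exact (mul_le_mul' (hA _) ih).trans_eq (one_mul _)
      have h2 : algebraMap M[X] L (C a) = algebraMap M L a := by
        rw [IsScalarTower.algebraMap_apply M M[X] L]
        rfl
      rw [← C_mul_X_pow_eq_monomial, map_mul, Derivation.leibniz, smul_eq_mul, smul_eq_mul, h2,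
        D.map_algebraMap, mul_zero, add_zero, ← h2, map_mul]
      exact (mul_le_mul' (hA _) (h1 n)).trans_eq (one_mul _)
  refine ⟨c, ?_, ?_⟩
  · intro h
    rw [h] at hc1
    exact absurd hc1 (by simp)
  intro b
  have hb : b ∈ Submodule.span M[X] (S : Set B) := by
    rw [hS]
    trivial
  induction hb using Submodule.span_induction with
  | mem x hx => exact hcS x hx
  | zero => simp
  | add x y _ _ hx hy =>
    rw [map_add, map_add]
    exact (w.map_add _ _).trans (max_le hx hy)
  | smul f x _ hx =>
    rw [Algebra.smul_def, map_mul, ← IsScalarTower.algebraMap_apply, Derivation.leibniz,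
      smul_eq_mul, smul_eq_mul]
    refine (w.map_add _ _).trans (max_le ?_ ?_)
    · rw [map_mul]
      exact (mul_le_mul' (hA _) hx).trans_eq (one_mul _)
    · rw [map_mul]
      exact (mul_le_mul' (v.valuation_le_one _) (hDA _)).trans_eq (one_mul _)

/-- the place -/
private theorem placeEx_main [Module.Finite M[X] B] (v : HeightOneSpectrum B)
    (hX : algebraMap M[X] B X ∈ v.asIdeal) :
    ∃ O : Ord M L, ∀ u : L, O.ord u = -(v.valuation L u).log := by
  set w := v.valuation L with hw
  have hne : ∀ u : L, u ≠ 0 → w u ≠ 0 := fun u hu => (Valuation.ne_zero_iff _).mpr hu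
  have hA : ∀ f : M[X], w (algebraMap M[X] L f) ≤ 1 := by
    intro f
    rw [IsScalarTower.algebraMap_apply M[X] B L]
    exact v.valuation_le_one _
  have hM : ∀ c : M, w (algebraMap M L c) ≤ 1 := by
    intro c
    rw [IsScalarTower.algebraMap_apply M M[X] L]
    exact hA _
  have hlog : ∀ u : L, u ≠ 0 → (0 ≤ -(w u).log ↔ w u ≤ 1) := by
    intro u hu
    rw [neg_nonneg, log_le_iff_le_exp (hne u hu), exp_zero]
  have hlog1 : ∀ u : L, u ≠ 0 → (1 ≤ -(w u).log ↔ w u < 1) := by
    intro u hu
    have h1 : 1 ≤ -(w u).log ↔ 0 < -(w u).log := by omega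
    rw [h1, neg_pos, log_lt_iff_lt_exp (hne u hu), exp_zero]
  refine ⟨{ ord := fun u => -(w u).log
            ord_mul := ?_
            ord_add := ?_
            ord_const := ?_
            unif := ?_
            res := ?_
            bdd := ?_ }, fun u => rfl⟩
  · intro u u' hu hu'
    rw [map_mul, log_mul (hne u hu) (hne u' hu')]
    ring
  · intro u u' hu hu' huu
    have h1 := w.map_add u u'
    rcases le_max_iff.mp h1 with h | h
    · refine min_le_of_left_le ?_
      rw [neg_le_neg_iff, log_le_log (hne _ huu) (hne _ hu)]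
      exact h
    · refine min_le_of_right_le ?_
      rw [neg_le_neg_iff, log_le_log (hne _ huu) (hne _ hu')]
      exact h
  · intro c hc
    have h1 : w (algebraMap M L c) * w (algebraMap M L c⁻¹) = 1 := by
      rw [← map_mul, ← map_mul, mul_inv_cancel₀ hc, map_one, map_one]
    have h2 : w (algebraMap M L c) = 1 := by
      apply le_antisymm (hM c)
      calc (1 : ℤᵐ⁰) = w (algebraMap M L c) * w (algebraMap M L c⁻¹) := h1.symm
        _ ≤ w (algebraMap M L c) * 1 := mul_le_mul' le_rfl (hM _)
        _ = _ := mul_one _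
    rw [h2, log_one, neg_zero]
  · obtain ⟨t, ht⟩ := v.valuation_exists_uniformizer L
    refine ⟨t, ?_, ?_⟩
    · rintro rfl
      rw [map_zero] at ht
      exact exp_ne_zero ht.symm
    · rw [hw, ht, log_exp, neg_neg]
  · intro u hu h0
    rw [hlog u hu] at h0
    obtain ⟨b, hb⟩ := v.exists_valuation_sub_lt_of_integer h0 1
    obtain ⟨c, hc⟩ := placeEx_res v hX b
    refine ⟨c, fun hne' => ?_⟩
    rw [hlog1 _ hne']
    have h1 : w (algebraMap B L (b - algebraMap M[X] B (C c))) < 1 :=
      (v.valuation_lt_one_iff_mem _).mpr hc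
    have h2 : u - algebraMap M L c =
        algebraMap B L (b - algebraMap M[X] B (C c)) - (algebraMap B L b - u) := by
      rw [map_sub, ← IsScalarTower.algebraMap_apply, IsScalarTower.algebraMap_apply M M[X] L]
      rw [Polynomial.algebraMap_eq]
      ring
    rw [h2]
    exact w.map_sub_lt h1 (by simpa using hb)
  · intro D
    obtain ⟨c, hc0, hc⟩ := placeEx_bdd (L := L) v D
    refine ⟨-c.log, fun u hu h0 hD => ?_⟩
    rw [hlog u hu] at h0
    rw [neg_le_neg_iff, log_le_log (hne _ hD) hc0]
    obtain ⟨n, ⟨d, hd⟩, hnd⟩ := v.exists_primeCompl_mul_eq_of_integer u h0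
    change u * algebraMap B L d = algebraMap B L n at hnd
    have hd1 : w (algebraMap B L d) = 1 := by
      rw [hw, v.valuation_of_algebraMap]
      exact (v.intValuation_eq_one_iff_mem_primeCompl d).mpr hd
    have h1 : algebraMap B L d * D u = D (algebraMap B L n) - u * D (algebraMap B L d) := by
      rw [← hnd, Derivation.leibniz, smul_eq_mul, smul_eq_mul]
      ring
    have h2 : w (D u) = w (D (algebraMap B L n) - u * D (algebraMap B L d)) := by
      rw [← h1, map_mul, hd1, one_mul]
    rw [h2]
    refine (w.map_sub _ _).trans (max_le (hc n) ?_)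
    rw [map_mul]
    exact (mul_le_mul' h0 (hc d)).trans_eq (one_mul _)

end PlaceEx

set_option linter.style.haveILetI false in
theorem exists_ord (M L : Type*) [Field M] [IsAlgClosed M] [CharZero M] [Field L] [Algebra M L]
    [Algebra (RatFunc M) L] [IsScalarTower M (RatFunc M) L] [FiniteDimensional (RatFunc M) L] :
    ∃ O : Ord M L, 0 < O.ord (algebraMap (RatFunc M) L RatFunc.X) := by
  letI algA : Algebra M[X] L :=
    ((algebraMap (RatFunc M) L).comp (algebraMap M[X] (RatFunc M))).toAlgebra
  haveI : IsScalarTower M[X] (RatFunc M) L := IsScalarTower.of_algebraMap_eq fun _ => rfl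
  haveI : IsScalarTower M M[X] L := IsScalarTower.of_algebraMap_eq fun c => by
    rw [IsScalarTower.algebraMap_apply M (RatFunc M) L,
      IsScalarTower.algebraMap_apply M[X] (RatFunc M) L,
      IsScalarTower.algebraMap_apply M M[X] (RatFunc M)]
  haveI : IsDedekindDomain (integralClosure M[X] L) :=
    integralClosure.isDedekindDomain M[X] (RatFunc M) L
  haveI : IsFractionRing (integralClosure M[X] L) L :=
    integralClosure.isFractionRing_of_finite_extension (RatFunc M) L
  haveI : Module.Finite M[X] (integralClosure M[X] L) :=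
    IsIntegralClosure.finite M[X] (RatFunc M) L (integralClosure M[X] L)
  have hinjL : Function.Injective (algebraMap M[X] L) := by
    rw [IsScalarTower.algebraMap_eq M[X] (RatFunc M) L]
    exact (algebraMap (RatFunc M) L).injective.comp (IsFractionRing.injective M[X] (RatFunc M))
  have hinj : Function.Injective (algebraMap M[X] (integralClosure M[X] L)) := by
    rw [IsScalarTower.algebraMap_eq M[X] (integralClosure M[X] L) L, RingHom.coe_comp] at hinjL
    exact Function.Injective.of_comp hinjL
  haveI hmax : (Ideal.span {(X : M[X])}).IsMaximal :=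
    PrincipalIdealRing.isMaximal_of_irreducible Polynomial.irreducible_X
  obtain ⟨Q, hQ, hQX⟩ := Ideal.exists_ideal_over_maximal_of_isIntegral
    (S := integralClosure M[X] L) (Ideal.span {(X : M[X])}) (by
      rw [(RingHom.injective_iff_ker_eq_bot _).mp hinj]
      exact bot_le)
  have hXQ : algebraMap M[X] (integralClosure M[X] L) X ∈ Q := by
    rw [← Ideal.mem_comap, hQX]
    exact Ideal.mem_span_singleton_self _
  have hX0 : algebraMap M[X] (integralClosure M[X] L) X ≠ 0 := by
    rw [← map_zero (algebraMap M[X] (integralClosure M[X] L))]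
    exact fun h => X_ne_zero (hinj h)
  let v : HeightOneSpectrum (integralClosure M[X] L) :=
    ⟨Q, hQ.isPrime, fun h => hX0 (by rwa [h, Ideal.mem_bot] at hXQ)⟩
  obtain ⟨O, hO⟩ := placeEx_main (M := M) (L := L) v hXQ
  refine ⟨O, ?_⟩
  have h1 : algebraMap (RatFunc M) L RatFunc.X =
      algebraMap (integralClosure M[X] L) L (algebraMap M[X] (integralClosure M[X] L) X) := by
    rw [← IsScalarTower.algebraMap_apply, IsScalarTower.algebraMap_apply M[X] (RatFunc M) L,
      RatFunc.algebraMap_X]
  have h2 : v.valuation L (algebraMap (RatFunc M) L RatFunc.X) < 1 := by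
    rw [h1]
    exact (v.valuation_lt_one_iff_mem _).mpr hXQ
  have h3 : v.valuation L (algebraMap (RatFunc M) L RatFunc.X) ≠ 0 := by
    rw [Valuation.ne_zero_iff]
    intro h
    rw [h1, ← IsScalarTower.algebraMap_apply, ← map_zero (algebraMap M[X] L)] at h
    exact X_ne_zero (hinjL h)
  rw [hO, neg_pos, log_lt_iff_lt_exp h3, exp_zero]
  exact h2

end Pool.Agent.H98.FL
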