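import Pool.Agent.H98.FL.LogRes
import Pool.Agent.H98.FL.PlaceEx
import Pool.Agent.H98.FL.DerEx

/-!
# Module Rosen: Rosenlicht's lemma

`F ⊆ Ω` fields of characteristic 0, `Ω` algebraically closed, `x_i` finitely many nonzero elements
of `Ω`, `a_i` in `F`, such that `∑ a_i D(x_i)/x_i = 0` for all derivations over `F` of all
intermediate fields containing the `x_i`.  If `x_{i0}` is transcendental over `F`, then there are
integers `m_i` with `∑ m_i a_i = 0` and `m_{i0} > 0`.

PROOF. Put `y = x_{i0}`.  Extend `{y}` to a transcendence basis `T` of `Ω` over `F` (or use Zorn) and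
let `M` be the algebraic closure in `Ω` of `F(T \ {y})`: an algebraically closed field, `y` is
transcendental over `M` and `Ω` is algebraic over `M(y)`.  Make `Ω` an algebra over `RatFunc M`
by `X ↦ y`, and let `L` be the subfield generated over `RatFunc M` by the `x_i`: finite over
`RatFunc M` (finitely many algebraic generators), and `L` contains `F`.  Take `D ≠ 0` from `exists_der`
and `O` from `exists_ord`; `D` is a derivation over `F`, so the hypothesis gives
`∑ a_i D(x_i)/x_i = 0` in `L`, and `log_res` gives `∑ ord(x_i) a_i = 0`; `ord(x_{i0}) = ord(X) > 0`.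
(`L` as an intermediate field of `Ω` over `F`: restrict scalars.)
-/

namespace Pool.Agent.H98.FL

private theorem rosen_core {F M Ω : Type*} [Field F] [Field M] [Field Ω] [Algebra F M]
    [Algebra M Ω] [Algebra F Ω] [IsScalarTower F M Ω] [CharZero F] [IsAlgClosed M]
    (y : Ω) (hy : Transcendental M y)
    (halg : ∀ z : Ω, IsAlgebraic (IntermediateField.adjoin M {y}) z)
    {ι : Type*} [Fintype ι] (a : ι → F) (x : ι → Ω) (hx : ∀ i, x i ≠ 0)
    (hD : ∀ (E : IntermediateField F Ω) (z : ι → E), (∀ i, (z i : Ω) = x i) →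
      ∀ D : Derivation F E E, ∑ i, algebraMap F E (a i) * (D (z i) / z i) = 0)
    (i0 : ι) (h0 : x i0 = y) :
    ∃ m : ι → ℤ, (∑ i, m i • a i = 0) ∧ 0 < m i0 := by
  classical
  have : CharZero M := charZero_of_injective_algebraMap (algebraMap F M).injective
  have hinj : Function.Injective (Polynomial.aeval y : Polynomial M →ₐ[M] Ω) :=
    transcendental_iff_injective.1 hy
  let ψ : RatFunc M →ₐ[M] Ω := RatFunc.liftAlgHom (Polynomial.aeval y)
    (nonZeroDivisors_le_comap_nonZeroDivisors_of_injective _ hinj)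
  have hψX : ψ RatFunc.X = y := by
    have h1 := RatFunc.liftAlgHom_apply_div (Polynomial.aeval y)
      (nonZeroDivisors_le_comap_nonZeroDivisors_of_injective _ hinj)
      (Polynomial.X : Polynomial M) 1
    rw [map_one, div_one, RatFunc.algebraMap_X, map_one, div_one, Polynomial.aeval_X] at h1
    exact h1
  let _ : Algebra (RatFunc M) Ω := ψ.toRingHom.toAlgebra
  have hmap : ∀ r : RatFunc M, algebraMap (RatFunc M) Ω r = ψ r := fun r => rfl
  have : IsScalarTower M (RatFunc M) Ω :=
    IsScalarTower.of_algebraMap_eq (fun r => (ψ.commutes r).symm)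
  have hint : ∀ z : Ω, IsAlgebraic (RatFunc M) z := by
    intro z
    have hle : IntermediateField.adjoin M {y} ≤ ψ.fieldRange := by
      rw [IntermediateField.adjoin_le_iff, Set.singleton_subset_iff]
      exact ⟨RatFunc.X, hψX⟩
    let g : IntermediateField.adjoin M {y} →+* ψ.fieldRange :=
      (IntermediateField.inclusion hle).toRingHom
    have h1 : IsAlgebraic ψ.fieldRange (RingHom.id Ω z) :=
      (halg z).ringHom_of_comp_eq g (RingHom.id Ω) g.injective (by ext w; rfl)
    let f : RatFunc M →+* ψ.fieldRange :=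
      { toFun := fun r => ⟨ψ r, ⟨r, rfl⟩⟩
        map_one' := Subtype.ext (map_one ψ)
        map_mul' := fun _ _ => Subtype.ext (map_mul ψ _ _)
        map_zero' := Subtype.ext (map_zero ψ)
        map_add' := fun _ _ => Subtype.ext (map_add ψ _ _) }
    have hf : Function.Surjective f := by
      rintro ⟨w, r, hr⟩
      exact ⟨r, Subtype.ext hr⟩
    exact h1.of_ringHom_of_comp_eq f (RingHom.id Ω) hf Function.injective_id (by ext w; rfl)
  let L : IntermediateField (RatFunc M) Ω := IntermediateField.adjoin (RatFunc M) (Set.range x)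
  have : FiniteDimensional (RatFunc M) L :=
    IntermediateField.finiteDimensional_adjoin (fun z _ => (hint z).isIntegral)
  obtain ⟨D, hD0⟩ := exists_der M L
  obtain ⟨O, hO⟩ := exists_ord M L
  have hFL : ∀ c : F, algebraMap F Ω c ∈ L := by
    intro c
    rw [IsScalarTower.algebraMap_apply F M Ω, IsScalarTower.algebraMap_apply M (RatFunc M) Ω]
    exact L.algebraMap_mem _
  let E : IntermediateField F Ω :=
    { carrier := {z | z ∈ L}
      mul_mem' := fun h1 h2 => L.mul_mem h1 h2
      add_mem' := fun h1 h2 => L.add_mem h1 h2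
      algebraMap_mem' := hFL
      inv_mem' := fun _ h1 => L.inv_mem h1 }
  have hDF : ∀ (c : F) (z : L), D (⟨algebraMap F Ω c, hFL c⟩ * z) =
      ⟨algebraMap F Ω c, hFL c⟩ * D z := by
    intro c z
    have h1 : (⟨algebraMap F Ω c, hFL c⟩ : L) = algebraMap M L (algebraMap F M c) := by
      apply Subtype.ext
      change algebraMap F Ω c = algebraMap M Ω (algebraMap F M c)
      exact IsScalarTower.algebraMap_apply F M Ω c
    rw [h1, ← Algebra.smul_def, D.map_smul, Algebra.smul_def]
  let D1 : E →ₗ[F] E :=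
    { toFun := fun z => ⟨(D ⟨z.1, z.2⟩ : L).1, (D ⟨z.1, z.2⟩ : L).2⟩
      map_add' := fun u v => by
        apply Subtype.ext
        have h1 := D.map_add ⟨u.1, u.2⟩ ⟨v.1, v.2⟩
        exact congrArg Subtype.val h1
      map_smul' := fun c v => by
        apply Subtype.ext
        have h1 := hDF c ⟨v.1, v.2⟩
        have h2 : (c • v : E).1 = algebraMap F Ω c * v.1 := by
          rw [← Algebra.smul_def]; rfl
        have h3 : (⟨(c • v : E).1, (c • v : E).2⟩ : L) =
            ⟨algebraMap F Ω c, hFL c⟩ * ⟨v.1, v.2⟩ := Subtype.ext h2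
        change (D ⟨(c • v : E).1, (c • v : E).2⟩ : L).1 = _
        rw [h3, h1]
        change algebraMap F Ω c * (D ⟨v.1, v.2⟩ : L).1 = c • (D ⟨v.1, v.2⟩ : L).1
        rw [Algebra.smul_def] }
  let D' : Derivation F E E := Derivation.mk' D1 (fun u v => by
    apply Subtype.ext
    have h1 := D.leibniz (⟨u.1, u.2⟩ : L) ⟨v.1, v.2⟩
    exact congrArg Subtype.val h1)
  have hxL : ∀ i, x i ∈ L := fun i => IntermediateField.subset_adjoin _ _ ⟨i, rfl⟩
  have h1 := hD E (fun i => ⟨x i, hxL i⟩) (fun i => rfl) D'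
  have h2 : ∑ i, algebraMap M L (algebraMap F M (a i)) *
      (D (⟨x i, hxL i⟩ : L) / (⟨x i, hxL i⟩ : L)) = 0 := by
    apply Subtype.ext
    have h3 := congrArg (algebraMap E Ω) h1
    rw [map_sum, map_zero] at h3
    have h4 : ((∑ i, algebraMap M L (algebraMap F M (a i)) *
      (D (⟨x i, hxL i⟩ : L) / (⟨x i, hxL i⟩ : L)) : L) : Ω) =
      algebraMap L Ω (∑ i, algebraMap M L (algebraMap F M (a i)) *
      (D (⟨x i, hxL i⟩ : L) / (⟨x i, hxL i⟩ : L))) := rfl
    rw [h4, map_sum]
    refine Eq.trans ?_ h3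
    apply Finset.sum_congr rfl
    intro i _
    rw [map_mul, map_mul, map_div₀, map_div₀]
    have h5 : algebraMap L Ω (algebraMap M L (algebraMap F M (a i))) =
        algebraMap E Ω (algebraMap F E (a i)) := by
      change algebraMap M Ω (algebraMap F M (a i)) = algebraMap F Ω (a i)
      exact (IsScalarTower.algebraMap_apply F M Ω _).symm
    rw [h5]
    rfl
  have h3 := log_res O D hD0 (fun i => algebraMap F M (a i)) (fun i => (⟨x i, hxL i⟩ : L))
    (fun i h => hx i (congrArg Subtype.val h)) h2
  refine ⟨fun i => O.ord ⟨x i, hxL i⟩, ?_, ?_⟩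
  · apply (algebraMap F M).injective
    rw [map_sum, map_zero, ← h3]
    apply Finset.sum_congr rfl
    intro i _
    rw [map_zsmul]
  · have h4 : (⟨x i0, hxL i0⟩ : L) = algebraMap (RatFunc M) L RatFunc.X := by
      apply Subtype.ext
      change x i0 = ψ RatFunc.X
      rw [h0, hψX]
    change 0 < O.ord ⟨x i0, hxL i0⟩
    rw [h4]
    exact hO

theorem rosen {F Ω : Type*} [Field F] [Field Ω] [Algebra F Ω] [CharZero F] [IsAlgClosed Ω]
    {ι : Type*} [Fintype ι] (a : ι → F) (x : ι → Ω) (hx : ∀ i, x i ≠ 0)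
    (hD : ∀ (E : IntermediateField F Ω) (z : ι → E), (∀ i, (z i : Ω) = x i) →
      ∀ D : Derivation F E E, ∑ i, algebraMap F E (a i) * (D (z i) / z i) = 0)
    (i0 : ι) (ht : Transcendental F (x i0)) :
    ∃ m : ι → ℤ, (∑ i, m i • a i = 0) ∧ 0 < m i0 := by
  classical
  set y : Ω := x i0 with hy
  have hs : AlgebraicIndepOn F id ({y} : Set Ω) :=
    (algebraicIndependent_singleton_iff (⟨y, rfl⟩ : ({y} : Set Ω))).2 ht
  obtain ⟨T, hyT, hT⟩ := exists_isTranscendenceBasis_superset hs
  have hyT' : y ∈ T := hyT rfl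
  let K0 : IntermediateField F Ω := IntermediateField.adjoin F (T \ {y})
  have hyK0 : Transcendental K0 y := by
    rw [IntermediateField.transcendental_adjoin_iff]
    have h1 := hT.1.transcendental_adjoin (s := {i : T | i.1 ≠ y}) (i := ⟨y, hyT'⟩)
      (fun h => h rfl)
    have h2 : ((fun i : T => (i : Ω)) '' {i : T | i.1 ≠ y}) = T \ {y} := by
      ext z
      constructor
      · rintro ⟨i, hi, rfl⟩
        exact ⟨i.2, hi⟩
      · rintro ⟨hz1, hz2⟩
        exact ⟨⟨z, hz1⟩, hz2, rfl⟩
    rw [h2] at h1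
    exact h1
  let M1 : IntermediateField K0 Ω := algebraicClosure K0 Ω
  have hM1 : IsAlgClosed M1 := (algebraicClosure.isAlgClosure K0 Ω).isAlgClosed
  have hyM1 : Transcendental M1 y := hyK0.extendScalars M1
  have hTalg := hT.isAlgebraic_field
  have hscal : IsScalarTower F M1 Ω := IsScalarTower.of_algebraMap_eq (fun _ => rfl)
  refine rosen_core (M := M1) y hyM1 ?_ a x hx hD i0 rfl
  intro z
  let N : IntermediateField M1 Ω := IntermediateField.adjoin M1 {y}
  have hN : ∀ w : Ω, w ∈ IntermediateField.adjoin F (Set.range (fun i : T => (i : Ω))) →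
      w ∈ N := by
    intro w hw
    have hFN : ∀ c : F, algebraMap F Ω c ∈ N := by
      intro c
      have : algebraMap F Ω c = algebraMap M1 Ω (algebraMap F M1 c) := rfl
      rw [this]
      exact N.algebraMap_mem _
    let E : IntermediateField F Ω :=
      { carrier := {z | z ∈ N}
        mul_mem' := fun h1 h2 => N.mul_mem h1 h2
        add_mem' := fun h1 h2 => N.add_mem h1 h2
        algebraMap_mem' := hFN
        inv_mem' := fun _ h1 => N.inv_mem h1 }
    have hle : IntermediateField.adjoin F (Set.range (fun i : T => (i : Ω))) ≤ E := by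
      rw [IntermediateField.adjoin_le_iff]
      rintro _ ⟨t, rfl⟩
      change (t : Ω) ∈ N
      by_cases hty : (t : Ω) = y
      · rw [hty]
        exact IntermediateField.subset_adjoin _ _ rfl
      · have h1 : (t : Ω) ∈ K0 := IntermediateField.subset_adjoin _ _ ⟨t.2, hty⟩
        have h2 : (t : Ω) = algebraMap M1 Ω (algebraMap K0 M1 ⟨t, h1⟩) := rfl
        rw [h2]
        exact N.algebraMap_mem _
    exact hle hw
  let g : IntermediateField.adjoin F (Set.range (fun i : T => (i : Ω))) →+* N :=
    { toFun := fun w => ⟨w.1, hN w.1 w.2⟩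
      map_one' := rfl
      map_mul' := fun _ _ => rfl
      map_zero' := rfl
      map_add' := fun _ _ => rfl }
  exact (hTalg.isAlgebraic z).ringHom_of_comp_eq g (RingHom.id Ω) g.injective (by ext w; rfl)

end Pool.Agent.H98.FL
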