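import Pool.Agent.H98.FL.Defs

/-!
# Module Ultra: the ultraproduct

PROOF. For every `m : ℕ` choose `n^(m)` as in the hypothesis with `B = m` and an injective sequence
`(x^(m)_j, y^(m)_j)`, `j : ℕ`, of real solutions.  Let `F = Filter.Germ (Filter.hyperfilter ℕ) ℝ`
(a field, `Mathlib/Order/Filter/FilterProduct.lean`), `n_i` the germ of `m ↦ n^(m)_i`, and
`(X_j, Y_j)` the germs of `m ↦ (x^(m)_j, y^(m)_j)`.  `Sys` holds pointwise, i.e. in the ring
`ℕ → ℝ`, and the map `(ℕ → ℝ) → F` is a ring homomorphism (`Filter.Germ.coeRingHom`), so `Sys` holds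
in `F`.  The solutions for different `j` are different in `F` (for fixed `j ≠ j'` they differ for
every `m`; there are only finitely many coordinates, so one coordinate differs for ultrafilter
many `m`).  If `∑ w_ij n_i n_j = 0` in `F` for an integer matrix `w`, then
the equation holds for `n^(m)` for ultrafilter many `m`, in particular for some `m` with
`|w_ij| ≤ m` for all `i, j`; so `w_ij = 0` for `i < j` by `NoRel m n^(m)`.
`∑ n_i ≠ 0`, because `k > 0` and `n^(m)_i > 0`.
-/

namespace Pool.Agent.H98.FL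

private theorem ultra_sys_map {k : ℕ} {R S : Type*} [CommRing R] [CommRing S] (φ : R →+* S)
    {n : Fin k → R} {x y : Fin k → Fin k → R} (h : Sys n x y) :
    Sys (fun i => φ (n i)) (fun i j => φ (x i j)) (fun i j => φ (y i j)) := by
  obtain ⟨h1, h2, h3, h4⟩ := h
  refine ⟨fun i j => congrArg φ (h1 i j), fun i j => by rw [← map_mul, h2, map_one],
    fun i => (congrArg φ (h3 i)).trans (map_one φ), fun i j hij => ?_⟩
  have h := congrArg φ (h4 i j hij)
  rw [map_sum] at h
  simp only [map_mul, map_sub, map_one, map_sum, map_ofNat] at h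
  rw [h]
  apply Finset.sum_congr rfl
  intro l _
  split_ifs
  · exact map_zero φ
  · simp only [map_mul, map_sub, map_add, map_pow]

private theorem ultra_sys_pi {k : ℕ} {n : Fin k → ℕ → ℝ} {x y : Fin k → Fin k → ℕ → ℝ}
    (h : ∀ m, Sys (fun i => n i m) (fun i j => x i j m) (fun i j => y i j m)) : Sys n x y := by
  refine ⟨fun i j => funext fun m => (h m).1 i j, fun i j => funext fun m => (h m).2.1 i j,
    fun i => funext fun m => (h m).2.2.1 i, fun i j hij => funext fun m => ?_⟩
  have := (h m).2.2.2 i j hij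
  simp only [Pi.mul_apply, Finset.sum_apply, Pi.sub_apply, Pi.ofNat_apply]
  rw [this]
  apply Finset.sum_congr rfl
  intro l _
  split_ifs
  · rfl
  · simp only [Pi.mul_apply, Pi.sub_apply, Pi.add_apply, Pi.pow_apply]

theorem ultra {k : ℕ} (hk : 0 < k) (h : ∀ B : ℕ, ∃ n : Fin k → ℕ, (∀ i, 0 < n i) ∧ NoRel B n ∧
      {p : (Fin k → Fin k → ℝ) × (Fin k → Fin k → ℝ) |
        Sys (fun i => (n i : ℝ)) p.1 p.2}.Infinite) :
    ∃ (F : Type) (_ : Field F) (_ : CharZero F) (n : Fin k → F), (∑ i, n i) ≠ 0 ∧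
      (∀ w : Fin k → Fin k → ℤ,
        (∑ i, ∑ j ∈ Finset.Ioi i, (w i j : F) * (n i * n j)) = 0 → ∀ i j, i < j → w i j = 0) ∧
      {p : (Fin k → Fin k → F) × (Fin k → Fin k → F) | Sys n p.1 p.2}.Infinite := by
  classical
  choose n hpos hrel hinf using h
  have hseq : ∀ m : ℕ, ∃ q : ℕ → (Fin k → Fin k → ℝ) × (Fin k → Fin k → ℝ),
      Function.Injective q ∧ ∀ j, Sys (fun i => (n m i : ℝ)) (q j).1 (q j).2 := by
    intro m
    let e := Set.Infinite.natEmbedding _ (hinf m)
    refine ⟨fun j => (e j).1, ?_, fun j => (e j).2⟩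
    intro a b hab
    exact e.injective (Subtype.ext hab)
  choose q hq1 hq2 using hseq
  let U : Ultrafilter ℕ := Filter.hyperfilter ℕ
  let φ : (ℕ → ℝ) →+* Filter.Germ (U : Filter ℕ) ℝ := Filter.Germ.coeRingHom (U : Filter ℕ)
  have hφ : ∀ f : ℕ → ℝ, φ f = (f : Filter.Germ (U : Filter ℕ) ℝ) := fun f => rfl
  have heq : ∀ f g : ℕ → ℝ, φ f = φ g → ∀ᶠ m in (U : Filter ℕ), f m = g m := by
    intro f g hfg
    rw [hφ, hφ] at hfg
    exact Filter.Germ.coe_eq.1 hfg
  let F := Filter.Germ (U : Filter ℕ) ℝ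
  have hge : ∀ B : ℕ, ∀ᶠ m in (U : Filter ℕ), B ≤ m := by
    intro B
    exact Nat.hyperfilter_le_atTop (Filter.eventually_ge_atTop B)
  have hchar : CharZero F := by
    refine ⟨fun a b hab => ?_⟩
    have h1 : φ (fun _ => (a : ℝ)) = φ (fun _ => (b : ℝ)) := by
      have e1 : (fun _ : ℕ => (a : ℝ)) = ((a : ℕ) : ℕ → ℝ) := rfl
      have e2 : (fun _ : ℕ => (b : ℝ)) = ((b : ℕ) : ℕ → ℝ) := rfl
      rw [e1, e2, map_natCast, map_natCast]
      exact hab
    obtain ⟨m, hm⟩ := (heq _ _ h1).exists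
    exact_mod_cast hm
  refine ⟨F, inferInstance, hchar, fun i => φ (fun m => (n m i : ℝ)), ?_, ?_, ?_⟩
  · intro h0
    rw [← map_sum, ← map_zero φ] at h0
    obtain ⟨m, hm⟩ := (heq _ _ h0).exists
    simp only [Finset.sum_apply, Pi.zero_apply] at hm
    have h1 : 0 < ∑ i, (n m i : ℝ) := by
      apply Finset.sum_pos
      · intro i _
        exact_mod_cast hpos m i
      · exact ⟨⟨0, hk⟩, Finset.mem_univ _⟩
    exact absurd hm h1.ne'
  · intro w hw
    have h1 : φ (∑ i, ∑ j ∈ Finset.Ioi i, fun m => (w i j : ℝ) * ((n m i : ℝ) * (n m j : ℝ))) =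
        φ 0 := by
      rw [map_zero, ← hw, map_sum]
      apply Finset.sum_congr rfl
      intro i _
      rw [map_sum]
      apply Finset.sum_congr rfl
      intro j _
      have e1 : (fun m => (w i j : ℝ) * ((n m i : ℝ) * (n m j : ℝ))) =
        ((w i j : ℤ) : ℕ → ℝ) * ((fun m => (n m i : ℝ)) * (fun m => (n m j : ℝ))) := rfl
      rw [e1, map_mul, map_mul, map_intCast]
    obtain ⟨B, hB⟩ : ∃ B : ℕ, ∀ i j, |w i j| ≤ B := by
      refine ⟨∑ i, ∑ j, (w i j).natAbs, fun i j => ?_⟩
      have h2 : (w i j).natAbs ≤ ∑ i, ∑ j, (w i j).natAbs :=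
        (Finset.single_le_sum (f := fun j => (w i j).natAbs) (fun _ _ => Nat.zero_le _)
          (Finset.mem_univ j)).trans
        (Finset.single_le_sum (f := fun i => ∑ j, (w i j).natAbs) (fun _ _ => Nat.zero_le _)
          (Finset.mem_univ i))
      rw [Int.abs_eq_natAbs]
      exact_mod_cast h2
    obtain ⟨m, hm1, hm2⟩ := ((heq _ _ h1).and (hge B)).exists
    simp only [Finset.sum_apply, Pi.zero_apply] at hm1
    apply hrel m w
    · intro i j
      exact (hB i j).trans (by exact_mod_cast hm2)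
    · exact_mod_cast hm1
  · let G : ℕ → (Fin k → Fin k → F) × (Fin k → Fin k → F) := fun j =>
      (fun a b => φ (fun m => (q m j).1 a b), fun a b => φ (fun m => (q m j).2 a b))
    apply Set.infinite_of_injective_forall_mem (f := G)
    · intro j j' hjj
      by_contra hne
      have h1 : ∀ a b, ∀ᶠ m in (U : Filter ℕ), (q m j).1 a b = (q m j').1 a b := fun a b =>
        heq _ _ (congrFun (congrFun (congrArg Prod.fst hjj) a) b)
      have h2 : ∀ a b, ∀ᶠ m in (U : Filter ℕ), (q m j).2 a b = (q m j').2 a b := fun a b =>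
        heq _ _ (congrFun (congrFun (congrArg Prod.snd hjj) a) b)
      have h3 : ∀ᶠ m in (U : Filter ℕ), ∀ a b, (q m j).1 a b = (q m j').1 a b := by
        rw [Filter.eventually_all]
        intro a
        rw [Filter.eventually_all]
        intro b
        exact h1 a b
      have h4 : ∀ᶠ m in (U : Filter ℕ), ∀ a b, (q m j).2 a b = (q m j').2 a b := by
        rw [Filter.eventually_all]
        intro a
        rw [Filter.eventually_all]
        intro b
        exact h2 a b
      obtain ⟨m, hm3, hm4⟩ := (h3.and h4).exists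
      apply hne
      apply hq1 m
      ext a b
      · exact hm3 a b
      · exact hm4 a b
    · intro j
      exact ultra_sys_map φ (ultra_sys_pi (n := fun i m => (n m i : ℝ))
        (x := fun a b m => (q m j).1 a b) (y := fun a b m => (q m j).2 a b) (fun m => hq2 m j))

end Pool.Agent.H98.FL
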