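import Pool.Agent.H98.FL.Vol
import Pool.Agent.H98.FL.Rosen
import Pool.Agent.H98.FL.Pts
import Pool.Agent.H98.FL.Ultra

/-!
# Module AlgMain: finiteness of the algebraic system

Assembly of `vol`, `rosen`, `exists_transcendental`, `ultra` (helper98).
-/

namespace Pool.Agent.H98.FL

/-- `Sys` is preserved by ring homomorphisms. -/
theorem Sys.map {k : ℕ} {R S : Type*} [CommRing R] [CommRing S] (f : R →+* S) {n : Fin k → R}
    {x y : Fin k → Fin k → R} (h : Sys n x y) :
    Sys (fun i => f (n i)) (fun i j => f (x i j)) (fun i j => f (y i j)) := by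
  obtain ⟨h1, h2, h3, h4⟩ := h
  refine ⟨fun i j => congrArg f (h1 i j), fun i j => ?_, fun i => ?_, fun i j hij => ?_⟩
  · change f (x i j) * f (y i j) = 1
    rw [← map_mul, h2, map_one]
  · change f (x i i) = 1
    rw [h3, map_one]
  · have h5 := congrArg f (h4 i j hij)
    simp only [map_mul, map_sub, map_one, map_sum, map_ofNat, map_add, map_pow, apply_ite f,
      map_zero] at h5 ⊢
    exact h5

/-- `Sys` is reflected by injective ring homomorphisms. -/
theorem Sys.of_map {k : ℕ} {R S : Type*} [CommRing R] [CommRing S] (f : R →+* S)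
    (hf : Function.Injective f) {n : Fin k → R} {x y : Fin k → Fin k → R}
    (h : Sys (fun i => f (n i)) (fun i j => f (x i j)) (fun i j => f (y i j))) : Sys n x y := by
  obtain ⟨h1, h2, h3, h4⟩ := h
  refine ⟨fun i j => hf (h1 i j), fun i j => hf (by rw [map_mul, h2, map_one]),
    fun i => hf (by rw [map_one]; exact h3 i), fun i j hij => hf ?_⟩
  have h5 := h4 i j hij
  rw [map_sum]
  simp only [map_mul, map_sub, map_one, map_sum, map_ofNat, map_add, map_pow, apply_ite f,
    map_zero] at h5 ⊢
  exact h5

/-- the contradiction from an infinite solution set over a field with independent products -/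
theorem no_infinite {k : ℕ} {F : Type} [Field F] [CharZero F] (n : Fin k → F)
    (hN : (∑ i, n i) ≠ 0)
    (hw : ∀ w : Fin k → Fin k → ℤ,
        (∑ i, ∑ j ∈ Finset.Ioi i, (w i j : F) * (n i * n j)) = 0 → ∀ i j, i < j → w i j = 0)
    (hinf : {p : (Fin k → Fin k → F) × (Fin k → Fin k → F) | Sys n p.1 p.2}.Infinite) :
    False := by
  classical
  -- coordinates
  let ι := (Fin k × Fin k) ⊕ (Fin k × Fin k)
  let φ : (Fin k → Fin k → F) × (Fin k → Fin k → F) → (ι → F) :=
    fun p => Sum.elim (fun q => p.1 q.1 q.2) (fun q => p.2 q.1 q.2)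
  have hφ : Function.Injective φ := by
    intro p q h
    refine Prod.ext ?_ ?_
    · funext i j
      exact congrFun h (Sum.inl (i, j))
    · funext i j
      exact congrFun h (Sum.inr (i, j))
  obtain ⟨L, _, _, X, ⟨i1, hi1⟩, hX⟩ := exists_transcendental
    (φ '' {p : (Fin k → Fin k → F) × (Fin k → Fin k → F) | Sys n p.1 p.2})
    (hinf.image hφ.injOn)
  have hCL : CharZero L := charZero_of_injective_algebraMap (algebraMap F L).injective
  -- the system over L
  set x : Fin k → Fin k → L := fun i j => X (Sum.inl (i, j)) with hx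
  set y : Fin k → Fin k → L := fun i j => X (Sum.inr (i, j)) with hy
  let mx : Fin k → Fin k → MvPolynomial ι F := fun i j => MvPolynomial.X (Sum.inl (i, j))
  let my : Fin k → Fin k → MvPolynomial ι F := fun i j => MvPolynomial.X (Sum.inr (i, j))
  have key : ∀ p : MvPolynomial ι F,
      (∀ a b : Fin k → Fin k → F, Sys n a b → MvPolynomial.eval (φ (a, b)) p = 0) →
      MvPolynomial.aeval X p = 0 := by
    intro p hp
    refine hX p ?_
    rintro z ⟨⟨a, b⟩, hab, rfl⟩
    exact hp a b hab
  have hS : Sys (fun i => algebraMap F L (n i)) x y := by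
    refine ⟨fun i j => ?_, fun i j => ?_, fun i => ?_, fun i j hij => ?_⟩
    · have := key (mx i j - mx j i) (fun a b hab => by
        simp only [mx, map_sub, MvPolynomial.eval_X]
        exact sub_eq_zero.2 (hab.1 i j))
      simp only [mx, map_sub, MvPolynomial.aeval_X] at this
      exact sub_eq_zero.1 this
    · have := key (mx i j * my i j - 1) (fun a b hab => by
        simp only [mx, my, map_sub, map_mul, map_one, MvPolynomial.eval_X]
        exact sub_eq_zero.2 (hab.2.1 i j))
      simp only [mx, my, map_sub, map_mul, map_one, MvPolynomial.aeval_X] at this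
      exact sub_eq_zero.1 this
    · have := key (mx i i - 1) (fun a b hab => by
        simp only [mx, map_sub, map_one, MvPolynomial.eval_X]
        exact sub_eq_zero.2 (hab.2.2.1 i))
      simp only [mx, map_sub, map_one, MvPolynomial.aeval_X] at this
      exact sub_eq_zero.1 this
    · have := key (2 * (∑ l, MvPolynomial.C (n l)) * (1 - mx i j) -
          ∑ l, if l = i ∨ l = j then 0 else
            MvPolynomial.C (n l) * (mx i l ^ 2 + mx j l ^ 2 - mx i j ^ 2) * (my i l * my j l))
          (fun a b hab => by
        have h4 := hab.2.2.2 i j hij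
        simp only [mx, my, map_sub, map_mul, map_one, map_sum, map_ofNat, map_add, map_pow,
          apply_ite (MvPolynomial.eval (φ (a, b))), map_zero, MvPolynomial.eval_X,
          MvPolynomial.eval_C]
        exact sub_eq_zero.2 h4)
      simp only [mx, my, map_sub, map_mul, map_one, map_sum, map_ofNat, map_add, map_pow,
          apply_ite (MvPolynomial.aeval X), map_zero, MvPolynomial.aeval_X,
          MvPolynomial.aeval_C] at this
      exact sub_eq_zero.1 this
  -- a transcendental unknown x i j with i < j
  have hx0 : ∀ i j, x i j ≠ 0 := fun i j => left_ne_zero_of_mul_eq_one (hS.2.1 i j)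
  have hyx : ∀ i j, y i j = (x i j)⁻¹ := fun i j => eq_inv_of_mul_eq_one_right (hS.2.1 i j)
  have htr : ∃ i j : Fin k, i < j ∧ Transcendental F (x i j) := by
    have h1 : ∃ i j : Fin k, Transcendental F (x i j) := by
      rcases i1 with ⟨i, j⟩ | ⟨i, j⟩
      · exact ⟨i, j, hi1⟩
      · refine ⟨i, j, fun hal => hi1 ?_⟩
        have h2 : IsAlgebraic F (x i j)⁻¹ := hal.inv
        rw [← hyx] at h2
        exact h2
    obtain ⟨i, j, h⟩ := h1
    rcases lt_trichotomy i j with h2 | h2 | h2
    · exact ⟨i, j, h2, h⟩
    · exfalso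
      subst h2
      rw [hS.2.2.1 i] at h
      exact h isAlgebraic_one
    · refine ⟨j, i, h2, ?_⟩
      rw [hS.1 j i]; exact h
  obtain ⟨i₀, j₀, hij₀, ht⟩ := htr
  -- pass to the algebraic closure
  let Ω := AlgebraicClosure L
  let J := {q : Fin k × Fin k // q.1 < q.2}
  have hsum : ∀ {A : Type} [AddCommMonoid A] (f : Fin k → Fin k → A),
      ∑ q : J, f q.1.1 q.1.2 = ∑ i, ∑ j ∈ Finset.Ioi i, f i j := by
    intro A _ f
    rw [Finset.sum_sigma' Finset.univ (fun i => Finset.Ioi i) (fun i j => f i j)]
    refine Finset.sum_bij' (fun q _ => ⟨q.1.1, q.1.2⟩) (fun q hq => ⟨(q.1, q.2), ?_⟩) ?_ ?_ ?_ ?_ ?_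
    · simpa using hq
    · intro q _; simpa using q.2
    · intro q _; exact Finset.mem_univ _
    · intro q _; rfl
    · intro q _; rfl
    · intro q _; rfl
  obtain ⟨m, hm1, hm2⟩ := rosen (F := F) (Ω := Ω) (ι := J) (fun q => n q.1.1 * n q.1.2)
    (fun q => algebraMap L Ω (x q.1.1 q.1.2))
    (fun q => by rw [Ne, map_eq_zero]; exact hx0 _ _)
    (by
      intro E z hz D
      -- extend z to a solution of the system over E
      let x' : Fin k → Fin k → E := fun i j =>
        if h : i < j then z ⟨(i, j), h⟩ else if h : j < i then z ⟨(j, i), h⟩ else 1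
      have hx' : ∀ i j, (x' i j : Ω) = algebraMap L Ω (x i j) := by
        intro i j
        by_cases h : i < j
        · simp only [x', dif_pos h, hz]
        · by_cases h' : j < i
          · simp only [x', dif_neg h, dif_pos h', hz]
            rw [hS.1 j i]
          · have : i = j := le_antisymm (not_lt.1 h') (not_lt.1 h)
            subst this
            simp only [x', dif_neg h, hS.2.2.1 i, map_one]
            rfl
      let y' : Fin k → Fin k → E := fun i j => (x' i j)⁻¹
      have hy' : ∀ i j, (y' i j : Ω) = algebraMap L Ω (y i j) := by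
        intro i j
        simp only [y', hyx, map_inv₀]
        rw [← hx']
        rfl
      have hS' : Sys (fun i => algebraMap F E (n i)) x' y' := by
        refine Sys.of_map (algebraMap E Ω) (algebraMap E Ω).injective ?_
        have h1 := hS.map (algebraMap L Ω)
        have e1 : (fun i j => algebraMap E Ω (x' i j)) = fun i j => algebraMap L Ω (x i j) := by
          funext i j; exact hx' i j
        have e2 : (fun i j => algebraMap E Ω (y' i j)) = fun i j => algebraMap L Ω (y i j) := by
          funext i j; exact hy' i j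
        have e3 : (fun i => algebraMap E Ω (algebraMap F E (n i)))
            = fun i => algebraMap L Ω (algebraMap F L (n i)) := by
          funext i
          rw [← IsScalarTower.algebraMap_apply, ← IsScalarTower.algebraMap_apply]
        rw [e1, e2, e3]
        exact h1
      have hCE : CharZero E := charZero_of_injective_algebraMap (algebraMap F E).injective
      have hv := vol n hN x' y' hS' D
      rw [← hsum (fun i j => algebraMap F E (n i * n j) * (D (x' i j) / x' i j))] at hv
      rw [← hv]
      refine Finset.sum_congr rfl fun q _ => ?_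
      have : x' q.1.1 q.1.2 = z q := by
        simp only [x', dif_pos q.2]
        rfl
      rw [this])
    ⟨(i₀, j₀), hij₀⟩
    (by
      intro hal
      refine ht ?_
      exact (isAlgebraic_algebraMap_iff (algebraMap L Ω).injective).1 hal)
  -- conclusion
  let w : Fin k → Fin k → ℤ := fun i j => if h : i < j then m ⟨(i, j), h⟩ else 0
  have hw0 := hw w (by
    rw [← hm1, ← hsum (fun i j => (w i j : F) * (n i * n j))]
    refine Finset.sum_congr rfl fun q _ => ?_
    have : w q.1.1 q.1.2 = m q := by
      simp only [w, dif_pos q.2]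
      rfl
    rw [this, zsmul_eq_mul]) i₀ j₀ hij₀
  have : w i₀ j₀ = m ⟨(i₀, j₀), hij₀⟩ := by simp only [w, dif_pos hij₀]
  rw [this] at hw0
  rw [hw0] at hm2
  exact lt_irrefl 0 hm2

theorem finite_sys (k : ℕ) : ∃ B : ℕ, ∀ n : Fin k → ℕ, (∀ i, 0 < n i) → NoRel B n →
    {p : (Fin k → Fin k → ℝ) × (Fin k → Fin k → ℝ) | Sys (fun i => (n i : ℝ)) p.1 p.2}.Finite := by
  rcases Nat.eq_zero_or_pos k with rfl | hk
  · exact ⟨0, fun n _ _ => Set.toFinite _⟩
  by_contra hcon
  push Not at hcon
  obtain ⟨F, _, _, n, hN, hw, hinf⟩ := ultra hk (fun B => by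
    obtain ⟨n, h1, h2, h3⟩ := hcon B
    exact ⟨n, h1, h2, h3⟩)
  exact no_infinite n hN hw hinf

end Pool.Agent.H98.FL
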