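import Mathlib

/-!
# Invariant Einstein metrics on the flag manifolds SU(N)/S(U(n_1) x ... x U(n_k))

`n : Fin k → ℕ` are the block sizes, `N = n_1 + ... + n_k`, matrices are indexed by
`Idx n = Σ i, Fin (n i)`.  The Lie algebra su(N) is the orthogonal sum (Killing form) of the
isotropy algebra (block diagonal matrices) and of the space `mm n` of skew-Hermitian matrices
whose diagonal blocks vanish; `mm n` is the tangent space of the flag manifold at the base point
and invariant Riemannian metrics are the same as Ad(K)-invariant inner products on `mm n`.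
The Ricci curvature of an invariant metric on a compact homogeneous space is given by formula
(7.38) of Besse, Einstein manifolds, which is `ric` below.
-/

namespace Pool.Agent.H98.FL

open Matrix

/-- The index set of the rows and columns: pairs (block, position in the block). -/
abbrev Idx {k : ℕ} (n : Fin k → ℕ) : Type := Σ i : Fin k, Fin (n i)

/-- The matrices over the complex numbers indexed by `Idx n`. -/
abbrev Mat {k : ℕ} (n : Fin k → ℕ) : Type := Matrix (Idx n) (Idx n) ℂ

/-- The tangent space at the base point: skew-Hermitian matrices with vanishing diagonal blocks. -/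
def mm {k : ℕ} (n : Fin k → ℕ) : Submodule ℝ (Mat n) where
  carrier := {X | Xᴴ = -X ∧ ∀ a b : Idx n, a.1 = b.1 → X a b = 0}
  add_mem' := by
    rintro X Y ⟨hX, hX'⟩ ⟨hY, hY'⟩
    refine ⟨by rw [conjTranspose_add, hX, hY]; abel, fun a b h => ?_⟩
    rw [Matrix.add_apply, hX' a b h, hY' a b h, add_zero]
  zero_mem' := ⟨by simp, fun _ _ _ => rfl⟩
  smul_mem' := by
    rintro c X ⟨hX, hX'⟩
    refine ⟨?_, fun a b h => ?_⟩
    · rw [conjTranspose_smul, hX]; simp
    · rw [Matrix.smul_apply, hX' a b h, smul_zero]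

/-- The matrix with the diagonal blocks replaced by zero (orthogonal projection to `mm n`). -/
def off {k : ℕ} (n : Fin k → ℕ) (X : Mat n) : Mat n :=
  Matrix.of fun a b => if a.1 = b.1 then 0 else X a b

/-- The projection to `mm n` of the Lie bracket `[X, Y] = X Y - Y X`. -/
def brk {k : ℕ} {n : Fin k → ℕ} (X Y : mm n) : mm n :=
  ⟨off n ((X : Mat n) * (Y : Mat n) - (Y : Mat n) * (X : Mat n)), by
    obtain ⟨X, hX, hX'⟩ := X
    obtain ⟨Y, hY, hY'⟩ := Y
    refine ⟨?_, fun a b h => by simp [off, h]⟩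
    have h1 : (X * Y - Y * X)ᴴ = -(X * Y - Y * X) := by
      rw [conjTranspose_sub, conjTranspose_mul, conjTranspose_mul, hX, hY]
      simp
    ext a b
    have h2 := congrFun (congrFun h1 a) b
    simp only [off, conjTranspose_apply, Matrix.of_apply, Matrix.neg_apply] at h2 ⊢
    by_cases h : a.1 = b.1
    · simp [h]
    · rw [if_neg h, if_neg (fun h' => h h'.symm)]
      exact h2⟩

/-- The Killing form `B(X, Y) = 2 N tr (X Y)` of su(N) (a real number on skew-Hermitian
matrices), restricted to `mm n`. -/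
noncomputable def killing {k : ℕ} {n : Fin k → ℕ} (X Y : mm n) : ℝ :=
  2 * (∑ i, (n i : ℝ)) * (Matrix.trace ((X : Mat n) * (Y : Mat n))).re

/-- Invariant Riemannian metrics: Ad(K)-invariant inner products on `mm n`, where
`K = S(U(n_1) x ... x U(n_k))` is the group of block diagonal matrices in SU(N). -/
structure IsInvMetric {k : ℕ} (n : Fin k → ℕ) (g : LinearMap.BilinForm ℝ (mm n)) : Prop where
  symm : ∀ X Y, g X Y = g Y X
  pos : ∀ X, X ≠ 0 → 0 < g X X
  inv : ∀ U ∈ Matrix.specialUnitaryGroup (Idx n) ℂ, (∀ a b : Idx n, a.1 ≠ b.1 → U a b = 0) →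
    ∀ X Y X' Y' : mm n, (X' : Mat n) = U * (X : Mat n) * Uᴴ → (Y' : Mat n) = U * (Y : Mat n) * Uᴴ →
      g X' Y' = g X Y

/-- `e` is an orthonormal basis of `mm n` for `g`. -/
def IsONB {k : ℕ} {n : Fin k → ℕ} (g : LinearMap.BilinForm ℝ (mm n)) {m : ℕ}
    (e : Fin m → mm n) : Prop :=
  (∀ i j, g (e i) (e j) = if i = j then 1 else 0) ∧ Submodule.span ℝ (Set.range e) = ⊤

/-- The Ricci curvature `Ric(X, X)` of the invariant metric `g`, in terms of a `g`-orthonormal
basis `e` (it does not depend on the basis). -/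
noncomputable def ric {k : ℕ} {n : Fin k → ℕ} (g : LinearMap.BilinForm ℝ (mm n)) {m : ℕ}
    (e : Fin m → mm n) (X : mm n) : ℝ :=
  -(1 / 2) * ∑ j, g (brk X (e j)) (brk X (e j)) - (1 / 2) * killing X X
    + (1 / 4) * ∑ i, ∑ j, (g (brk (e i) (e j)) X) ^ 2

/-- Invariant Einstein metrics: `Ric = c g` for a constant `c`. -/
def IsEinstein {k : ℕ} (n : Fin k → ℕ) (g : LinearMap.BilinForm ℝ (mm n)) : Prop :=
  IsInvMetric n g ∧ ∃ (c : ℝ) (m : ℕ) (e : Fin m → mm n), IsONB g e ∧ ∀ X, ric g e X = c * g X X

/-- There are only finitely many invariant Einstein metrics up to homothety: finitely many inner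
products such that every invariant Einstein metric is a positive multiple of one of them. -/
def FinitelyMany {k : ℕ} (n : Fin k → ℕ) : Prop :=
  ∃ S : Set (LinearMap.BilinForm ℝ (mm n)), S.Finite ∧
    ∀ g, IsEinstein n g → ∃ g₀ ∈ S, ∃ c : ℝ, 0 < c ∧ g = c • g₀

/-! ### The algebraic system -/

/-- The Einstein equations (normalised to `c = 1/2`) over a commutative ring; `y` is the table of
the inverses of the unknowns `x`. -/
def Sys {k : ℕ} {R : Type*} [CommRing R] (n : Fin k → R) (x y : Fin k → Fin k → R) : Prop :=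
  (∀ i j, x i j = x j i) ∧ (∀ i j, x i j * y i j = 1) ∧ (∀ i, x i i = 1) ∧
    ∀ i j, i ≠ j → 2 * (∑ l, n l) * (1 - x i j) =
      ∑ l, if l = i ∨ l = j then 0 else
        n l * (x i l ^ 2 + x j l ^ 2 - x i j ^ 2) * (y i l * y j l)

/-- `n i * n j` for `i < j` have no nonzero integer relation with coefficients at most `B`. -/
def NoRel {k : ℕ} (B : ℕ) (n : Fin k → ℕ) : Prop :=
  ∀ w : Fin k → Fin k → ℤ, (∀ i j, |w i j| ≤ B) →
    (∑ i, ∑ j ∈ Finset.Ioi i, w i j * (n i * n j)) = 0 → ∀ i j, i < j → w i j = 0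

end Pool.Agent.H98.FL
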