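import Pool.Agent.H98.FL.Defs

/-!
# The diagonal metrics `gx` and the standard orthonormal bases (definitions)
-/

namespace Pool.Agent.H98.FL

open Matrix

variable {k : ℕ} (n : Fin k → ℕ)

/-- `N` as a real number. -/
noncomputable def NN : ℝ := ∑ i, (n i : ℝ)

/-- The inner product `∑ x_ij (-B)` on `mm n`, `x` a real symmetric table. -/
noncomputable def gx (x : Fin k → Fin k → ℝ) : LinearMap.BilinForm ℝ (mm n) :=
  LinearMap.mk₂ ℝ (fun X Y => 2 * NN n * ∑ a : Idx n, ∑ b : Idx n,
      x a.1 b.1 * ((X : Mat n) a b * star ((Y : Mat n) a b)).re)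
    (by
      intro X X' Y
      simp only [Submodule.coe_add, Matrix.add_apply, add_mul, Complex.add_re, mul_add,
        Finset.sum_add_distrib])
    (by
      intro c X Y
      have h : ∀ a b : Idx n, x a.1 b.1 *
          (((c • X : mm n) : Mat n) a b * star ((Y : Mat n) a b)).re
          = c * (x a.1 b.1 * ((X : Mat n) a b * star ((Y : Mat n) a b)).re) := by
        intro a b
        rw [Submodule.coe_smul, Matrix.smul_apply, Complex.real_smul, mul_assoc,
          Complex.re_ofReal_mul]
        ring
      simp only [h, ← Finset.mul_sum, smul_eq_mul]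
      ring)
    (by
      intro X Y Y'
      simp only [Submodule.coe_add, Matrix.add_apply, star_add, mul_add, Complex.add_re,
        Finset.sum_add_distrib])
    (by
      intro c X Y
      have h : ∀ a b : Idx n, x a.1 b.1 *
          ((X : Mat n) a b * star (((c • Y : mm n) : Mat n) a b)).re
          = c * (x a.1 b.1 * ((X : Mat n) a b * star ((Y : Mat n) a b)).re) := by
        intro a b
        rw [Submodule.coe_smul, Matrix.smul_apply, Complex.real_smul, star_mul', Complex.star_def,
          Complex.conj_ofReal, mul_left_comm, Complex.re_ofReal_mul]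
        ring
      simp only [h, ← Finset.mul_sum, smul_eq_mul]
      ring)

theorem gx_apply (x : Fin k → Fin k → ℝ) (X Y : mm n) :
    gx n x X Y = 2 * NN n * ∑ a : Idx n, ∑ b : Idx n,
      x a.1 b.1 * ((X : Mat n) a b * star ((Y : Mat n) a b)).re := rfl

/-- `E_ab - E_ba`. -/
noncomputable def rv {n : Fin k → ℕ} (a b : Idx n) (h : a.1 ≠ b.1) : mm n :=
  ⟨single a b 1 - single b a 1, by
    refine ⟨by simp, fun c d hcd => ?_⟩
    rw [Matrix.sub_apply, single_apply_of_ne, single_apply_of_ne, sub_zero]
    · rintro ⟨rfl, rfl⟩; exact h hcd.symm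
    · rintro ⟨rfl, rfl⟩; exact h hcd⟩

/-- `i (E_ab + E_ba)`. -/
noncomputable def iv {n : Fin k → ℕ} (a b : Idx n) (h : a.1 ≠ b.1) : mm n :=
  ⟨single a b Complex.I + single b a Complex.I, by
    refine ⟨by simp [Matrix.conjTranspose_single, Matrix.single_neg, add_comm],
      fun c d hcd => ?_⟩
    rw [Matrix.add_apply, single_apply_of_ne, single_apply_of_ne, add_zero]
    · rintro ⟨rfl, rfl⟩; exact h hcd.symm
    · rintro ⟨rfl, rfl⟩; exact h hcd⟩

/-- Pairs of indices in different blocks, the first in the lower block. -/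
abbrev Pr : Type := {p : Idx n × Idx n // p.1.1 < p.2.1}

/-- The standard basis, normalised for `gx n x`: `(E_ab - E_ba) / sqrt (4 N x_ab)` and
`i (E_ab + E_ba) / sqrt (4 N x_ab)`, where the block of `a` is lower than the block of `b`. -/
noncomputable def fb (x : Fin k → Fin k → ℝ) (q : Pr n × Bool) : mm n :=
  (Real.sqrt (4 * NN n * x q.1.1.1.1 q.1.1.2.1))⁻¹ •
    (if q.2 then rv q.1.1.1 q.1.1.2 (ne_of_lt q.1.2) else iv q.1.1.1 q.1.1.2 (ne_of_lt q.1.2))

end Pool.Agent.H98.FL
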