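import Mathlib

/-!
# Places of a function field of one variable over an algebraically closed field: interface

`Ord M L` collects what we need from a discrete valuation of `L` which is trivial on `M` and has
residue field `M`.  It is a structure on purpose, so that the modules LogRes and PlaceEx are
independent.
-/

namespace Pool.Agent.H98.FL

/-- A discrete valuation of `L`, trivial on `M`, with residue field `M`, whose valuation ring has
only bounded poles under every derivation over `M`. -/
structure Ord (M L : Type*) [Field M] [Field L] [Algebra M L] where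
  ord : L → ℤ
  ord_mul : ∀ u v : L, u ≠ 0 → v ≠ 0 → ord (u * v) = ord u + ord v
  ord_add : ∀ u v : L, u ≠ 0 → v ≠ 0 → u + v ≠ 0 → min (ord u) (ord v) ≤ ord (u + v)
  ord_const : ∀ c : M, c ≠ 0 → ord (algebraMap M L c) = 0
  unif : ∃ t : L, t ≠ 0 ∧ ord t = 1
  res : ∀ u : L, u ≠ 0 → 0 ≤ ord u →
    ∃ c : M, u - algebraMap M L c ≠ 0 → 1 ≤ ord (u - algebraMap M L c)
  bdd : ∀ D : Derivation M L L, ∃ s : ℤ, ∀ u : L, u ≠ 0 → 0 ≤ ord u → D u ≠ 0 → s ≤ ord (D u)

end Pool.Agent.H98.FL
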