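import Pool.Agent.H98.FL.Gx

/-!
# Module SchurA: Ad(K)-invariance, relations on the standard vectors

PROOF. First: invariance holds for all block diagonal UNITARY matrices `U`, not only for
determinant one: multiply `U` by a complex number `c` of modulus 1 with `c^N det U = 1`
(`N = card (Idx n)`; if the index set is empty there is nothing to prove); `U X U^*` does not change.
* Let `U = diag(u)` with `|u_a| = 1`: `U (E_ab) U^* = u_a conj(u_b) E_ab`.
* With `u_a = -1`, all other entries 1: `rv a b ↦ - rv a b`, `iv a b ↦ - iv a b`, while `rv c d`, `iv c d` are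
fixed if `a` is not in `{c, d}`.  So (1a): if `a` is not in `{c, d}` (or `b` is not in `{c, d}`), then the
inner products of `rv a b`, `iv a b` with `rv c d`, `iv c d` vanish.
* With `u_a = i`, others 1: `rv a b ↦ iv a b`, `iv a b ↦ - rv a b`.  So
`g (rv, rv) = g (iv, iv)` and `g (rv, iv) = - g (iv, rv)`, hence `g (rv, iv) = 0`.
* Let `U` be the permutation matrix of the transposition of `a` and `a'` in the same block: it maps `rv a b` to
`rv a' b` (`b` is in another block).  In the same way for `b`.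
(To compute `U X U^*` use `Matrix.diagonal` and `Equiv.Perm.permMatrix` / `Matrix.submatrix`.)
-/

namespace Pool.Agent.H98.FL

variable {k : ℕ} {n : Fin k → ℕ} {g : LinearMap.BilinForm ℝ (mm n)}

open Matrix

/-- `z E_ab - conj z E_ba` -/
noncomputable def zv (z : ℂ) (a b : Idx n) (h : a.1 ≠ b.1) : mm n :=
  ⟨single a b z - single b a (star z), by
    refine ⟨by simp, fun c d hcd => ?_⟩
    rw [Matrix.sub_apply, single_apply_of_ne, single_apply_of_ne, sub_zero]
    · rintro ⟨rfl, rfl⟩; exact h hcd.symm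
    · rintro ⟨rfl, rfl⟩; exact h hcd⟩

theorem zv_coe (z : ℂ) (a b : Idx n) (h : a.1 ≠ b.1) :
    (zv z a b h : Mat n) = single a b z - single b a (star z) := rfl

theorem rv_eq (a b : Idx n) (h : a.1 ≠ b.1) : rv a b h = zv 1 a b h := by
  apply Subtype.ext
  rw [zv_coe, star_one]
  rfl

theorem iv_eq (a b : Idx n) (h : a.1 ≠ b.1) : iv a b h = zv Complex.I a b h := by
  apply Subtype.ext
  rw [zv_coe]
  change single a b Complex.I + single b a Complex.I = _
  rw [Complex.star_def, Complex.conj_I, ← Matrix.single_neg, sub_neg_eq_add]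

theorem zv_neg (z : ℂ) (a b : Idx n) (h : a.1 ≠ b.1) : zv (-z) a b h = -zv z a b h := by
  apply Subtype.ext
  rw [Submodule.coe_neg, zv_coe, zv_coe, star_neg, ← Matrix.single_neg, ← Matrix.single_neg]
  abel

/-- invariance under block diagonal unitary matrices -/
theorem inv_unitary (hg : IsInvMetric n g) (U : Mat n) (hU : U ∈ Matrix.unitaryGroup (Idx n) ℂ)
    (hb : ∀ a b : Idx n, a.1 ≠ b.1 → U a b = 0) (X Y X' Y' : mm n)
    (hX : (X' : Mat n) = U * (X : Mat n) * Uᴴ) (hY : (Y' : Mat n) = U * (Y : Mat n) * Uᴴ) :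
    g X' Y' = g X Y := by
  rcases Nat.eq_zero_or_pos (Fintype.card (Idx n)) with h0 | h0
  · have : IsEmpty (Idx n) := Fintype.card_eq_zero_iff.1 h0
    refine hg.inv U ?_ hb X Y X' Y' hX hY
    rw [Matrix.mem_specialUnitaryGroup_iff]
    exact ⟨hU, Matrix.det_isEmpty⟩
  · obtain ⟨c, hc⟩ := IsAlgClosed.exists_pow_nat_eq (U.det)⁻¹ h0
    have hdet := Matrix.det_of_mem_unitary hU
    have hd1 : U.det * star U.det = 1 := (Unitary.mem_iff.1 hdet).2
    have hd0 : U.det ≠ 0 := by
      intro h
      rw [h, zero_mul] at hd1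
      exact zero_ne_one hd1
    have hdn : ‖U.det‖ = 1 := by
      have h1 : ‖U.det‖ * ‖U.det‖ = 1 := by
        have h2 := congrArg norm hd1
        rw [norm_mul, norm_star, norm_one] at h2
        exact h2
      nlinarith [norm_nonneg U.det]
    have hcn : ‖c‖ = 1 := by
      have h1 := congrArg norm hc
      rw [norm_pow, norm_inv, hdn, inv_one] at h1
      exact (pow_eq_one_iff_of_nonneg (norm_nonneg c) h0.ne').1 h1
    have hcc : c * star c = 1 := by
      rw [Complex.star_def, Complex.mul_conj, Complex.normSq_eq_norm_sq, hcn]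
      simp
    have hUU : U * star U = 1 := Matrix.mem_unitaryGroup_iff.1 hU
    have hconj : ∀ Z : Mat n, (c • U) * Z * (c • U)ᴴ = U * Z * Uᴴ := by
      intro Z
      rw [conjTranspose_smul, smul_mul_assoc, smul_mul_assoc, mul_smul_comm, smul_smul, hcc,
        one_smul]
    refine hg.inv (c • U) ?_ ?_ X Y X' Y' ?_ ?_
    · rw [Matrix.mem_specialUnitaryGroup_iff, Matrix.mem_unitaryGroup_iff]
      refine ⟨?_, ?_⟩
      · have h1 := hconj 1
        rw [mul_one, mul_one] at h1
        rw [star_eq_conjTranspose, h1, ← star_eq_conjTranspose]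
        exact hUU
      · rw [Matrix.det_smul, hc, inv_mul_cancel₀ hd0]
    · intro a b hab
      rw [Matrix.smul_apply, hb a b hab, smul_zero]
    · rw [hconj]
      exact hX
    · rw [hconj]
      exact hY

/-- invariance under diagonal matrices, on the standard vectors -/
theorem inv_diag (hg : IsInvMetric n g) (u : Idx n → ℂ) (hu : ∀ a, u a * star (u a) = 1)
    (z z' : ℂ) (a b c d : Idx n) (h : a.1 ≠ b.1) (h' : c.1 ≠ d.1) :
    g (zv (u a * z * star (u b)) a b h) (zv (u c * z' * star (u d)) c d h') =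
      g (zv z a b h) (zv z' c d h') := by
  have key : ∀ (w : ℂ) (p q : Idx n) (hpq : p.1 ≠ q.1),
      (zv (u p * w * star (u q)) p q hpq : Mat n) =
        diagonal u * (zv w p q hpq : Mat n) * (diagonal u)ᴴ := by
    intro w p q hpq
    ext x y
    rw [diagonal_conjTranspose, mul_diagonal, diagonal_mul, zv_coe, zv_coe, Matrix.sub_apply,
      Matrix.sub_apply, single_apply, single_apply, single_apply, single_apply, Pi.star_apply]
    by_cases h1 : p = x ∧ q = y
    · obtain ⟨rfl, rfl⟩ := h1
      have h2 : ¬ (q = p ∧ p = q) := by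
        rintro ⟨h3, _⟩
        exact hpq (by rw [h3])
      rw [if_pos ⟨rfl, rfl⟩, if_neg h2, if_pos ⟨rfl, rfl⟩, if_neg h2]
      ring
    · by_cases h2 : q = x ∧ p = y
      · obtain ⟨rfl, rfl⟩ := h2
        rw [if_neg h1, if_pos ⟨rfl, rfl⟩, if_neg h1, if_pos ⟨rfl, rfl⟩]
        rw [star_mul', star_mul', star_star]
        ring
      · rw [if_neg h1, if_neg h2, if_neg h1, if_neg h2]
        ring
  refine inv_unitary hg (diagonal u) ?_ ?_ _ _ _ _ (key _ _ _ _) (key _ _ _ _)
  · rw [Matrix.mem_unitaryGroup_iff, star_eq_conjTranspose, diagonal_conjTranspose,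
      diagonal_mul_diagonal, ← diagonal_one]
    congr 1
    funext x
    exact hu x
  · intro x y hxy
    exact diagonal_apply_ne _ (fun h => hxy (by rw [h]))

/-- invariance under permutations that preserve the blocks -/
theorem inv_perm (hg : IsInvMetric n g) (σ : Equiv.Perm (Idx n)) (hσ : ∀ a, (σ a).1 = a.1)
    (z z' : ℂ) (a b c d : Idx n) (h : a.1 ≠ b.1) (h' : c.1 ≠ d.1)
    (hσ1 : (σ a).1 ≠ (σ b).1) (hσ2 : (σ c).1 ≠ (σ d).1) :
    g (zv z (σ a) (σ b) hσ1) (zv z' (σ c) (σ d) hσ2) = g (zv z a b h) (zv z' c d h') := by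
  set U : Mat n := Matrix.of fun x y => if x = σ y then 1 else 0 with hU
  have hUX : ∀ (X : Mat n) (x y : Idx n), (U * X * Uᴴ) x y = X (σ.symm x) (σ.symm y) := by
    intro X x y
    have h1 : ∀ (M : Mat n) (x y : Idx n), (U * M) x y = M (σ.symm x) y := by
      intro M x y
      rw [Matrix.mul_apply, Finset.sum_eq_single (σ.symm x)]
      · rw [hU, Matrix.of_apply, if_pos (σ.apply_symm_apply x).symm, one_mul]
      · intro e _ he
        rw [hU, Matrix.of_apply, if_neg, zero_mul]
        rintro rfl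
        exact he (σ.symm_apply_apply e).symm
      · intro hx
        exact absurd (Finset.mem_univ _) hx
    have h2 : ∀ (M : Mat n) (x y : Idx n), (M * Uᴴ) x y = M x (σ.symm y) := by
      intro M x y
      rw [Matrix.mul_apply, Finset.sum_eq_single (σ.symm y)]
      · rw [conjTranspose_apply, hU, Matrix.of_apply, if_pos (σ.apply_symm_apply y).symm,
          star_one, mul_one]
      · intro e _ he
        rw [conjTranspose_apply, hU, Matrix.of_apply, if_neg, star_zero, mul_zero]
        rintro rfl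
        exact he (σ.symm_apply_apply e).symm
      · intro hx
        exact absurd (Finset.mem_univ _) hx
    rw [h2, h1]
  have key : ∀ (w : ℂ) (p q : Idx n) (hpq : p.1 ≠ q.1) (hpq' : (σ p).1 ≠ (σ q).1),
      (zv w (σ p) (σ q) hpq' : Mat n) = U * (zv w p q hpq : Mat n) * Uᴴ := by
    intro w p q hpq hpq'
    ext x y
    rw [hUX, zv_coe, zv_coe, Matrix.sub_apply,
      Matrix.sub_apply, single_apply, single_apply, single_apply, single_apply]
    have e1 : ∀ p x : Idx n, (σ p = x) = (p = σ.symm x) := by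
      intro p x
      rw [eq_iff_iff]
      constructor
      · rintro rfl
        exact (σ.symm_apply_apply p).symm
      · rintro rfl
        exact σ.apply_symm_apply x
    simp only [e1]
  refine inv_unitary hg U ?_ ?_ _ _ _ _ (key _ _ _ _ _) (key _ _ _ _ _)
  · rw [Matrix.mem_unitaryGroup_iff, star_eq_conjTranspose]
    have h1 : U * Uᴴ = U * 1 * Uᴴ := by rw [mul_one]
    rw [h1]
    ext x y
    rw [hUX, Matrix.one_apply, Matrix.one_apply]
    by_cases hxy : x = y
    · rw [if_pos hxy, if_pos (by rw [hxy])]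
    · rw [if_neg hxy, if_neg (fun h => hxy (σ.symm.injective h))]
  · intro x y hxy
    rw [hU, Matrix.of_apply, if_neg]
    rintro rfl
    exact hxy (hσ y)

theorem zv_ne (hg : IsInvMetric n g) (z z' : ℂ) (a b c d : Idx n) (h : a.1 ≠ b.1)
    (h' : c.1 ≠ d.1) (hne : ¬ (a = c ∧ b = d)) (hne' : ¬ (a = d ∧ b = c)) :
    g (zv z a b h) (zv z' c d h') = 0 := by
  have hab : a ≠ b := fun h0 => h (by rw [h0])
  -- a sign at the index `p`
  have hsign : ∀ p : Idx n, ∀ x : Idx n, (if x = p then (-1 : ℂ) else 1) *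
      star (if x = p then (-1 : ℂ) else 1) = 1 := by
    intro p x
    by_cases hx : x = p
    · rw [if_pos hx]; simp
    · rw [if_neg hx]; simp
  by_cases hA : a = c ∨ a = d
  · have hB : b ≠ c ∧ b ≠ d := by
      constructor
      · rintro rfl
        rcases hA with h1 | h1
        · exact hab h1
        · exact hne' ⟨h1, rfl⟩
      · rintro rfl
        rcases hA with h1 | h1
        · exact hne ⟨h1, rfl⟩
        · exact hab h1
    have h1 := inv_diag hg (fun x => if x = b then (-1 : ℂ) else 1) (hsign b) z z' a b c d h h'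
    rw [if_neg hab, if_pos rfl, if_neg hB.1.symm, if_neg hB.2.symm, one_mul, one_mul, star_one,
      mul_one, star_neg, star_one, mul_neg_one, zv_neg, map_neg, LinearMap.neg_apply] at h1
    linarith
  · have hA' : a ≠ c ∧ a ≠ d := ⟨fun h1 => hA (Or.inl h1), fun h1 => hA (Or.inr h1)⟩
    have h1 := inv_diag hg (fun x => if x = a then (-1 : ℂ) else 1) (hsign a) z z' a b c d h h'
    rw [if_pos rfl, if_neg hab.symm, if_neg hA'.1.symm, if_neg hA'.2.symm, one_mul, star_one,
      mul_one, mul_one, neg_one_mul, zv_neg, map_neg, LinearMap.neg_apply] at h1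
    linarith

theorem schur_ne (hg : IsInvMetric n g) (a b c d : Idx n) (h : a.1 ≠ b.1) (h' : c.1 ≠ d.1)
    (hne : ¬ (a = c ∧ b = d)) (hne' : ¬ (a = d ∧ b = c)) :
    g (rv a b h) (rv c d h') = 0 ∧ g (rv a b h) (iv c d h') = 0 ∧
      g (iv a b h) (rv c d h') = 0 ∧ g (iv a b h) (iv c d h') = 0 := by
  rw [rv_eq, iv_eq, rv_eq, iv_eq]
  exact ⟨zv_ne hg _ _ _ _ _ _ _ _ hne hne', zv_ne hg _ _ _ _ _ _ _ _ hne hne',
    zv_ne hg _ _ _ _ _ _ _ _ hne hne', zv_ne hg _ _ _ _ _ _ _ _ hne hne'⟩

theorem schur_ri (hg : IsInvMetric n g) (a b : Idx n) (h : a.1 ≠ b.1) :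
    g (rv a b h) (iv a b h) = 0 ∧ g (iv a b h) (rv a b h) = 0 ∧
      g (iv a b h) (iv a b h) = g (rv a b h) (rv a b h) := by
  have hba : b ≠ a := fun h0 => h (by rw [h0])
  have hu : ∀ x : Idx n, (if x = a then Complex.I else 1) *
      star (if x = a then Complex.I else 1) = 1 := by
    intro x
    by_cases hx : x = a
    · rw [if_pos hx]; simp
    · rw [if_neg hx]; simp
  have key : ∀ z z' : ℂ, g (zv (Complex.I * z) a b h) (zv (Complex.I * z') a b h) =
      g (zv z a b h) (zv z' a b h) := by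
    intro z z'
    have h1 := inv_diag hg (fun x => if x = a then Complex.I else 1) hu z z' a b a b h h
    rw [if_pos rfl, if_neg hba, star_one, mul_one, mul_one] at h1
    exact h1
  rw [rv_eq, iv_eq]
  have h1 := key 1 Complex.I
  rw [mul_one, Complex.I_mul_I, zv_neg, map_neg] at h1
  have h2 := hg.symm (zv Complex.I a b h) (zv 1 a b h)
  have h3 := key 1 1
  rw [mul_one] at h3
  refine ⟨by linarith, by linarith, h3⟩

theorem schur_block (hg : IsInvMetric n g) (a b c d : Idx n) (h : a.1 ≠ b.1) (h' : c.1 ≠ d.1)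
    (hac : a.1 = c.1) (hbd : b.1 = d.1) :
    g (rv a b h) (rv a b h) = g (rv c d h') (rv c d h') := by
  classical
  set σ : Equiv.Perm (Idx n) := Equiv.swap a c * Equiv.swap b d with hσ
  have hswap : ∀ p q : Idx n, p.1 = q.1 → ∀ x : Idx n, (Equiv.swap p q x).1 = x.1 := by
    intro p q hpq x
    by_cases h1 : x = p
    · rw [h1, Equiv.swap_apply_left, hpq]
    · by_cases h2 : x = q
      · rw [h2, Equiv.swap_apply_right, hpq]
      · rw [Equiv.swap_apply_of_ne_of_ne h1 h2]
  have hσ1 : ∀ x, (σ x).1 = x.1 := by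
    intro x
    rw [hσ, Equiv.Perm.mul_apply, hswap a c hac, hswap b d hbd]
  have hne : ∀ p q : Idx n, p.1 ≠ q.1 → p ≠ q := fun p q hpq h0 => hpq (by rw [h0])
  have ha : σ a = c := by
    rw [hσ, Equiv.Perm.mul_apply, Equiv.swap_apply_of_ne_of_ne (hne _ _ h)
      (hne _ _ (hbd ▸ h)), Equiv.swap_apply_left]
  have hb : σ b = d := by
    rw [hσ, Equiv.Perm.mul_apply, Equiv.swap_apply_left, Equiv.swap_apply_of_ne_of_ne
      (hne _ _ (by rw [← hbd]; exact h.symm)) (hne _ _ h'.symm)]
  have h1 := inv_perm hg σ hσ1 1 1 a b a b h h (by rw [hσ1, hσ1]; exact h)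
    (by rw [hσ1, hσ1]; exact h)
  rw [rv_eq, rv_eq, ← h1]
  simp only [ha, hb]

end Pool.Agent.H98.FL
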