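import Pool.Agent.H98.FL.SchurA
import Pool.Agent.H98.FL.Expand

/-!
# Module SchurB: invariant metrics are the `gx`

PROOF. If `k ≤ 1` then `mm n` is trivial and `x = 1` works (both forms are zero; use `expand`).  In
general choose `a_i` in every block (`hn`), put `x i i = 1` and for `i ≠ j`
`x i j = g (rv a_i a_j) (rv a_i a_j) / (4 N)`; `N > 0`.  It is symmetric because `rv b a = - rv a b`, and positive
(`rv a b ≠ 0`).  Expand `X` and `Y` by `expand`; by `schur_ne`, `schur_ri`, `schur_block`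
`g X Y = ∑ over p = (a, b) in Pr of 4 N x (Re X_ab Re Y_ab + Im X_ab Im Y_ab)`, and
`gx n x X Y = 2 N ∑ over ordered pairs (a, b) of x Re (X_ab conj Y_ab)`: the ordered pairs
`(a, b)` and `(b, a)` give the same summand and pairs in the same block give zero.
(Both forms can also be compared on pairs of standard vectors only, by `expand` and
bilinearity.)
-/

namespace Pool.Agent.H98.FL

private theorem sb_rv {k : ℕ} {n : Fin k → ℕ} (c d : Idx n) (h : c.1 ≠ d.1) (a b : Idx n) :
    (rv c d h : Mat n) a b = (if c = a ∧ d = b then 1 else 0) - (if d = a ∧ c = b then 1 else 0) := by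
  simp only [rv, Matrix.sub_apply, Matrix.single_apply]

private theorem sb_iv {k : ℕ} {n : Fin k → ℕ} (c d : Idx n) (h : c.1 ≠ d.1) (a b : Idx n) :
    (iv c d h : Mat n) a b = (if c = a ∧ d = b then Complex.I else 0)
      + (if d = a ∧ c = b then Complex.I else 0) := by
  simp only [iv, Matrix.add_apply, Matrix.single_apply]

private theorem sb_conj {k : ℕ} {n : Fin k → ℕ} (X : mm n) (a b : Idx n) :
    (X : Mat n) b a = - star ((X : Mat n) a b) := by
  have h := congrFun (congrFun X.2.1 b) a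
  rw [Matrix.conjTranspose_apply, Matrix.neg_apply] at h
  rw [h, neg_neg]

private theorem sb_gx_rv {k : ℕ} {n : Fin k → ℕ} {x : Fin k → Fin k → ℝ}
    (hx : ∀ i j, x i j = x j i) (X : mm n) (c d : Idx n) (h : c.1 ≠ d.1) :
    gx n x X (rv c d h) = 4 * NN n * x c.1 d.1 * ((X : Mat n) c d).re := by
  rw [gx_apply]
  have e : ∀ a b : Idx n, x a.1 b.1 * ((X : Mat n) a b * star ((rv c d h : Mat n) a b)).re
      = (if c = a ∧ d = b then x a.1 b.1 * ((X : Mat n) a b).re else 0)
        - (if d = a ∧ c = b then x a.1 b.1 * ((X : Mat n) a b).re else 0) := by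
    intro a b
    rw [sb_rv]
    by_cases h1 : (c = a ∧ d = b)
    · have h2 : ¬ (d = a ∧ c = b) := fun e => h (by rw [h1.1, e.1])
      rw [if_pos h1, if_neg h2, if_pos h1, if_neg h2]
      simp
    · rw [if_neg h1, if_neg h1]
      by_cases h2 : (d = a ∧ c = b)
      · rw [if_pos h2, if_pos h2]; simp
      · rw [if_neg h2, if_neg h2]; simp
  simp only [e, Finset.sum_sub_distrib]
  simp only [ite_and, Finset.sum_ite_irrel, Finset.sum_ite_eq, Finset.mem_univ, if_true,
    Finset.sum_const_zero]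
  rw [sb_conj X c d, hx d.1 c.1]
  simp only [Complex.neg_re, Complex.star_def, Complex.conj_re]
  ring

private theorem sb_gx_iv {k : ℕ} {n : Fin k → ℕ} {x : Fin k → Fin k → ℝ}
    (hx : ∀ i j, x i j = x j i) (X : mm n) (c d : Idx n) (h : c.1 ≠ d.1) :
    gx n x X (iv c d h) = 4 * NN n * x c.1 d.1 * ((X : Mat n) c d).im := by
  rw [gx_apply]
  have e : ∀ a b : Idx n, x a.1 b.1 * ((X : Mat n) a b * star ((iv c d h : Mat n) a b)).re
      = (if c = a ∧ d = b then x a.1 b.1 * ((X : Mat n) a b).im else 0)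
        + (if d = a ∧ c = b then x a.1 b.1 * ((X : Mat n) a b).im else 0) := by
    intro a b
    rw [sb_iv]
    by_cases h1 : (c = a ∧ d = b)
    · have h2 : ¬ (d = a ∧ c = b) := fun e => h (by rw [h1.1, e.1])
      rw [if_pos h1, if_neg h2, if_pos h1, if_neg h2]
      simp
    · rw [if_neg h1, if_neg h1]
      by_cases h2 : (d = a ∧ c = b)
      · rw [if_pos h2, if_pos h2]; simp
      · rw [if_neg h2, if_neg h2]; simp
  simp only [e, Finset.sum_add_distrib]
  simp only [ite_and, Finset.sum_ite_irrel, Finset.sum_ite_eq, Finset.mem_univ, if_true,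
    Finset.sum_const_zero]
  rw [sb_conj X c d, hx d.1 c.1]
  simp only [Complex.neg_im, Complex.star_def, Complex.conj_im]
  ring

theorem schur {k : ℕ} (n : Fin k → ℕ) (hn : ∀ i, 0 < n i) (g : LinearMap.BilinForm ℝ (mm n))
    (hg : IsInvMetric n g) :
    ∃ x : Fin k → Fin k → ℝ, (∀ i j, x i j = x j i) ∧ (∀ i, x i i = 1) ∧ (∀ i j, 0 < x i j) ∧
      g = gx n x := by
  classical
  have hN : ∀ i : Fin k, 0 < NN n := fun i =>
    Finset.sum_pos (fun j _ => Nat.cast_pos.2 (hn j)) ⟨i, Finset.mem_univ i⟩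
  let a : ∀ i : Fin k, Idx n := fun i => ⟨i, ⟨0, hn i⟩⟩
  let x : Fin k → Fin k → ℝ := fun i j => if h : i = j then 1 else
    g (rv (a i) (a j) h) (rv (a i) (a j) h) / (4 * NN n)
  have hxs : ∀ i j, x i j = x j i := by
    intro i j
    by_cases h : i = j
    · rw [h]
    · have h' : ¬ j = i := fun e => h e.symm
      have e : rv (a j) (a i) h' = - rv (a i) (a j) h := by
        apply Subtype.ext
        ext c d
        rw [Submodule.coe_neg, Matrix.neg_apply, sb_rv, sb_rv]
        ring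
      simp only [x, dif_neg h, dif_neg h', e]
      simp only [map_neg, LinearMap.neg_apply, neg_neg]
  have hx1 : ∀ i, x i i = 1 := fun i => by simp [x]
  have hx0 : ∀ i j, 0 < x i j := by
    intro i j
    by_cases h : i = j
    · rw [h, hx1]; exact one_pos
    · simp only [x, dif_neg h]
      refine div_pos (hg.pos _ fun e => ?_) (mul_pos four_pos (hN i))
      have e2 := congrArg (fun Z : mm n => (Z : Mat n) (a i) (a j)) e
      have hne : ¬ (a j = a i) := fun e => h (congrArg Sigma.fst e).symm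
      simp only [sb_rv, and_self, if_true, hne, false_and, if_false, sub_zero] at e2
      exact one_ne_zero e2
  have hxg : ∀ p : Pr n, g (rv p.1.1 p.1.2 (ne_of_lt p.2)) (rv p.1.1 p.1.2 (ne_of_lt p.2))
      = 4 * NN n * x p.1.1.1 p.1.2.1 := by
    intro p
    have hne : ¬ (p.1.1.1 = p.1.2.1) := ne_of_lt p.2
    have e := schur_block hg p.1.1 p.1.2 (a p.1.1.1) (a p.1.2.1) (ne_of_lt p.2) hne rfl rfl
    rw [e]
    simp only [x, dif_neg hne]
    have := hN p.1.1.1
    field_simp
  refine ⟨x, hxs, hx1, hx0, ?_⟩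
  -- the standard vectors span
  let w : Pr n × Bool → mm n := fun q =>
    if q.2 then rv q.1.1.1 q.1.1.2 (ne_of_lt q.1.2) else iv q.1.1.1 q.1.1.2 (ne_of_lt q.1.2)
  have hw : Submodule.span ℝ (Set.range w) = ⊤ := by
    rw [eq_top_iff]
    intro X _
    rw [expand X]
    refine Submodule.sum_mem _ fun p _ => Submodule.add_mem _ ?_ ?_
    · exact Submodule.smul_mem _ _ (Submodule.subset_span ⟨(p, true), by simp [w]⟩)
    · exact Submodule.smul_mem _ _ (Submodule.subset_span ⟨(p, false), by simp [w]⟩)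
  have key : ∀ p p' : Pr n, (p ≠ p') →
      ¬ (p.1.1 = p'.1.1 ∧ p.1.2 = p'.1.2) ∧ ¬ (p.1.1 = p'.1.2 ∧ p.1.2 = p'.1.1) := by
    intro p p' hpp
    refine ⟨fun e => hpp (Subtype.ext (Prod.ext e.1 e.2)), fun e => ?_⟩
    have h1 := p.2
    rw [e.1, e.2] at h1
    exact lt_asymm h1 p'.2
  refine LinearMap.ext_on hw ?_
  rintro _ ⟨⟨p, b⟩, rfl⟩
  refine LinearMap.ext_on hw ?_
  rintro _ ⟨⟨p', b'⟩, rfl⟩
  have hself : ¬ (p.1.2 = p.1.1) := fun e => by
    have h1 := p.2
    rw [e] at h1
    exact lt_irrefl _ h1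
  by_cases hpp : p = p'
  · subst hpp
    have hri := schur_ri hg p.1.1 p.1.2 (ne_of_lt p.2)
    cases b <;> cases b' <;> simp only [w, if_true, if_false, Bool.false_eq_true]
    · rw [sb_gx_iv hxs, sb_iv, hri.2.2, hxg]
      simp [hself]
    · rw [sb_gx_rv hxs, sb_iv, hri.2.1]
      simp [hself]
    · rw [sb_gx_iv hxs, sb_rv, hri.1]
      simp [hself]
    · rw [sb_gx_rv hxs, sb_rv, hxg]
      simp [hself]
  · obtain ⟨h1, h2⟩ := key p p' hpp
    have hs := schur_ne hg p.1.1 p.1.2 p'.1.1 p'.1.2 (ne_of_lt p.2) (ne_of_lt p'.2) h1 h2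
    have h2' : ¬ (p.1.2 = p'.1.1 ∧ p.1.1 = p'.1.2) := fun e => h2 ⟨e.2, e.1⟩
    cases b <;> cases b' <;> simp only [w, if_true, if_false, Bool.false_eq_true]
    · rw [sb_gx_iv hxs, sb_iv, hs.2.2.2, if_neg h1, if_neg h2']
      simp
    · rw [sb_gx_rv hxs, sb_iv, hs.2.2.1, if_neg h1, if_neg h2']
      simp
    · rw [sb_gx_iv hxs, sb_rv, hs.2.1, if_neg h1, if_neg h2']
      simp
    · rw [sb_gx_rv hxs, sb_rv, hs.1, if_neg h1, if_neg h2']
      simp

end Pool.Agent.H98.FL
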