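import Mathlib

/-!
# Invariant Einstein metrics on the flag manifolds SU(N)/S(U(n_1) x ... x U(n_k))

`n : Fin k → ℕ` are the block sizes, `N = n_1 + ... + n_k`, matrices are indexed by
`Ind n = Σ i, Fin (n i)`.  The Lie algebra su(N) is the orthogonal sum (Killing form) of the
isotropy algebra (block diagonal matrices) and of the space of all skew-Hermitian matrices
whose diagonal blocks vanish (predicate `Tangent`); this space is the tangent space of the flag
manifold at the base point and invariant Riemannian metrics are the same as Ad(K)-invariant inner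
products on it.  The Ricci curvature of an invariant metric on a compact homogeneous space is given
by formula (7.38) of Besse, Einstein manifolds, which is `ricci` below.
-/

namespace Pool.Agent.H98.FL.Stmt

open Matrix

/-- The index set of the rows and columns: pairs (block, position in the block). -/
abbrev Ind {k : ℕ} (n : Fin k → ℕ) : Type := Σ i : Fin k, Fin (n i)

/-- The complex matrices indexed by `Ind n`. -/
abbrev CMat {k : ℕ} (n : Fin k → ℕ) : Type := Matrix (Ind n) (Ind n) ℂ

/-- Tangent vectors at the base point: skew-Hermitian matrices with vanishing diagonal blocks. -/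
def Tangent {k : ℕ} (n : Fin k → ℕ) (X : CMat n) : Prop :=
  Xᴴ = -X ∧ ∀ a b : Ind n, a.1 = b.1 → X a b = 0

/-- The matrix with its diagonal blocks replaced by zero. -/
def offDiag {k : ℕ} (n : Fin k → ℕ) (X : CMat n) : CMat n :=
  Matrix.of fun a b => if a.1 = b.1 then 0 else X a b

/-- The projection to the tangent space of the Lie bracket `[X, Y] = X Y - Y X`. -/
def bracket {k : ℕ} (n : Fin k → ℕ) (X Y : CMat n) : CMat n :=
  offDiag n (X * Y - Y * X)

/-- The Killing form `B(X, Y) = 2 N tr (X Y)` of su(N) (a real number on skew-Hermitian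
matrices). -/
noncomputable def killingForm {k : ℕ} (n : Fin k → ℕ) (X Y : CMat n) : ℝ :=
  2 * (∑ i, (n i : ℝ)) * (Matrix.trace (X * Y)).re

/-- The isotropy group `K = S(U(n_1) x ... x U(n_k))`: block diagonal matrices in SU(N). -/
def Isotropy {k : ℕ} (n : Fin k → ℕ) (U : CMat n) : Prop :=
  U ∈ Matrix.specialUnitaryGroup (Ind n) ℂ ∧ ∀ a b : Ind n, a.1 ≠ b.1 → U a b = 0

/-- `g` is a real inner product on the tangent space (its values outside do not matter). -/
def InnerProd {k : ℕ} (n : Fin k → ℕ) (g : CMat n → CMat n → ℝ) : Prop :=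
  (∀ X Y Z, Tangent n X → Tangent n Y → Tangent n Z → g (X + Y) Z = g X Z + g Y Z) ∧
  (∀ (c : ℝ) (X Y), Tangent n X → Tangent n Y → g (c • X) Y = c * g X Y) ∧
  (∀ X Y, Tangent n X → Tangent n Y → g X Y = g Y X) ∧
  ∀ X, Tangent n X → X ≠ 0 → 0 < g X X

/-- `g` is an invariant Riemannian metric: an Ad(K)-invariant inner product on the tangent
space. -/
def InvMetric {k : ℕ} (n : Fin k → ℕ) (g : CMat n → CMat n → ℝ) : Prop :=
  InnerProd n g ∧ ∀ U, Isotropy n U → ∀ X Y, Tangent n X → Tangent n Y →
    g (U * X * Uᴴ) (U * Y * Uᴴ) = g X Y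

/-- `e` is an orthonormal basis of the tangent space for `g`. -/
def OrthoBasis {k : ℕ} (n : Fin k → ℕ) (g : CMat n → CMat n → ℝ) {m : ℕ} (e : Fin m → CMat n) :
    Prop :=
  (∀ i, Tangent n (e i)) ∧ (∀ i j, g (e i) (e j) = if i = j then 1 else 0) ∧
    ∀ X, Tangent n X → ∃ c : Fin m → ℝ, X = ∑ i, c i • e i

/-- The Ricci curvature `Ric(X, X)` of the invariant metric `g`, in terms of a `g`-orthonormal
basis `e` (it does not depend on the basis). -/
noncomputable def ricci {k : ℕ} (n : Fin k → ℕ) (g : CMat n → CMat n → ℝ) {m : ℕ}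
    (e : Fin m → CMat n) (X : CMat n) : ℝ :=
  -(1 / 2) * ∑ j, g (bracket n X (e j)) (bracket n X (e j)) - (1 / 2) * killingForm n X X
    + (1 / 4) * ∑ i, ∑ j, (g (bracket n (e i) (e j)) X) ^ 2

/-- Invariant Einstein metrics: `Ric = c g` for a constant `c`. -/
def EinsteinMetric {k : ℕ} (n : Fin k → ℕ) (g : CMat n → CMat n → ℝ) : Prop :=
  InvMetric n g ∧ ∃ (c : ℝ) (m : ℕ) (e : Fin m → CMat n), OrthoBasis n g e ∧
    ∀ X, Tangent n X → ricci n g e X = c * g X X

/-- There are only finitely many invariant Einstein metrics up to homothety: a finite set of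
functions such that every invariant Einstein metric is (on the tangent space) a positive multiple of
one of them. -/
def FinitelyManyEinstein {k : ℕ} (n : Fin k → ℕ) : Prop :=
  ∃ S : Set (CMat n → CMat n → ℝ), S.Finite ∧
    ∀ g, EinsteinMetric n g → ∃ g₀ ∈ S, ∃ c : ℝ, 0 < c ∧
      ∀ X Y, Tangent n X → Tangent n Y → g X Y = c * g₀ X Y

/-- The products `n i * n j` with `i < j` have no nonzero integer linear relation with coefficients
of absolute value at most `B`. -/
def NoRelation {k : ℕ} (B : ℕ) (n : Fin k → ℕ) : Prop :=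
  ∀ w : Fin k → Fin k → ℤ, (∀ i j, |w i j| ≤ B) →
    (∑ i, ∑ j ∈ Finset.Ioi i, w i j * (n i * n j)) = 0 → ∀ i j, i < j → w i j = 0

end Pool.Agent.H98.FL.Stmt
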