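import Pool.Agent.H98.FL.Gx

/-!
# Module SumFb: sums over the standard orthonormal basis, complexified

PROOF. Sum over `q = (p, s)`, `p = (a, b)`.  With `u = ℓ (E_ab)`, `v = ℓ (E_ba)` (complex linearity)
`ℓ (rv) = u - v`, `ℓ (iv) = i (u + v)`, so by the parallelogram law
`|ℓ (rv)|^2 + |ℓ (iv)|^2 = 2 |u|^2 + 2 |v|^2`, and the square of the normalising factor is
`1 / (4 N x_ab)`.  So the left side is `∑ over p in Pr of (|u|^2 + |v|^2) / (2 N x_ab)`, which is the sum over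
ordered pairs in different blocks (`x` is symmetric).
-/

namespace Pool.Agent.H98.FL

private theorem sumFb_pair {k : ℕ} (n : Fin k → ℕ) (hN : 0 < NN n) (x : Fin k → Fin k → ℝ)
    (hx : ∀ i j, x i j = x j i) (hp : ∀ i j, 0 < x i j) (l : Mat n →ₗ[ℂ] ℂ) (p : Pr n) :
    ‖l (fb n x (p, true) : Mat n)‖ ^ 2 + ‖l (fb n x (p, false) : Mat n)‖ ^ 2 =
      ‖l (Matrix.single p.1.1 p.1.2 1)‖ ^ 2 / (2 * NN n * x p.1.1.1 p.1.2.1) +
      ‖l (Matrix.single p.1.2 p.1.1 1)‖ ^ 2 / (2 * NN n * x p.1.2.1 p.1.1.1) := by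
  obtain ⟨⟨a, b⟩, hab⟩ := p
  have hxp : 0 < 4 * NN n * x a.1 b.1 := by have := hp a.1 b.1; positivity
  have hsq : ((Real.sqrt (4 * NN n * x a.1 b.1))⁻¹) ^ 2 = (4 * NN n * x a.1 b.1)⁻¹ := by
    rw [inv_pow, Real.sq_sqrt hxp.le]
  have h1 : l (fb n x (⟨(a, b), hab⟩, true) : Mat n) = ((Real.sqrt (4 * NN n * x a.1 b.1))⁻¹ : ℝ) •
      (l (Matrix.single a b 1) - l (Matrix.single b a 1)) := by
    have : (fb n x (⟨(a, b), hab⟩, true) : Mat n) = ((Real.sqrt (4 * NN n * x a.1 b.1))⁻¹ : ℝ) •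
        (Matrix.single a b 1 - Matrix.single b a 1) := rfl
    rw [this, LinearMap.map_smul_of_tower, map_sub]
  have h2 : l (fb n x (⟨(a, b), hab⟩, false) : Mat n) = ((Real.sqrt (4 * NN n * x a.1 b.1))⁻¹ : ℝ) •
      (Complex.I * (l (Matrix.single a b 1) + l (Matrix.single b a 1))) := by
    have : (fb n x (⟨(a, b), hab⟩, false) : Mat n) = ((Real.sqrt (4 * NN n * x a.1 b.1))⁻¹ : ℝ) •
        (Matrix.single a b Complex.I + Matrix.single b a Complex.I) := rfl
    rw [this, LinearMap.map_smul_of_tower]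
    have hs : ∀ c d : Idx n, (Matrix.single c d Complex.I : Mat n) =
        Complex.I • Matrix.single c d 1 := by
      intro c d
      rw [Matrix.smul_single, smul_eq_mul, mul_one]
    rw [hs a b, hs b a, ← smul_add, map_smul, map_add, smul_eq_mul]
  rw [h1, h2, norm_smul, norm_smul, mul_pow, mul_pow, Real.norm_eq_abs, sq_abs, hsq, norm_mul,
    Complex.norm_I, one_mul, ← mul_add]
  have hpar := parallelogram_law_with_norm ℝ (l (Matrix.single a b 1)) (l (Matrix.single b a 1))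
  have h3 : ‖l (Matrix.single a b 1) - l (Matrix.single b a 1)‖ ^ 2 +
      ‖l (Matrix.single a b 1) + l (Matrix.single b a 1)‖ ^ 2 =
      2 * (‖l (Matrix.single a b 1)‖ ^ 2 + ‖l (Matrix.single b a 1)‖ ^ 2) := by
    nlinarith [hpar]
  rw [h3, hx b.1 a.1]
  have := (hp a.1 b.1).ne'
  field_simp
  ring

theorem sum_fb {k : ℕ} (n : Fin k → ℕ) (hN : 0 < NN n) (x : Fin k → Fin k → ℝ)
    (hx : ∀ i j, x i j = x j i) (hp : ∀ i j, 0 < x i j) (l : Mat n →ₗ[ℂ] ℂ) :
    ∑ q : Pr n × Bool, ‖l (fb n x q : Mat n)‖ ^ 2 =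
      ∑ a : Idx n, ∑ b : Idx n, if a.1 = b.1 then 0 else
        ‖l (Matrix.single a b 1)‖ ^ 2 / (2 * NN n * x a.1 b.1) := by
  classical
  set f : Idx n → Idx n → ℝ := fun a b =>
    ‖l (Matrix.single a b 1)‖ ^ 2 / (2 * NN n * x a.1 b.1) with hf
  rw [Fintype.sum_prod_type]
  have h1 : ∀ p : Pr n, ∑ s : Bool, ‖l (fb n x (p, s) : Mat n)‖ ^ 2 =
      f p.1.1 p.1.2 + f p.1.2 p.1.1 := by
    intro p
    rw [Fintype.sum_bool, sumFb_pair n hN x hx hp l p]
  rw [Finset.sum_congr rfl fun p _ => h1 p]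
  have h2 : ∑ p : Pr n, (f p.1.1 p.1.2 + f p.1.2 p.1.1) =
      ∑ p : Idx n × Idx n, if p.1.1 < p.2.1 then (f p.1 p.2 + f p.2 p.1) else 0 := by
    rw [← Finset.sum_filter]
    exact (Finset.sum_subtype (Finset.univ.filter fun p : Idx n × Idx n => p.1.1 < p.2.1)
      (by simp) (fun p => f p.1 p.2 + f p.2 p.1)).symm
  rw [h2, Fintype.sum_prod_type]
  have h3 : ∀ a b : Idx n, (if a.1 < b.1 then (f a b + f b a) else 0) =
      (if a.1 < b.1 then f a b else 0) + (if a.1 < b.1 then f b a else 0) := by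
    intro a b
    split_ifs <;> simp
  simp only [h3, Finset.sum_add_distrib]
  rw [Finset.sum_comm (f := fun a b : Idx n => if a.1 < b.1 then f b a else 0)]
  rw [← Finset.sum_add_distrib]
  refine Finset.sum_congr rfl fun a _ => ?_
  rw [← Finset.sum_add_distrib]
  refine Finset.sum_congr rfl fun b _ => ?_
  rcases lt_trichotomy a.1 b.1 with h | h | h
  · rw [if_pos h, if_neg (not_lt.mpr h.le), if_neg h.ne, add_zero]
  · rw [if_neg (by rw [h]; exact lt_irrefl _), if_neg (by rw [h]; exact lt_irrefl _), if_pos h,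
      add_zero]
  · rw [if_neg (not_lt.mpr h.le), if_pos h, if_neg h.ne', zero_add]

end Pool.Agent.H98.FL
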